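import Mathlib

/-!
Hilbert-Schmidt sums and the fourth-power Schatten sum, with respect to a Hilbert basis
indexed by the natural numbers, written with values in the extended nonnegative reals.
-/

set_option autoImplicit false

open scoped NNReal ENNReal InnerProductSpace
open ContinuousLinearMap Filter Topology

namespace Pool.Agent.H53

set_option linter.unusedSectionVars false
set_option linter.deprecated false

variable {H : Type*} [NormedAddCommGroup H] [InnerProductSpace ℂ H] [CompleteSpace H]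
variable (b : HilbertBasis ℕ ℂ H)

/-- Squared Hilbert-Schmidt norm, with values in `[0,∞]`. -/
noncomputable def hs (x : H →L[ℂ] H) : ℝ≥0∞ := ∑' n, ENNReal.ofReal (‖x (b n)‖ ^ 2)

/-- Fourth power of the Schatten 4-norm: squared Hilbert-Schmidt norm of `x* x`. -/
noncomputable def q4 (x : H →L[ℂ] H) : ℝ≥0∞ := hs b (star x * x)

lemma parseval (v : H) :
    ∑' m, ENNReal.ofReal (‖⟪b m, v⟫_ℂ‖ ^ 2) = ENNReal.ofReal (‖v‖ ^ 2) := by
  have h := b.hasSum_inner_mul_inner v v
  have h2 : HasSum (fun m => ‖⟪b m, v⟫_ℂ‖ ^ 2) (‖v‖ ^ 2) := by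
    have h3 : HasSum (fun m => ((‖⟪b m, v⟫_ℂ‖ ^ 2 : ℝ) : ℂ)) ((‖v‖ ^ 2 : ℝ) : ℂ) := by
      have e1 : ∀ m, ⟪v, b m⟫_ℂ * ⟪b m, v⟫_ℂ = ((‖⟪b m, v⟫_ℂ‖ ^ 2 : ℝ) : ℂ) := by
        intro m
        rw [← inner_conj_symm v (b m)]
        rw [Complex.conj_mul']
        push_cast
        rfl
      have e2 : ⟪v, v⟫_ℂ = ((‖v‖ ^ 2 : ℝ) : ℂ) := by
        rw [inner_self_eq_norm_sq_to_K]
        push_cast
        rfl
      simpa [e1, e2] using h
    exact_mod_cast h3
  rw [← h2.tsum_eq]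
  exact (ENNReal.ofReal_tsum_of_nonneg (fun n => by positivity) h2.summable).symm

lemma hs_star (x : H →L[ℂ] H) : hs b (star x) = hs b x := by
  unfold hs
  simp_rw [← parseval b]
  rw [ENNReal.tsum_comm]
  congr 1
  ext m
  congr 1
  ext n
  rw [star_eq_adjoint, adjoint_inner_right, ← inner_conj_symm, RCLike.norm_conj]

lemma inner_star_left (x : H →L[ℂ] H) (u v : H) : ⟪(star x) u, v⟫_ℂ = ⟪u, x v⟫_ℂ := by
  rw [star_eq_adjoint, adjoint_inner_left]

lemma inner_star_right (x : H →L[ℂ] H) (u v : H) : ⟪u, (star x) v⟫_ℂ = ⟪x u, v⟫_ℂ := by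
  rw [star_eq_adjoint, adjoint_inner_right]

lemma normsq_eq (v : H) : ‖v‖ ^ 2 = (⟪v, v⟫_ℂ).re := by
  rw [inner_self_eq_norm_sq_to_K]
  norm_cast

/-- the key identity -/
lemma hs_add_sq (x y : H →L[ℂ] H) :
    hs b (star x * x + star y * y) =
      hs b (x * star x) + hs b (y * star x) + (hs b (x * star y) + hs b (y * star y)) := by
  set R : H →L[ℂ] H := star x * x + star y * y with hR
  have hR0 : 0 ≤ R := add_nonneg (star_mul_self_nonneg x) (star_mul_self_nonneg y)
  set t : H →L[ℂ] H := CFC.sqrt R with ht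
  have htt : t * t = R := CFC.sqrt_mul_sqrt_self R hR0
  have ht0 : 0 ≤ t := CFC.sqrt_nonneg R
  have hts : star t = t := (IsSelfAdjoint.of_nonneg ht0).star_eq
  -- general: for any v, ‖t v‖^2 = ‖x v‖^2 + ‖y v‖^2
  have key : ∀ v : H, ‖t v‖ ^ 2 = ‖x v‖ ^ 2 + ‖y v‖ ^ 2 := by
    intro v
    rw [normsq_eq, normsq_eq, normsq_eq]
    have : ⟪t v, t v⟫_ℂ = ⟪x v, x v⟫_ℂ + ⟪y v, y v⟫_ℂ := by
      have h1 : t (t v) = (star x) (x v) + (star y) (y v) := by
        have := congrArg (fun z : H →L[ℂ] H => z v) htt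
        simpa [hR] using this
      have h2 : ⟪t v, t v⟫_ℂ = ⟪v, t (t v)⟫_ℂ := by
        have := inner_star_right t v (t v)
        rw [hts] at this
        exact this.symm
      rw [h2, h1, inner_add_right, inner_star_right, inner_star_right]
    rw [this, Complex.add_re]
  have keyE : ∀ v : H, ENNReal.ofReal (‖t v‖ ^ 2) =
      ENNReal.ofReal (‖x v‖ ^ 2) + ENNReal.ofReal (‖y v‖ ^ 2) := by
    intro v
    rw [key v, ENNReal.ofReal_add (by positivity) (by positivity)]
  have step1 : hs b R = hs b (x * t) + hs b (y * t) := by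
    unfold hs
    rw [← ENNReal.tsum_add]
    congr 1
    ext n
    rw [← htt]
    exact keyE (t (b n))
  have step2 : hs b (x * t) = hs b (t * star x) := by
    rw [← hs_star b (x * t), star_mul, hts]
  have step3 : hs b (y * t) = hs b (t * star y) := by
    rw [← hs_star b (y * t), star_mul, hts]
  have step4 : ∀ z : H →L[ℂ] H, hs b (t * z) = hs b (x * z) + hs b (y * z) := by
    intro z
    unfold hs
    rw [← ENNReal.tsum_add]
    congr 1
    ext n
    exact keyE (z (b n))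
  rw [step1, step2, step3, step4, step4]

/-- `q4` is invariant under adjoints. -/
lemma hs_mul_star (x : H →L[ℂ] H) : hs b (x * star x) = hs b (star x * x) := by
  have h := hs_add_sq b x 0
  have h0 : hs b (0 : H →L[ℂ] H) = 0 := by simp [hs]
  simpa [h0] using h.symm

lemma q4_star (x : H →L[ℂ] H) : q4 b (star x) = q4 b x := by
  unfold q4
  rw [star_star, hs_mul_star]

lemma hs_sum_sq (x y : H →L[ℂ] H) :
    hs b (star x * x + star y * y) = q4 b x + q4 b y + 2 * hs b (x * star y) := by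
  have h1 : hs b (y * star x) = hs b (x * star y) := by
    rw [← hs_star b (y * star x), star_mul, star_star]
  rw [hs_add_sq, hs_mul_star, hs_mul_star, h1]
  unfold q4
  ring

lemma parallelogram_hs (x y : H →L[ℂ] H) :
    hs b (x + y) + hs b (x - y) = 2 * hs b x + 2 * hs b y := by
  unfold hs
  rw [← ENNReal.tsum_mul_left, ← ENNReal.tsum_mul_left, ← ENNReal.tsum_add, ← ENNReal.tsum_add]
  congr 1
  ext n
  have h := parallelogram_law_with_norm ℂ (x (b n)) (y (b n))
  have h' : ‖(x + y) (b n)‖ ^ 2 + ‖(x - y) (b n)‖ ^ 2 =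
      2 * ‖x (b n)‖ ^ 2 + 2 * ‖y (b n)‖ ^ 2 := by
    simp only [ContinuousLinearMap.add_apply, ContinuousLinearMap.sub_apply]
    nlinarith [h]
  have e2 : (2 : ℝ≥0∞) = ENNReal.ofReal 2 := by simp
  rw [← ENNReal.ofReal_add (by positivity) (by positivity), h',
    ENNReal.ofReal_add (by positivity) (by positivity), e2,
    ENNReal.ofReal_mul (by norm_num), ENNReal.ofReal_mul (by norm_num)]

/-- Clarkson type identity. -/
lemma q4_parallelogram (x y : H →L[ℂ] H) :
    q4 b (x + y) + q4 b (x - y) =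
      2 * (q4 b x + q4 b y + 2 * hs b (x * star y)) + 2 * hs b (star x * y + star y * x) := by
  have h := parallelogram_hs b (star x * x + star y * y) (star x * y + star y * x)
  rw [hs_sum_sq] at h
  rw [← h]
  unfold q4
  congr 2
  · rw [star_add]; noncomm_ring
  · rw [star_sub]; noncomm_ring

lemma hs_smul (c : ℂ) (x : H →L[ℂ] H) : hs b (c • x) = ENNReal.ofReal (‖c‖ ^ 2) * hs b x := by
  unfold hs
  rw [← ENNReal.tsum_mul_left]
  congr 1
  ext n
  rw [ContinuousLinearMap.smul_apply, norm_smul, mul_pow, ENNReal.ofReal_mul (by positivity)]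

lemma q4_smul (c : ℂ) (x : H →L[ℂ] H) : q4 b (c • x) = ENNReal.ofReal (‖c‖ ^ 4) * q4 b x := by
  unfold q4
  have : star (c • x) * (c • x) = ((starRingEnd ℂ c) * c) • (star x * x) := by
    rw [star_smul, smul_mul_assoc, mul_smul_comm, smul_smul]
    rfl
  rw [this, hs_smul, norm_mul, RCLike.norm_conj]
  congr 2
  ring

lemma hs_eq_zero {x : H →L[ℂ] H} (h : hs b x = 0) : x = 0 := by
  unfold hs at h
  rw [ENNReal.tsum_eq_zero] at h
  have h1 : ∀ n, x (b n) = 0 := by
    intro n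
    have := h n
    rw [ENNReal.ofReal_eq_zero] at this
    have h2 : ‖x (b n)‖ ^ 2 = 0 := le_antisymm this (by positivity)
    exact norm_eq_zero.mp (pow_eq_zero_iff (two_ne_zero) |>.mp h2)
  have hd : Dense (Submodule.span ℂ (Set.range b) : Set H) := by
    exact Submodule.dense_iff_topologicalClosure_eq_top.mpr b.dense_span
  refine ContinuousLinearMap.ext_on hd ?_
  rintro _ ⟨n, rfl⟩
  simpa using h1 n

lemma star_mul_self_eq_zero' {x : H →L[ℂ] H} (h : star x * x = 0) : x = 0 := by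
  exact (CStarRing.star_mul_self_eq_zero_iff x).mp h

lemma q4_eq_zero {x : H →L[ℂ] H} (h : q4 b x = 0) : x = 0 :=
  star_mul_self_eq_zero' (hs_eq_zero b h)

/-- Clarkson inequality for the fourth power. -/
lemma q4_clarkson (x y : H →L[ℂ] H) :
    q4 b ((2⁻¹ : ℂ) • (x + y)) + q4 b ((2⁻¹ : ℂ) • (x - y)) ≤
      (2⁻¹ : ℝ≥0∞) * (q4 b x + q4 b y) := by
  set m := (2⁻¹ : ℂ) • (x + y) with hm
  set d := (2⁻¹ : ℂ) • (x - y) with hd
  have h1 : q4 b m + q4 b d ≤ hs b (star m * m + star d * d) := by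
    rw [hs_sum_sq]
    exact le_self_add
  have h2 : star m * m + star d * d = (2⁻¹ : ℂ) • (star x * x + star y * y) := by
    rw [hm, hd, star_smul, star_smul, star_add, star_sub]
    simp only [smul_mul_assoc, mul_smul_comm, smul_smul, ← smul_add]
    have : (2⁻¹ : ℂ) * star (2⁻¹ : ℂ) = 4⁻¹ := by
      simp; norm_num
    have e : (star x + star y) * (x + y) + (star x - star y) * (x - y) =
        (2 : ℂ) • (star x * x + star y * y) := by
      rw [two_smul]; noncomm_ring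
    rw [this, e, smul_smul]
    norm_num
  have h3 : hs b (star x * x + star y * y) ≤ 2 * (q4 b x + q4 b y) := by
    have := parallelogram_hs b (star x * x) (star y * y)
    calc hs b (star x * x + star y * y) ≤ hs b (star x * x + star y * y) +
        hs b (star x * x - star y * y) := le_self_add
      _ = 2 * (q4 b x + q4 b y) := by rw [this]; unfold q4; ring
  calc q4 b m + q4 b d ≤ hs b (star m * m + star d * d) := h1
    _ = ENNReal.ofReal (‖(2⁻¹ : ℂ)‖ ^ 2) * hs b (star x * x + star y * y) := by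
        rw [h2, hs_smul]
    _ ≤ ENNReal.ofReal (‖(2⁻¹ : ℂ)‖ ^ 2) * (2 * (q4 b x + q4 b y)) := by gcongr
    _ = (2⁻¹ : ℝ≥0∞) * (q4 b x + q4 b y) := by
        have : ENNReal.ofReal (‖(2⁻¹ : ℂ)‖ ^ 2) * 2 = 2⁻¹ := by
          have e2 : (2 : ℝ≥0∞) = ENNReal.ofReal 2 := by simp
          rw [e2, ← ENNReal.ofReal_mul (by positivity), ← ENNReal.ofReal_inv_of_pos (by norm_num)]
          congr 1
          simp
          norm_num
        rw [← mul_assoc, this]

/-- Orthogonality criterion. -/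
lemma orth_of_q4 {x y : H →L[ℂ] H} (hx : q4 b x ≠ ⊤) (hy : q4 b y ≠ ⊤)
    (h : q4 b (x + y) + q4 b (x - y) = 2 * (q4 b x + q4 b y)) :
    x * star y = 0 ∧ star x * y = 0 := by
  have aux : ∀ {x y : H →L[ℂ] H}, q4 b x ≠ ⊤ → q4 b y ≠ ⊤ →
      q4 b (x + y) + q4 b (x - y) = 2 * (q4 b x + q4 b y) → x * star y = 0 := by
    intro x y hx hy h
    rw [q4_parallelogram, mul_add, add_assoc] at h
    have hfin : 2 * (q4 b x + q4 b y) ≠ ⊤ :=
      ENNReal.mul_ne_top (by norm_num) (ENNReal.add_ne_top.mpr ⟨hx, hy⟩)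
    have h0 : 2 * (2 * hs b (x * star y)) + 2 * hs b (star x * y + star y * x) = 0 := by
      have : 2 * (q4 b x + q4 b y) + (2 * (2 * hs b (x * star y)) +
          2 * hs b (star x * y + star y * x)) = 2 * (q4 b x + q4 b y) + 0 := by
        rw [add_zero]; exact h
      exact (ENNReal.add_right_inj hfin).mp this
    have h1 : hs b (x * star y) = 0 := by
      have := (add_eq_zero.mp h0).1
      simpa using this
    exact hs_eq_zero b h1
  refine ⟨aux hx hy h, ?_⟩
  have h' : q4 b (star x + star y) + q4 b (star x - star y) =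
      2 * (q4 b (star x) + q4 b (star y)) := by
    rw [← star_add, ← star_sub, q4_star, q4_star, q4_star, q4_star, h]
  have := aux (x := star x) (y := star y) (by rwa [q4_star]) (by rwa [q4_star]) h'
  rwa [star_star] at this

/-- Converse direction. -/
lemma q4_of_orth {x y : H →L[ℂ] H} (h1 : x * star y = 0) (h2 : star x * y = 0) :
    q4 b (x + y) + q4 b (x - y) = 2 * (q4 b x + q4 b y) := by
  have h3 : star y * x = 0 := by
    have := congrArg star h2
    rwa [star_mul, star_star, star_zero] at this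
  have h0 : hs b (0 : H →L[ℂ] H) = 0 := by simp [hs]
  rw [q4_parallelogram, h1, h2, h3, add_zero, h0]
  simp

/-- Relative compactness in Hilbert-Schmidt norm of a dominated selfadjoint sequence. -/
lemma exists_close {G : H →L[ℂ] H} (hG : hs b G ≠ ⊤) (Z : ℕ → H →L[ℂ] H)
    (hZs : ∀ n, star (Z n) = Z n) (hZ : ∀ n v, ‖Z n v‖ ≤ ‖G v‖) {ε : ℝ≥0∞} (hε : 0 < ε)
    (hε' : ε ≠ ⊤) :
    ∃ n m, n < m ∧ hs b (Z m - Z n) < ε := by
  classical
  -- tails
  have ht := ENNReal.tendsto_tsum_compl_atTop_zero (f := fun j => ENNReal.ofReal (‖G (b j)‖ ^ 2)) hG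
  have hε16 : 0 < ε / 16 := ENNReal.div_pos hε.ne' (by norm_num)
  obtain ⟨s, hs'⟩ := ((tendsto_order.1 ht).2 _ hε16).exists
  set τ : ℝ≥0∞ := ∑' j : {x // x ∉ s}, ENNReal.ofReal (‖G (b j)‖ ^ 2) with hτ
  -- the finite part
  let v : ℕ → (s → s → ℂ) := fun n i j => ⟪b i, Z n (b j)⟫_ℂ
  have hbound : ∀ n, v n ∈ Metric.closedBall (0 : s → s → ℂ) ‖G‖ := by
    intro n
    rw [mem_closedBall_zero_iff]
    rw [pi_norm_le_iff_of_nonneg (norm_nonneg _)]
    intro i
    rw [pi_norm_le_iff_of_nonneg (norm_nonneg _)]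
    intro j
    calc ‖⟪b i, Z n (b j)⟫_ℂ‖ ≤ ‖b i‖ * ‖Z n (b j)‖ := norm_inner_le_norm _ _
      _ ≤ 1 * ‖G (b j)‖ := by
          rw [b.orthonormal.1 i]; gcongr; exact hZ n _
      _ ≤ 1 * (‖G‖ * ‖b j‖) := by gcongr; exact G.le_opNorm _
      _ = ‖G‖ := by rw [b.orthonormal.1 j]; ring
  obtain ⟨a, -, φ, hφ, hlim⟩ := tendsto_subseq_of_bounded Metric.isBounded_closedBall hbound
  have hlim2 : Tendsto (fun k => v (φ (k + 1)) - v (φ k)) atTop (𝓝 0) := by
    have h1 := (hlim.comp (tendsto_add_atTop_nat 1)).sub hlim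
    rw [sub_self] at h1
    exact h1
  let F : (s → s → ℂ) → ℝ := fun w => ∑ j : s, ∑ i : s, ‖w i j‖ ^ 2
  have hF : Continuous F := by fun_prop
  have hF0 : F 0 = 0 := by simp [F]
  have hlim3 : Tendsto (fun k => ENNReal.ofReal (F (v (φ (k + 1)) - v (φ k)))) atTop (𝓝 0) := by
    have h1 := (ENNReal.continuous_ofReal.comp hF).tendsto 0
    simp only [Function.comp_apply, hF0, ENNReal.ofReal_zero] at h1
    exact h1.comp hlim2
  have hε2 : 0 < ε / 2 := ENNReal.div_pos hε.ne' (by norm_num)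
  obtain ⟨k, hk⟩ := ((tendsto_order.1 hlim3).2 _ hε2).exists
  refine ⟨φ k, φ (k + 1), hφ (Nat.lt_succ_self k), ?_⟩
  set Y := Z (φ (k + 1)) - Z (φ k) with hY
  have hYs : star Y = Y := by rw [hY, star_sub, hZs, hZs]
  have hYb : ∀ w, ENNReal.ofReal (‖Y w‖ ^ 2) ≤ 4 * ENNReal.ofReal (‖G w‖ ^ 2) := by
    intro w
    have h1 : ‖Y w‖ ≤ 2 * ‖G w‖ := by
      calc ‖Y w‖ ≤ ‖Z (φ (k + 1)) w‖ + ‖Z (φ k) w‖ := norm_sub_le _ _
        _ ≤ ‖G w‖ + ‖G w‖ := add_le_add (hZ _ _) (hZ _ _)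
        _ = 2 * ‖G w‖ := by ring
    have e4 : (4 : ℝ≥0∞) = ENNReal.ofReal 4 := by simp
    rw [e4, ← ENNReal.ofReal_mul (by norm_num)]
    apply ENNReal.ofReal_le_ofReal
    nlinarith [norm_nonneg (Y w), norm_nonneg (G w)]
  let y : ℕ → ℕ → ℝ≥0∞ := fun i j => ENNReal.ofReal (‖⟪b i, Y (b j)⟫_ℂ‖ ^ 2)
  have hysymm : ∀ i j, y i j = y j i := by
    intro i j
    simp only [y]
    rw [← inner_star_left, hYs, ← inner_conj_symm, RCLike.norm_conj]
  have hPars : ∀ j, ∑' i, y i j = ENNReal.ofReal (‖Y (b j)‖ ^ 2) := fun j => parseval b _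
  have hsplit : ∀ f : ℕ → ℝ≥0∞, ∑' j, f j = ∑ j ∈ s, f j + ∑' j : {x // x ∉ s}, f j := by
    intro f
    rw [← ENNReal.sum_add_tsum_compl s f]
    rfl
  have htail : ∑' j : {x // x ∉ s}, ENNReal.ofReal (‖Y (b j)‖ ^ 2) ≤ 4 * τ := by
    rw [hτ, ← ENNReal.tsum_mul_left]
    exact ENNReal.tsum_le_tsum fun j => hYb _
  have hfin : ∑ j ∈ s, ∑ i ∈ s, y i j = ENNReal.ofReal (F (v (φ (k + 1)) - v (φ k))) := by
    simp only [F]
    rw [ENNReal.ofReal_sum_of_nonneg (fun i _ => Finset.sum_nonneg fun j _ => by positivity)]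
    rw [← Finset.sum_coe_sort]
    apply Finset.sum_congr rfl
    intro j _
    rw [ENNReal.ofReal_sum_of_nonneg (fun i _ => by positivity)]
    rw [← Finset.sum_coe_sort]
    apply Finset.sum_congr rfl
    intro i _
    simp only [y, v, hY, Pi.sub_apply, ContinuousLinearMap.sub_apply, inner_sub_right]
  have hcross : ∑ j ∈ s, ∑' i : {x // x ∉ s}, y i j ≤ 4 * τ := by
    calc ∑ j ∈ s, ∑' i : {x // x ∉ s}, y i j ≤ ∑' j, ∑' i : {x // x ∉ s}, y i j :=
          ENNReal.sum_le_tsum s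
      _ = ∑' i : {x // x ∉ s}, ∑' j, y i j := ENNReal.tsum_comm
      _ = ∑' i : {x // x ∉ s}, ENNReal.ofReal (‖Y (b i)‖ ^ 2) := by
          congr 1; ext i
          rw [← hPars i]
          congr 1; ext j
          exact hysymm _ _
      _ ≤ 4 * τ := htail
  calc hs b Y = ∑ j ∈ s, ENNReal.ofReal (‖Y (b j)‖ ^ 2) +
        ∑' j : {x // x ∉ s}, ENNReal.ofReal (‖Y (b j)‖ ^ 2) := hsplit _
    _ = ∑ j ∈ s, (∑ i ∈ s, y i j + ∑' i : {x // x ∉ s}, y i j) +
        ∑' j : {x // x ∉ s}, ENNReal.ofReal (‖Y (b j)‖ ^ 2) := by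
        congr 1
        apply Finset.sum_congr rfl
        intro j _
        rw [← hPars j, hsplit]
    _ = ∑ j ∈ s, ∑ i ∈ s, y i j + ∑ j ∈ s, ∑' i : {x // x ∉ s}, y i j +
        ∑' j : {x // x ∉ s}, ENNReal.ofReal (‖Y (b j)‖ ^ 2) := by
        rw [Finset.sum_add_distrib]
    _ ≤ ENNReal.ofReal (F (v (φ (k + 1)) - v (φ k))) + 4 * τ + 4 * τ := by
        rw [hfin]; gcongr
    _ < ε / 2 + 4 * (ε / 16) + 4 * (ε / 16) := by
        have h4 : 4 * τ ≤ 4 * (ε / 16) := by gcongr
        have hfin16 : 4 * (ε / 16) ≠ ⊤ :=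
          ENNReal.mul_ne_top (by norm_num) (ENNReal.div_ne_top hε' (by norm_num))
        have h5 : 4 * τ ≠ ⊤ := ne_top_of_le_ne_top hfin16 h4
        have h6 : ENNReal.ofReal (F (v (φ (k + 1)) - v (φ k))) + 4 * τ < ε / 2 + 4 * (ε / 16) :=
          ENNReal.add_lt_add_of_lt_of_le h5 hk h4
        exact ENNReal.add_lt_add_of_lt_of_le h5 h6 h4
    _ = ε := by
        have e4 : (4 : ℝ≥0∞) * (ε / 16) = ε / 4 := by
          rw [ENNReal.div_eq_inv_mul, ENNReal.div_eq_inv_mul, ← mul_assoc]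
          congr 1
          rw [show (16 : ℝ≥0∞) = 4 * 4 by norm_num, ENNReal.mul_inv (by norm_num) (by norm_num),
            ← mul_assoc, ENNReal.mul_inv_cancel (by norm_num) (by norm_num), one_mul]
        have e2 : ε / 4 + ε / 4 = ε / 2 := by
          rw [ENNReal.div_add_div_same, ← two_mul, ENNReal.div_eq_inv_mul, ENNReal.div_eq_inv_mul,
            ← mul_assoc]
          congr 1
          rw [show (4 : ℝ≥0∞) = 2 * 2 by norm_num, ENNReal.mul_inv (by norm_num) (by norm_num),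
            mul_assoc, ENNReal.inv_mul_cancel (by norm_num) (by norm_num), mul_one]
        rw [e4, add_assoc, e2, ENNReal.add_halves]


lemma norm_le_of_orth {x y : H →L[ℂ] H} (h : star x * y = 0) (v : H) :
    ‖x v‖ ≤ ‖(x + y) v‖ := by
  have h0 : ⟪x v, y v⟫_ℂ = 0 := by
    have h1 : ⟪x v, y v⟫_ℂ = ⟪v, (star x * y) v⟫_ℂ := by
      rw [ContinuousLinearMap.mul_apply, inner_star_right]
    rw [h1, h]
    simp
  have h2 := norm_add_sq_eq_norm_sq_add_norm_sq_of_inner_eq_zero (x v) (y v) h0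
  rw [ContinuousLinearMap.add_apply]
  nlinarith [norm_nonneg (x v), norm_nonneg (y v), norm_nonneg (x v + y v), mul_self_nonneg ‖y v‖,
    abs_le_of_sq_le_sq' (a := ‖x v‖) (b := ‖x v + y v‖) (by nlinarith [norm_nonneg (y v)])
      (norm_nonneg _) |>.2]

/-- In a family of orthogonal splittings of a fixed operator with finite `q4`, two members are
arbitrarily close. -/
lemma exists_close_q4 {D : H →L[ℂ] H} (hD : q4 b D ≠ ⊤) (A B : ℕ → H →L[ℂ] H)
    (hAB : ∀ n, A n + B n = D) (h1 : ∀ n, A n * star (B n) = 0)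
    (h2 : ∀ n, star (A n) * B n = 0) {ε : ℝ≥0∞} (hε : 0 < ε) (hε' : ε ≠ ⊤) :
    ∃ n m, n < m ∧ q4 b (A m - A n) < ε := by
  have h2' : ∀ n, star (B n) * A n = 0 := by
    intro n
    have := congrArg star (h2 n)
    rwa [star_mul, star_star, star_zero] at this
  have hDA : ∀ n, star D * A n = star (A n) * A n := by
    intro n
    rw [← hAB n, star_add, add_mul, h2', add_zero]
  have hZs : ∀ n, star (star D * A n) = star D * A n := by
    intro n
    rw [hDA, star_mul, star_star]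
  have hZ : ∀ n v, ‖(star D * A n) v‖ ≤ ‖(star D * D) v‖ := by
    intro n v
    have e : star D * D = star (A n) * A n + star (B n) * B n := by
      rw [← hAB n, star_add, add_mul, mul_add, mul_add, h2, h2']
      simp
    rw [hDA, e]
    apply norm_le_of_orth
    rw [star_mul, star_star, mul_assoc, ← mul_assoc (A n), h1]
    simp
  have hε4 : 0 < ε / 4 := ENNReal.div_pos hε.ne' (by norm_num)
  obtain ⟨n, m, hnm, hlt⟩ := exists_close b (G := star D * D) hD (fun n => star D * A n) hZs hZ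
    hε4 (ENNReal.div_ne_top hε' (by norm_num))
  refine ⟨n, m, hnm, ?_⟩
  have hAstar : ∀ n v, ‖(star (A n)) v‖ ≤ ‖(star D) v‖ := by
    intro n v
    rw [← hAB n, star_add]
    apply norm_le_of_orth
    rw [star_star, h1]
  set X := A m - A n with hX
  have hle : q4 b X ≤ 4 * hs b (star D * A m - star D * A n) := by
    unfold q4 hs
    rw [← ENNReal.tsum_mul_left]
    apply ENNReal.tsum_le_tsum
    intro j
    have e4 : (4 : ℝ≥0∞) = ENNReal.ofReal 4 := by simp
    rw [e4, ← ENNReal.ofReal_mul (by norm_num)]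
    apply ENNReal.ofReal_le_ofReal
    have h3 : ‖(star X * X) (b j)‖ ≤ 2 * ‖(star D * A m - star D * A n) (b j)‖ := by
      have e1 : (star X * X) (b j) = (star (A m)) (X (b j)) - (star (A n)) (X (b j)) := by
        conv_lhs => rw [hX, star_sub]
        simp [hX]
      have e2 : (star D * A m - star D * A n) (b j) = (star D) (X (b j)) := by
        simp [hX]
      rw [e1, e2]
      calc ‖(star (A m)) (X (b j)) - (star (A n)) (X (b j))‖
          ≤ ‖(star (A m)) (X (b j))‖ + ‖(star (A n)) (X (b j))‖ := norm_sub_le _ _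
        _ ≤ ‖(star D) (X (b j))‖ + ‖(star D) (X (b j))‖ := add_le_add (hAstar _ _) (hAstar _ _)
        _ = 2 * ‖(star D) (X (b j))‖ := by ring
    nlinarith [norm_nonneg ((star X * X) (b j)), norm_nonneg ((star D * A m - star D * A n) (b j))]
  calc q4 b X ≤ 4 * hs b (star D * A m - star D * A n) := hle
    _ < 4 * (ε / 4) := by
        rw [ENNReal.mul_lt_mul_iff_right (by norm_num) (by norm_num)]
        exact hlt
    _ = ε := ENNReal.mul_div_cancel (by norm_num) (by norm_num)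

lemma q4_sub_lt_top {x y : H →L[ℂ] H} (hx : q4 b x < ⊤) (hy : q4 b y < ⊤) :
    q4 b (x - y) < ⊤ := by
  have h1 : q4 b ((2⁻¹ : ℂ) • (x - y)) < ⊤ := by
    refine lt_of_le_of_lt (le_trans le_add_self (q4_clarkson b x y)) ?_
    exact ENNReal.mul_lt_top (by simp) (ENNReal.add_lt_top.mpr ⟨hx, hy⟩)
  have h2 : x - y = (2 : ℂ) • ((2⁻¹ : ℂ) • (x - y)) := by
    rw [smul_smul]; norm_num
  rw [h2, q4_smul]
  exact ENNReal.mul_lt_top ENNReal.ofReal_lt_top h1

/-- Core of the argument: an operator fixing `E0 + E1` and contracting the difference has no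
isometric dilation with respect to the fourth power Schatten sum. -/
theorem no_dilation_core {E0 E1 F : H →L[ℂ] H} (hE0 : q4 b E0 < ⊤) (hE1 : q4 b E1 < ⊤)
    (ho1 : E0 * star E1 = 0) (ho2 : star E0 * E1 = 0)
    (T : (H →L[ℂ] H) →ₗ[ℂ] (H →L[ℂ] H))
    (hTE : T (E0 + E1) = E0 + E1) (hTn : ∀ n : ℕ, (T ^ (n + 1)) E0 = F) (hF : F ≠ E0)
    (hFfin : q4 b (F - E0) < ⊤)
    (J P U : (H →L[ℂ] H) →ₗ[ℂ] (H →L[ℂ] H))
    (hJ : ∀ x, q4 b x < ⊤ → q4 b (J x) = q4 b x)
    (hPJ : ∀ x, q4 b x < ⊤ → P (J x) = J x)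
    (hP : ∀ y, q4 b y < ⊤ → q4 b (P y) ≤ q4 b y)
    (hU : ∀ x, q4 b x < ⊤ → q4 b (U x) = q4 b x)
    (hdil : ∀ n : ℕ, ∀ x, q4 b x < ⊤ → P ((U ^ n) (J x)) = J ((T ^ n) x)) : False := by
  -- finiteness facts
  have hsum := q4_of_orth b ho1 ho2
  have hfin2 : 2 * (q4 b E0 + q4 b E1) < ⊤ :=
    ENNReal.mul_lt_top (by norm_num) (ENNReal.add_lt_top.mpr ⟨hE0, hE1⟩)
  have hEp : q4 b (E0 + E1) < ⊤ := lt_of_le_of_lt (by rw [← hsum]; exact le_self_add) hfin2
  have hEm : q4 b (E0 - E1) < ⊤ := lt_of_le_of_lt (by rw [← hsum]; exact le_add_self) hfin2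
  -- powers of U are isometric
  have hUn : ∀ n : ℕ, ∀ x, q4 b x < ⊤ → q4 b ((U ^ n) x) = q4 b x := by
    intro n
    induction n with
    | zero => intro x _; simp
    | succ n ih =>
      intro x hx
      rw [pow_succ', Module.End.mul_apply, hU _ (by rw [ih x hx]; exact hx), ih x hx]
  set D := J (E0 + E1) with hDdef
  have hDq : q4 b D = q4 b (E0 + E1) := hJ _ hEp
  have hDfin : q4 b D < ⊤ := by rw [hDq]; exact hEp
  -- U fixes D
  have hUD : U D = D := by
    have hPUD : P (U D) = D := by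
      have := hdil 1 (E0 + E1) hEp
      rw [pow_one, pow_one, hTE] at this
      exact this
    have hPD : P D = D := hPJ _ hEp
    have hcl := q4_clarkson b D (U D)
    have hUDq : q4 b (U D) = q4 b D := hU _ hDfin
    have hrhs : (2⁻¹ : ℝ≥0∞) * (q4 b D + q4 b (U D)) = q4 b D := by
      rw [hUDq, ← two_mul, ← mul_assoc, ENNReal.inv_mul_cancel (by norm_num) (by norm_num), one_mul]
    rw [hrhs] at hcl
    have hmfin : q4 b ((2⁻¹ : ℂ) • (D + U D)) < ⊤ :=
      lt_of_le_of_lt (le_trans le_self_add hcl) hDfin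
    have hPm : P ((2⁻¹ : ℂ) • (D + U D)) = D := by
      rw [map_smul, map_add, hPUD, hPD, ← two_smul ℂ D, smul_smul]
      norm_num
    have hge : q4 b D ≤ q4 b ((2⁻¹ : ℂ) • (D + U D)) := by
      have := hP _ hmfin
      rwa [hPm] at this
    have h0 : q4 b ((2⁻¹ : ℂ) • (D - U D)) = 0 := by
      have h1 : q4 b D + q4 b ((2⁻¹ : ℂ) • (D - U D)) ≤ q4 b D + 0 := by
        rw [add_zero]
        exact le_trans (add_le_add_left hge _) hcl
      have h2 := (ENNReal.add_le_add_iff_left hDfin.ne).mp h1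
      exact le_antisymm h2 zero_le
    have h3 := q4_eq_zero b h0
    rw [smul_eq_zero] at h3
    rcases h3 with h3 | h3
    · norm_num at h3
    · exact (sub_eq_zero.mp h3).symm
  have hUnD : ∀ n : ℕ, (U ^ n) D = D := by
    intro n
    induction n with
    | zero => simp
    | succ n ih => rw [pow_succ', Module.End.mul_apply, ih, hUD]
  -- the two orthogonal pieces
  set A : ℕ → H →L[ℂ] H := fun n => (U ^ n) (J E0) with hA
  set B : ℕ → H →L[ℂ] H := fun n => (U ^ n) (J E1) with hB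
  have hAB : ∀ n, A n + B n = D := by
    intro n
    simp only [hA, hB]
    rw [← map_add, ← map_add, ← hDdef, hUnD]
  have hW : ∀ n x, q4 b x < ⊤ → q4 b ((U ^ n) (J x)) = q4 b x := by
    intro n x hx
    rw [hUn n _ (by rw [hJ x hx]; exact hx), hJ x hx]
  have horth : ∀ n, A n * star (B n) = 0 ∧ star (A n) * B n = 0 := by
    intro n
    have hAq : q4 b (A n) = q4 b E0 := hW n _ hE0
    have hBq : q4 b (B n) = q4 b E1 := hW n _ hE1
    apply orth_of_q4 b (by rw [hAq]; exact hE0.ne) (by rw [hBq]; exact hE1.ne)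
    have e1 : q4 b (A n + B n) = q4 b (E0 + E1) := by
      simp only [hA, hB]
      rw [← map_add, ← map_add]
      exact hW n _ hEp
    have e2 : q4 b (A n - B n) = q4 b (E0 - E1) := by
      simp only [hA, hB]
      rw [← map_sub, ← map_sub]
      exact hW n _ hEm
    rw [e1, e2, hAq, hBq, hsum]
  have hεpos : 0 < q4 b (F - E0) := by
    rw [pos_iff_ne_zero]
    intro h
    exact hF (sub_eq_zero.mp (q4_eq_zero b h))
  obtain ⟨n, m, hnm, hlt⟩ := exists_close_q4 b hDfin.ne A B hAB (fun n => (horth n).1)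
    (fun n => (horth n).2) hεpos hFfin.ne
  -- lower bound
  obtain ⟨k, rfl⟩ := Nat.exists_eq_add_of_lt hnm
  have hJE0 : q4 b (J E0) < ⊤ := by rw [hJ _ hE0]; exact hE0
  set V : H →L[ℂ] H := (U ^ (k + 1)) (J E0) - J E0 with hV
  have hVfin : q4 b V < ⊤ := by
    apply q4_sub_lt_top b _ hJE0
    rw [hW _ _ hE0]
    exact hE0
  have hdiff : A (n + k + 1) - A n = (U ^ n) V := by
    simp only [hA, hV]
    rw [map_sub]
    congr 1
    rw [show n + k + 1 = n + (k + 1) by ring, pow_add, Module.End.mul_apply]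
  have hPV : P V = J (F - E0) := by
    rw [hV, map_sub, hdil _ _ hE0, hTn, hPJ _ hE0, map_sub]
  have hlow : q4 b (F - E0) ≤ q4 b (A (n + k + 1) - A n) := by
    calc q4 b (F - E0) = q4 b (J (F - E0)) := (hJ _ hFfin).symm
      _ = q4 b (P V) := by rw [hPV]
      _ ≤ q4 b V := hP _ hVfin
      _ = q4 b ((U ^ n) V) := (hUn n _ hVfin).symm
      _ = q4 b (A (n + k + 1) - A n) := by rw [hdiff]
  exact absurd hlt (not_lt.mpr hlow)

end Pool.Agent.H53
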