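import Pool.Agent.H53.SchattenFour

/-!
The concrete averaging map on two basis vectors, and its trace-norm and operator-norm bounds.
-/

set_option autoImplicit false
open scoped NNReal ENNReal InnerProductSpace
open ContinuousLinearMap Filter Topology

namespace Pool.Agent.H53
set_option linter.unusedSectionVars false
set_option linter.deprecated false

variable {H : Type*} [NormedAddCommGroup H] [InnerProductSpace ℂ H] [CompleteSpace H]
variable (b : HilbertBasis ℕ ℂ H)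

/-- Rank-one projection onto the `i`-th basis vector. -/
noncomputable def pr (i : ℕ) : H →L[ℂ] H := (innerSL ℂ (b i)).smulRight (b i)

lemma pr_apply (i : ℕ) (v : H) : pr b i v = ⟪b i, v⟫_ℂ • b i := by
  simp [pr]

lemma inner_basis (i j : ℕ) : ⟪b i, b j⟫_ℂ = if i = j then 1 else 0 := by
  exact orthonormal_iff_ite.mp b.orthonormal i j

lemma star_pr (i : ℕ) : star (pr b i) = pr b i := by
  ext v
  refine ext_inner_right ℂ fun w => ?_
  rw [inner_star_left, pr_apply, pr_apply, inner_smul_right, inner_smul_left, inner_conj_symm,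
    mul_comm]

lemma pr_mul_self (i : ℕ) : pr b i * pr b i = pr b i := by
  ext v
  rw [ContinuousLinearMap.mul_apply, pr_apply, pr_apply, inner_smul_right, inner_basis]
  simp

lemma pr_mul_ne {i j : ℕ} (h : i ≠ j) : pr b i * pr b j = 0 := by
  ext v
  rw [ContinuousLinearMap.mul_apply, pr_apply, pr_apply, inner_smul_right, inner_basis]
  simp [h]

/-- The rank two projection. -/
noncomputable def E2 : H →L[ℂ] H := pr b 0 + pr b 1

lemma star_E2 : star (E2 b) = E2 b := by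
  unfold E2; rw [star_add, star_pr, star_pr]

lemma E2_mul_self : E2 b * E2 b = E2 b := by
  unfold E2
  rw [add_mul, mul_add, mul_add, pr_mul_self, pr_mul_self, pr_mul_ne b (by norm_num),
    pr_mul_ne b (by norm_num)]
  simp

lemma norm_E2_le : ‖E2 b‖ ≤ 1 := by
  have h := CStarRing.norm_star_mul_self (x := E2 b)
  rw [star_E2, E2_mul_self] at h
  nlinarith [norm_nonneg (E2 b)]

lemma E2_basis (n : ℕ) : E2 b (b n) = if n = 0 ∨ n = 1 then b n else 0 := by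
  unfold E2
  rw [ContinuousLinearMap.add_apply, pr_apply, pr_apply, inner_basis, inner_basis]
  rcases n with _ | _ | n <;> simp

lemma tsum_two (f : ℕ → ℝ≥0∞) (hf : ∀ n, 2 ≤ n → f n = 0) : ∑' n, f n = f 0 + f 1 := by
  rw [tsum_eq_sum (s := {0, 1})]
  · simp
  · intro n hn
    apply hf
    simp only [Finset.mem_insert, Finset.mem_singleton, not_or] at hn
    omega

lemma hs_E2 : hs b (E2 b) = 2 := by
  unfold hs
  rw [tsum_two]
  · rw [E2_basis, E2_basis]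
    simp only [true_or, or_true, if_true, b.orthonormal.1]
    norm_num
  · intro n hn
    rw [E2_basis, if_neg (by omega)]
    simp

lemma q4_E2 : q4 b (E2 b) = 2 := by
  unfold q4
  rw [star_E2, E2_mul_self, hs_E2]

lemma hs_pr (i : ℕ) : hs b (pr b i) = 1 := by
  unfold hs
  rw [tsum_eq_single i]
  · rw [pr_apply, inner_basis]
    simp [b.orthonormal.1]
  · intro n hn
    rw [pr_apply, inner_basis, if_neg (fun h => hn h.symm)]
    simp

lemma q4_pr (i : ℕ) : q4 b (pr b i) = 1 := by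
  unfold q4
  rw [star_pr, pr_mul_self, hs_pr]

/-- The averaging coefficient. -/
noncomputable def coef (x : H →L[ℂ] H) : ℂ :=
  (2⁻¹ : ℂ) * (⟪b 0, x (b 0)⟫_ℂ + ⟪b 1, x (b 1)⟫_ℂ)

/-- The map `x ↦ ½ tr(E x E) E`. -/
noncomputable def avg : (H →L[ℂ] H) →ₗ[ℂ] (H →L[ℂ] H) where
  toFun x := coef b x • E2 b
  map_add' x y := by
    rw [← add_smul]
    congr 1
    simp only [coef, ContinuousLinearMap.add_apply, inner_add_right]
    ring
  map_smul' c x := by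
    rw [RingHom.id_apply, smul_smul]
    congr 1
    simp only [coef, ContinuousLinearMap.smul_apply, inner_smul_right]
    ring

lemma avg_apply (x : H →L[ℂ] H) : avg b x = coef b x • E2 b := rfl

lemma coef_E2 : coef b (E2 b) = 1 := by
  unfold coef
  rw [E2_basis, E2_basis]
  simp [b.orthonormal.1]
  norm_num

lemma coef_pr0 : coef b (pr b 0) = 2⁻¹ := by
  unfold coef
  rw [pr_apply, pr_apply, inner_basis, inner_basis]
  simp [b.orthonormal.1]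

lemma avg_E2 : avg b (E2 b) = E2 b := by
  rw [avg_apply, coef_E2, one_smul]

lemma avg_pow_pr0 (n : ℕ) : (avg b ^ (n + 1)) (pr b 0) = (2⁻¹ : ℂ) • E2 b := by
  induction n with
  | zero => rw [zero_add, pow_one, avg_apply, coef_pr0]
  | succ n ih => rw [pow_succ', Module.End.mul_apply, ih, map_smul, avg_E2]

lemma norm_inner_basis_le (x : H →L[ℂ] H) (i : ℕ) : ‖⟪b i, x (b i)⟫_ℂ‖ ≤ ‖x (b i)‖ := by
  calc ‖⟪b i, x (b i)⟫_ℂ‖ ≤ ‖b i‖ * ‖x (b i)‖ := norm_inner_le_norm _ _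
    _ = ‖x (b i)‖ := by rw [b.orthonormal.1 i, one_mul]

lemma norm_avg_le (x : H →L[ℂ] H) : ‖avg b x‖ ≤ ‖x‖ := by
  have h : ∀ i, ‖⟪b i, x (b i)⟫_ℂ‖ ≤ ‖x‖ := by
    intro i
    calc ‖⟪b i, x (b i)⟫_ℂ‖ ≤ ‖x (b i)‖ := norm_inner_basis_le b x i
      _ ≤ ‖x‖ * ‖b i‖ := x.le_opNorm _
      _ = ‖x‖ := by rw [b.orthonormal.1 i, mul_one]
  have hc : ‖coef b x‖ ≤ ‖x‖ := by
    unfold coef
    rw [norm_mul]
    have h1 := norm_add_le ⟪b 0, x (b 0)⟫_ℂ ⟪b 1, x (b 1)⟫_ℂ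
    have h2 : ‖(2⁻¹ : ℂ)‖ = 2⁻¹ := by simp
    rw [h2]
    linarith [h 0, h 1]
  rw [avg_apply, norm_smul]
  calc ‖coef b x‖ * ‖E2 b‖ ≤ ‖x‖ * 1 := by
        gcongr
        exact norm_E2_le b
    _ = ‖x‖ := mul_one _

lemma q4_avg_le (x : H →L[ℂ] H) : q4 b (avg b x) ≤ q4 b x := by
  rw [avg_apply, q4_smul, q4_E2]
  -- fourth power bound of diagonal entries
  have h1 : ∀ i, ‖⟪b i, x (b i)⟫_ℂ‖ ^ 4 ≤ ‖(star x * x) (b i)‖ ^ 2 := by
    intro i
    have h2 : ‖x (b i)‖ ^ 2 ≤ ‖(star x * x) (b i)‖ := by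
      rw [normsq_eq, ← inner_star_right]
      calc (⟪b i, (star x) (x (b i))⟫_ℂ).re ≤ ‖⟪b i, (star x) (x (b i))⟫_ℂ‖ :=
            Complex.re_le_norm _
        _ ≤ ‖b i‖ * ‖(star x) (x (b i))‖ := norm_inner_le_norm _ _
        _ = ‖(star x * x) (b i)‖ := by rw [b.orthonormal.1 i, one_mul]; rfl
    calc ‖⟪b i, x (b i)⟫_ℂ‖ ^ 4 ≤ ‖x (b i)‖ ^ 4 := by
          gcongr
          exact norm_inner_basis_le b x i
      _ = (‖x (b i)‖ ^ 2) ^ 2 := by ring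
      _ ≤ ‖(star x * x) (b i)‖ ^ 2 := by gcongr
  have h3 : ‖coef b x‖ ^ 4 * 2 ≤ ‖(star x * x) (b 0)‖ ^ 2 + ‖(star x * x) (b 1)‖ ^ 2 := by
    have h4 : ‖coef b x‖ ≤ 2⁻¹ * (‖⟪b 0, x (b 0)⟫_ℂ‖ + ‖⟪b 1, x (b 1)⟫_ℂ‖) := by
      unfold coef
      rw [norm_mul]
      have h2 : ‖(2⁻¹ : ℂ)‖ = 2⁻¹ := by simp
      rw [h2]
      gcongr
      exact norm_add_le _ _
    have h5 : ‖coef b x‖ ^ 4 ≤ (2⁻¹ * (‖⟪b 0, x (b 0)⟫_ℂ‖ + ‖⟪b 1, x (b 1)⟫_ℂ‖)) ^ 4 := by
      gcongr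
    have h6 : (2⁻¹ * (‖⟪b 0, x (b 0)⟫_ℂ‖ + ‖⟪b 1, x (b 1)⟫_ℂ‖)) ^ 4 * 2 ≤
        ‖⟪b 0, x (b 0)⟫_ℂ‖ ^ 4 + ‖⟪b 1, x (b 1)⟫_ℂ‖ ^ 4 := by
      set u := ‖⟪b 0, x (b 0)⟫_ℂ‖
      set v := ‖⟪b 1, x (b 1)⟫_ℂ‖
      have hu : 0 ≤ u := norm_nonneg _
      have hv : 0 ≤ v := norm_nonneg _
      have h7 : (u + v) ^ 2 ≤ 2 * (u ^ 2 + v ^ 2) := by nlinarith [sq_nonneg (u - v)]
      have h8 : (u ^ 2 + v ^ 2) ^ 2 ≤ 2 * (u ^ 4 + v ^ 4) := by nlinarith [sq_nonneg (u ^ 2 - v ^ 2)]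
      have h9 : (u + v) ^ 4 ≤ 4 * (u ^ 2 + v ^ 2) ^ 2 := by
        have : (u + v) ^ 4 = ((u + v) ^ 2) ^ 2 := by ring
        rw [this]
        nlinarith [sq_nonneg (u + v), sq_nonneg u, sq_nonneg v]
      nlinarith
    linarith [h1 0, h1 1]
  have e2 : (2 : ℝ≥0∞) = ENNReal.ofReal 2 := by simp
  rw [e2, ← ENNReal.ofReal_mul (by positivity)]
  calc ENNReal.ofReal (‖coef b x‖ ^ 4 * 2)
      ≤ ENNReal.ofReal (‖(star x * x) (b 0)‖ ^ 2 + ‖(star x * x) (b 1)‖ ^ 2) :=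
        ENNReal.ofReal_le_ofReal h3
    _ = ∑ i ∈ ({0, 1} : Finset ℕ), ENNReal.ofReal (‖(star x * x) (b i)‖ ^ 2) := by
        rw [ENNReal.ofReal_add (by positivity) (by positivity)]
        simp
    _ ≤ q4 b x := ENNReal.sum_le_tsum _

/-- The Schatten sums in the form used by the frozen statement. -/
noncomputable def Qs (r : ℝ) (x : H →L[ℂ] H) : ℝ≥0∞ :=
  ∑' n : ℕ, ENNReal.ofReal
    (inner ℂ (b n) ((cfc (fun t : ℝ => t ^ (r / 2)) (star x * x)) (b n))).re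

lemma Qs_four (x : H →L[ℂ] H) : Qs b 4 x = q4 b x := by
  unfold Qs q4 hs
  congr 1
  ext n
  congr 1
  have h1 : cfc (fun t : ℝ => t ^ ((4 : ℝ) / 2)) (star x * x) = (star x * x) ^ 2 := by
    rw [← cfc_pow_id (R := ℝ) (star x * x) 2 (IsSelfAdjoint.star_mul_self x)]
    apply cfc_congr
    intro t _
    have : (4 : ℝ) / 2 = ((2 : ℕ) : ℝ) := by norm_num
    simp only [this, Real.rpow_natCast]
  rw [h1, pow_two, ContinuousLinearMap.mul_apply, ← inner_star_left, star_mul, star_star,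
    normsq_eq]

section absval

variable (x : H →L[ℂ] H)

lemma spec_nonneg {t : ℝ} (ht : t ∈ spectrum ℝ (star x * x)) : 0 ≤ t :=
  spectrum_nonneg_of_nonneg (star_mul_self_nonneg x) ht

/-- absolute value -/
noncomputable def absv : H →L[ℂ] H := cfc (fun t : ℝ => t ^ ((1 : ℝ) / 2)) (star x * x)

lemma cont_half : Continuous (fun t : ℝ => t ^ ((1 : ℝ) / 2)) :=
  Real.continuous_rpow_const (by norm_num)

lemma absv_nonneg : 0 ≤ absv x := by
  unfold absv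
  apply cfc_nonneg
  intro t ht
  exact Real.rpow_nonneg (spec_nonneg x ht) _

lemma half_mul_half {t : ℝ} (ht : 0 ≤ t) : t ^ ((1 : ℝ) / 2) * t ^ ((1 : ℝ) / 2) = t := by
  rw [← Real.rpow_add_of_nonneg ht (by norm_num) (by norm_num)]
  norm_num

lemma absv_mul_self : absv x * absv x = star x * x := by
  unfold absv
  rw [← cfc_mul _ _ _ (cont_half.continuousOn) (cont_half.continuousOn)]
  conv_rhs => rw [← cfc_id' ℝ (star x * x)]
  apply cfc_congr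
  intro t ht
  exact half_mul_half (spec_nonneg x ht)

lemma absv_eq_sqrt : absv x = CFC.sqrt (star x * x) :=
  (CFC.sqrt_unique (absv_mul_self x) (absv_nonneg x)).symm

lemma star_absv : star (absv x) = absv x := (IsSelfAdjoint.of_nonneg (absv_nonneg x)).star_eq

lemma norm_absv_apply (v : H) : ‖x v‖ = ‖absv x v‖ := by
  have h : ‖x v‖ ^ 2 = ‖absv x v‖ ^ 2 := by
    rw [normsq_eq, normsq_eq, ← inner_star_right x, ← inner_star_right (absv x), star_absv]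
    have := congrArg (fun z : H →L[ℂ] H => z v) (absv_mul_self x)
    simp only [ContinuousLinearMap.mul_apply] at this
    rw [this]
  exact (sq_eq_sq₀ (norm_nonneg _) (norm_nonneg _)).mp h

lemma Qs_one_eq : Qs b 1 x = hs b (CFC.sqrt (absv x)) := by
  unfold Qs hs
  congr 1
  ext n
  congr 1
  have h1 : CFC.sqrt (absv x) * CFC.sqrt (absv x) = absv x :=
    CFC.sqrt_mul_sqrt_self _ (absv_nonneg x)
  have h2 : star (CFC.sqrt (absv x)) = CFC.sqrt (absv x) :=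
    (IsSelfAdjoint.of_nonneg (CFC.sqrt_nonneg _)).star_eq
  rw [normsq_eq, ← inner_star_right, h2]
  have h3 : (CFC.sqrt (absv x)) ((CFC.sqrt (absv x)) (b n)) = absv x (b n) := by
    have := congrArg (fun z : H →L[ℂ] H => z (b n)) h1
    simpa using this
  rw [h3]
  rfl

lemma Qs_one_smul_E2 (c : ℂ) : Qs b 1 (c • E2 b) = ENNReal.ofReal (2 * ‖c‖) := by
  have h1 : absv (c • E2 b) = (‖c‖ : ℂ) • E2 b := by
    rw [absv_eq_sqrt]
    apply CFC.sqrt_unique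
    · rw [star_smul, star_E2, smul_mul_assoc, mul_smul_comm, smul_mul_assoc, mul_smul_comm,
        E2_mul_self, smul_smul, smul_smul]
      congr 1
      rw [← pow_two, ← Complex.conj_mul']
      rfl
    · have : (‖c‖ : ℂ) • E2 b = star ((Real.sqrt ‖c‖ : ℂ) • E2 b) * ((Real.sqrt ‖c‖ : ℂ) • E2 b) := by
        rw [star_smul, star_E2, smul_mul_assoc, mul_smul_comm, E2_mul_self, smul_smul]
        congr 1
        simp
        norm_cast
        rw [Real.mul_self_sqrt (norm_nonneg _)]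
      rw [this]
      exact star_mul_self_nonneg _
  unfold Qs
  change ∑' n : ℕ, ENNReal.ofReal (⟪b n, absv (c • E2 b) (b n)⟫_ℂ).re = _
  rw [h1, tsum_two]
  · rw [ContinuousLinearMap.smul_apply, ContinuousLinearMap.smul_apply, E2_basis, E2_basis]
    simp only [true_or, or_true, if_true, inner_smul_right, inner_basis]
    simp only [mul_one, Complex.ofReal_re]
    rw [← ENNReal.ofReal_add (norm_nonneg _) (norm_nonneg _), two_mul]
  · intro n hn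
    rw [ContinuousLinearMap.smul_apply, E2_basis, if_neg (by omega)]
    simp

lemma trace_bound_eps {ε : ℝ} (hε : 0 < ε) :
    ENNReal.ofReal ‖⟪b 0, x (b 0)⟫_ℂ + ⟪b 1, x (b 1)⟫_ℂ‖ ≤ Qs b 1 x + ENNReal.ofReal (2 * ε) := by
  set a := star x * x with ha
  set r := absv x with hr
  set s := CFC.sqrt r with hs'
  have hss : s * s = r := CFC.sqrt_mul_sqrt_self _ (absv_nonneg x)
  have hsstar : star s = s := (IsSelfAdjoint.of_nonneg (CFC.sqrt_nonneg _)).star_eq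
  have hinv : Continuous (fun t : ℝ => (|t ^ ((1 : ℝ) / 2)| + ε)⁻¹) := by
    apply Continuous.inv₀
    · exact (cont_half.abs).add continuous_const
    · intro t; positivity
  set g : H →L[ℂ] H := cfc (fun t : ℝ => (|t ^ ((1 : ℝ) / 2)| + ε)⁻¹) a with hg
  have hrg : r * g = cfc (fun t : ℝ => t ^ ((1 : ℝ) / 2) * (|t ^ ((1 : ℝ) / 2)| + ε)⁻¹) a := by
    rw [hr, hg]
    unfold absv
    rw [← cfc_mul _ _ _ (cont_half.continuousOn) (hinv.continuousOn)]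
  have hrgr : r * g * r = cfc (fun t : ℝ => t ^ ((1 : ℝ) / 2) * (|t ^ ((1 : ℝ) / 2)| + ε)⁻¹ *
      t ^ ((1 : ℝ) / 2)) a := by
    rw [hrg, hr]
    unfold absv
    have hc1 : Continuous (fun t : ℝ => t ^ ((1 : ℝ) / 2) * (|t ^ ((1 : ℝ) / 2)| + ε)⁻¹) :=
      cont_half.mul hinv
    exact (cfc_mul _ _ _ (hc1.continuousOn) (cont_half.continuousOn)).symm
  have hrgn : ‖r * g‖ ≤ 1 := by
    rw [hrg]
    apply norm_cfc_le (by norm_num)
    intro t ht
    have h0 : 0 ≤ t ^ ((1 : ℝ) / 2) := Real.rpow_nonneg (spec_nonneg x ht) _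
    rw [Real.norm_eq_abs, abs_of_nonneg h0, abs_of_nonneg (by positivity)]
    rw [← div_eq_mul_inv, div_le_one (by positivity)]
    linarith
  have hdn : ‖r - r * g * r‖ ≤ ε := by
    rw [hrgr]
    have : r = cfc (fun t : ℝ => t ^ ((1 : ℝ) / 2)) a := rfl
    have hc2 : Continuous (fun t : ℝ => t ^ ((1 : ℝ) / 2) * (|t ^ ((1 : ℝ) / 2)| + ε)⁻¹ *
      t ^ ((1 : ℝ) / 2)) := (cont_half.mul hinv).mul cont_half
    rw [this, ← cfc_sub _ _ _ (cont_half.continuousOn) (hc2.continuousOn)]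
    apply norm_cfc_le hε.le
    intro t ht
    have h0 : 0 ≤ t ^ ((1 : ℝ) / 2) := Real.rpow_nonneg (spec_nonneg x ht) _
    rw [abs_of_nonneg h0]
    set y := t ^ ((1 : ℝ) / 2) with hy
    have h1 : y - y * (y + ε)⁻¹ * y = y * ε / (y + ε) := by
      field_simp
      ring
    rw [h1, Real.norm_eq_abs, abs_of_nonneg (by positivity), div_le_iff₀ (by positivity)]
    nlinarith
  set u := x * g with hu
  have hun : ∀ w, ‖u w‖ ≤ ‖w‖ := by
    intro w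
    calc ‖u w‖ = ‖x (g w)‖ := rfl
      _ = ‖r (g w)‖ := norm_absv_apply x (g w)
      _ = ‖(r * g) w‖ := rfl
      _ ≤ ‖r * g‖ * ‖w‖ := (r * g).le_opNorm w
      _ ≤ 1 * ‖w‖ := by gcongr
      _ = ‖w‖ := one_mul _
  have hdiff : ∀ w, ‖x w - u (r w)‖ ≤ ε * ‖w‖ := by
    intro w
    have e1 : x w - u (r w) = x (w - g (r w)) := by
      rw [map_sub]; rfl
    rw [e1, norm_absv_apply x]
    have e2 : absv x (w - g (r w)) = (r - r * g * r) w := by
      rw [map_sub]; rfl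
    rw [e2]
    calc ‖(r - r * g * r) w‖ ≤ ‖r - r * g * r‖ * ‖w‖ := ContinuousLinearMap.le_opNorm _ _
      _ ≤ ε * ‖w‖ := by gcongr
  have hterm : ∀ i, ‖⟪b i, x (b i)⟫_ℂ‖ ≤
      2⁻¹ * (‖(s * star u) (b i)‖ ^ 2 + ‖s (b i)‖ ^ 2) + ε := by
    intro i
    have e1 : ⟪b i, x (b i)⟫_ℂ = ⟪b i, u (r (b i))⟫_ℂ + ⟪b i, x (b i) - u (r (b i))⟫_ℂ := by
      rw [← inner_add_right]; congr 1; abel
    have e2 : ⟪b i, u (r (b i))⟫_ℂ = ⟪(s * star u) (b i), s (b i)⟫_ℂ := by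
      have h3 : r (b i) = s (s (b i)) := by
        have := congrArg (fun z : H →L[ℂ] H => z (b i)) hss
        simpa using this.symm
      rw [h3, ← inner_star_left u]
      conv_rhs => rw [ContinuousLinearMap.mul_apply]
      conv_lhs => rw [← inner_star_left s, hsstar]
    rw [e1, e2]
    have h4 : ‖⟪b i, x (b i) - u (r (b i))⟫_ℂ‖ ≤ ε := by
      calc ‖⟪b i, x (b i) - u (r (b i))⟫_ℂ‖ ≤ ‖b i‖ * ‖x (b i) - u (r (b i))‖ :=
            norm_inner_le_norm _ _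
        _ ≤ ‖b i‖ * (ε * ‖b i‖) := by gcongr; exact hdiff _
        _ = ε := by rw [b.orthonormal.1 i]; ring
    have h5 : ‖⟪(s * star u) (b i), s (b i)⟫_ℂ‖ ≤ ‖(s * star u) (b i)‖ * ‖s (b i)‖ :=
      norm_inner_le_norm _ _
    calc ‖⟪(s * star u) (b i), s (b i)⟫_ℂ + ⟪b i, x (b i) - u (r (b i))⟫_ℂ‖
        ≤ ‖⟪(s * star u) (b i), s (b i)⟫_ℂ‖ + ‖⟪b i, x (b i) - u (r (b i))⟫_ℂ‖ := norm_add_le _ _
      _ ≤ ‖(s * star u) (b i)‖ * ‖s (b i)‖ + ε := add_le_add h5 h4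
      _ ≤ 2⁻¹ * (‖(s * star u) (b i)‖ ^ 2 + ‖s (b i)‖ ^ 2) + ε := by
          nlinarith [sq_nonneg (‖(s * star u) (b i)‖ - ‖s (b i)‖)]
  have hhs : ∀ z : H →L[ℂ] H, ENNReal.ofReal (‖z (b 0)‖ ^ 2 + ‖z (b 1)‖ ^ 2) ≤ hs b z := by
    intro z
    calc ENNReal.ofReal (‖z (b 0)‖ ^ 2 + ‖z (b 1)‖ ^ 2)
        = ∑ i ∈ ({0, 1} : Finset ℕ), ENNReal.ofReal (‖z (b i)‖ ^ 2) := by
          rw [ENNReal.ofReal_add (by positivity) (by positivity)]
          simp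
      _ ≤ hs b z := ENNReal.sum_le_tsum _
  have hus : hs b (s * star u) ≤ hs b s := by
    have : hs b (s * star u) = hs b (u * s) := by
      rw [← hs_star b (s * star u), star_mul, star_star, hsstar]
    rw [this]
    unfold hs
    apply ENNReal.tsum_le_tsum
    intro n
    apply ENNReal.ofReal_le_ofReal
    have := hun (s (b n))
    have h6 : ‖(u * s) (b n)‖ ≤ ‖s (b n)‖ := this
    gcongr
  rw [Qs_one_eq]
  have hreal : ‖⟪b 0, x (b 0)⟫_ℂ + ⟪b 1, x (b 1)⟫_ℂ‖ ≤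
      2⁻¹ * (‖(s * star u) (b 0)‖ ^ 2 + ‖(s * star u) (b 1)‖ ^ 2) +
      2⁻¹ * (‖s (b 0)‖ ^ 2 + ‖s (b 1)‖ ^ 2) + 2 * ε := by
    have := norm_add_le ⟪b 0, x (b 0)⟫_ℂ ⟪b 1, x (b 1)⟫_ℂ
    linarith [hterm 0, hterm 1]
  calc ENNReal.ofReal ‖⟪b 0, x (b 0)⟫_ℂ + ⟪b 1, x (b 1)⟫_ℂ‖
      ≤ ENNReal.ofReal (2⁻¹ * (‖(s * star u) (b 0)‖ ^ 2 + ‖(s * star u) (b 1)‖ ^ 2) +
      2⁻¹ * (‖s (b 0)‖ ^ 2 + ‖s (b 1)‖ ^ 2) + 2 * ε) := ENNReal.ofReal_le_ofReal hreal
    _ = 2⁻¹ * ENNReal.ofReal (‖(s * star u) (b 0)‖ ^ 2 + ‖(s * star u) (b 1)‖ ^ 2) +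
      2⁻¹ * ENNReal.ofReal (‖s (b 0)‖ ^ 2 + ‖s (b 1)‖ ^ 2) + ENNReal.ofReal (2 * ε) := by
        rw [ENNReal.ofReal_add (by positivity) (by positivity),
          ENNReal.ofReal_add (by positivity) (by positivity),
          ENNReal.ofReal_mul (by norm_num), ENNReal.ofReal_mul (by norm_num)]
        have : ENNReal.ofReal 2⁻¹ = 2⁻¹ := by
          rw [ENNReal.ofReal_inv_of_pos (by norm_num)]; simp
        rw [this]
    _ ≤ 2⁻¹ * hs b (s * star u) + 2⁻¹ * hs b s + ENNReal.ofReal (2 * ε) := by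
        gcongr
        · exact hhs _
        · exact hhs _
    _ ≤ 2⁻¹ * hs b s + 2⁻¹ * hs b s + ENNReal.ofReal (2 * ε) := by gcongr
    _ = hs b s + ENNReal.ofReal (2 * ε) := by
        rw [← two_mul, ← mul_assoc, ENNReal.mul_inv_cancel (by norm_num) (by norm_num), one_mul]

lemma trace_bound :
    ENNReal.ofReal ‖⟪b 0, x (b 0)⟫_ℂ + ⟪b 1, x (b 1)⟫_ℂ‖ ≤ Qs b 1 x := by
  apply ENNReal.le_of_forall_pos_le_add
  intro ε hε _
  have h := trace_bound_eps b x (ε := (ε : ℝ) / 2) (by positivity)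
  have e : ENNReal.ofReal (2 * ((ε : ℝ) / 2)) = (ε : ℝ≥0∞) := by
    rw [show 2 * ((ε : ℝ) / 2) = (ε : ℝ) by ring]
    exact ENNReal.ofReal_coe_nnreal
  rwa [e] at h

lemma Qs_one_avg_le : Qs b 1 (avg b x) ≤ Qs b 1 x := by
  rw [avg_apply, Qs_one_smul_E2]
  refine le_trans (ENNReal.ofReal_le_ofReal ?_) (trace_bound b x)
  unfold coef
  rw [norm_mul]
  have h2 : ‖(2⁻¹ : ℂ)‖ = 2⁻¹ := by simp
  rw [h2]
  linarith

end absval

end Pool.Agent.H53
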