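import Mathlib

/-!
Real algebra for the quartic `z^4+3z^3-5z^2+7z+126`.
-/

set_option autoImplicit false

namespace Pool.Agent.H53.Shadow

/-- P -/
def p0 (x : ℝ) : ℝ := x ^ 4 + 3 * x ^ 3 - 5 * x ^ 2 + 7 * x + 126
/-- P' -/
def p1 (x : ℝ) : ℝ := 4 * x ^ 3 + 9 * x ^ 2 - 10 * x + 7
/-- P''/2 -/
def p2 (x : ℝ) : ℝ := 6 * x ^ 2 + 9 * x - 5
/-- P'''/6 -/
def p3 (x : ℝ) : ℝ := 4 * x + 3

lemma p0_pos (x : ℝ) : 0 < p0 x := by
  unfold p0
  have e : x ^ 4 + 3 * x ^ 3 - 5 * x ^ 2 + 7 * x + 126 =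
    ((x + 7 / 2) ^ 2 + 7 / 4) * ((x - 2) ^ 2 + 5) := by ring
  rw [e]; positivity

lemma p1_pos (x : ℝ) (hx : 0 ≤ x) : 0 < p1 x := by
  unfold p1
  have h1 : 0 ≤ 4 * x ^ 3 := by positivity
  have h2 : 0 < 9 * (x - 5 / 9) ^ 2 + 1 := by positivity
  nlinarith

/-- `S = P P' - x W`, where `W = P'^2 - P P''` -/
def SS (x : ℝ) : ℝ :=
  3 * x ^ 6 - 20 * x ^ 5 + 48 * x ^ 4 + 2100 * x ^ 3 + 3367 * x ^ 2 - 2520 * x + 882

/-- `3 P'^2 - 4 P P''` -/
def RR (x : ℝ) : ℝ := 67 * x ^ 4 - 228 * x ^ 3 - 6074 * x ^ 2 - 9212 * x + 5187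

lemma SS_eq (x : ℝ) : SS x = p0 x * p1 x - x * (p1 x ^ 2 - p0 x * (2 * p2 x)) := by
  unfold SS p0 p1 p2; ring

lemma RR_eq (x : ℝ) : RR x = 3 * p1 x ^ 2 - 4 * p0 x * (2 * p2 x) := by
  unfold RR p0 p1 p2; ring

lemma SS_pos_right (x : ℝ) (hx : 0 ≤ x) : 0 < SS x := by
  unfold SS
  have h1 : 0 ≤ 3 * x ^ 4 * ((x - 10 / 3) ^ 2 + 44 / 9) := by positivity
  have h2 : 0 ≤ 2100 * x ^ 3 := by positivity
  have h3 : 0 < 3367 * (x - 1260 / 3367) ^ 2 + 1 := by positivity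
  nlinarith

lemma SS_pos_mid (x : ℝ) (hx : x ≤ 0) (hx2 : -9 / 4 ≤ x) : 0 < SS x := by
  have hs : 0 ≤ -x := by linarith
  have ht : 0 ≤ x + 9 / 4 := by linarith
  have e : (9 / 4 : ℝ) ^ 6 * SS x = 10034595 / 4096 * (-x) ^ 6 +
      8621181 / 256 * ((x + 9 / 4) * (-x) ^ 5) + 813375 / 8 * ((x + 9 / 4) ^ 2 * (-x) ^ 4) +
      1897623 / 16 * ((x + 9 / 4) ^ 3 * (-x) ^ 3) + 938007 / 16 * ((x + 9 / 4) ^ 4 * (-x) ^ 2) +
      10962 * ((x + 9 / 4) ^ 5 * (-x)) + 882 * (x + 9 / 4) ^ 6 := by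
    unfold SS; ring
  have h1 : 0 < 882 * (x + 9 / 4) ^ 6 + 10034595 / 4096 * (-x) ^ 6 := by
    rcases eq_or_lt_of_le ht with h | h
    · have : 0 < -x := by linarith
      positivity
    · positivity
  have h2 : 0 < (9 / 4 : ℝ) ^ 6 * SS x := by
    rw [e]
    have a1 : 0 ≤ 8621181 / 256 * ((x + 9 / 4) * (-x) ^ 5) := by positivity
    have a2 : 0 ≤ 813375 / 8 * ((x + 9 / 4) ^ 2 * (-x) ^ 4) := by positivity
    have a3 : 0 ≤ 1897623 / 16 * ((x + 9 / 4) ^ 3 * (-x) ^ 3) := by positivity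
    have a4 : 0 ≤ 938007 / 16 * ((x + 9 / 4) ^ 4 * (-x) ^ 2) := by positivity
    have a5 : 0 ≤ 10962 * ((x + 9 / 4) ^ 5 * (-x)) := by positivity
    linarith
  exact (mul_pos_iff_of_pos_left (by positivity)).mp h2

lemma SS_pos_left (x : ℝ) (hx : x ≤ -6) : 0 < SS x := by
  have ht : 0 ≤ -6 - x := by linarith
  have e : SS x = 41310 + 127164 * (-6 - x) + 77455 * (-6 - x) ^ 2 + 19212 * (-6 - x) ^ 3 +
      2268 * (-6 - x) ^ 4 + 128 * (-6 - x) ^ 5 + 3 * (-6 - x) ^ 6 := by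
    unfold SS; ring
  rw [e]; positivity

lemma RR_neg (x : ℝ) (hx : -6 ≤ x) (hx2 : x ≤ -9 / 4) : RR x < 0 := by
  have hs : 0 ≤ x + 6 := by linarith
  have ht : 0 ≤ -9 / 4 - x := by linarith
  have e : (15 / 4 : ℝ) ^ 4 * (-RR x) = 22125 * (-9 / 4 - x) ^ 4 +
      159135 * ((x + 6) * (-9 / 4 - x) ^ 3) + 1350765 / 8 * ((x + 6) ^ 2 * (-9 / 4 - x) ^ 2) +
      729705 / 16 * ((x + 6) ^ 3 * (-9 / 4 - x)) + 133485 / 256 * (x + 6) ^ 4 := by
    unfold RR; ring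
  have h1 : 0 < 22125 * (-9 / 4 - x) ^ 4 + 133485 / 256 * (x + 6) ^ 4 := by
    rcases eq_or_lt_of_le hs with h | h
    · have : 0 < -9 / 4 - x := by linarith
      positivity
    · positivity
  have h2 : 0 < (15 / 4 : ℝ) ^ 4 * (-RR x) := by
    rw [e]
    have a1 : 0 ≤ 159135 * ((x + 6) * (-9 / 4 - x) ^ 3) := by positivity
    have a2 : 0 ≤ 1350765 / 8 * ((x + 6) ^ 2 * (-9 / 4 - x) ^ 2) := by positivity
    have a3 : 0 ≤ 729705 / 16 * ((x + 6) ^ 3 * (-9 / 4 - x)) := by positivity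
    linarith
  have := (mul_pos_iff_of_pos_left (by positivity)).mp h2
  linarith

/-- no real double root -/
lemma no_real_double (u α x : ℝ) (hu : 0 ≤ u) (h0 : 0 ≤ α) (h4 : α ≤ 4)
    (e1 : (x - u) * p1 x - α * p0 x = 0)
    (e2 : p1 x + (x - u) * (2 * p2 x) - α * p1 x = 0) : False := by
  have hp := p0_pos x
  by_cases hz : p1 x = 0
  · rw [hz] at e1 e2
    have hα : α = 0 := by
      have : α * p0 x = 0 := by linarith
      rcases mul_eq_zero.mp this with h | h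
      · exact h
      · exact absurd h hp.ne'
    have h3 : (x - u) * (2 * p2 x) = 0 := by linarith
    rcases mul_eq_zero.mp h3 with h | h
    · have : x = u := by linarith
      subst this
      exact absurd hz (p1_pos _ hu).ne'
    · -- p1 x = 0 and p2 x = 0 impossible
      unfold p2 at h
      unfold p1 at hz
      have h5 : 6 * x ^ 2 = 5 - 9 * x := by linarith
      have h6 : 12 * (4 * x ^ 3 + 9 * x ^ 2 - 10 * x + 7) = 129 - 161 * x := by
        have : x ^ 3 = x * x ^ 2 := by ring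
        nlinarith
      have h7 : x = 129 / 161 := by linarith
      rw [h7] at h5
      norm_num at h5
  · have key : p1 x ^ 2 = α * (p1 x ^ 2 - p0 x * (2 * p2 x)) := by
      linear_combination (-(2 * p2 x)) * e1 + p1 x * e2
    have hsq : 0 < p1 x ^ 2 := by positivity
    have hα : 0 < α := by
      rcases eq_or_lt_of_le h0 with h | h
      · rw [← h] at key; linarith
      · exact h
    have hW : 0 < p1 x ^ 2 - p0 x * (2 * p2 x) := by
      rw [key] at hsq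
      exact (mul_pos_iff_of_pos_left hα).mp hsq
    have hR : 0 ≤ RR x := by
      rw [RR_eq]
      have : 0 ≤ (4 - α) * (p1 x ^ 2 - p0 x * (2 * p2 x)) := by
        apply mul_nonneg (by linarith) hW.le
      nlinarith
    have hS : SS x = -u * (p1 x ^ 2 - p0 x * (2 * p2 x)) := by
      rw [SS_eq]
      have h3 : α * (p0 x * p1 x - (x - u) * (p1 x ^ 2 - p0 x * (2 * p2 x))) = 0 := by
        linear_combination (-(p1 x)) * e1 + (x - u) * key
      rcases mul_eq_zero.mp h3 with h | h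
      · exact absurd h hα.ne'
      · linarith
    have hS' : SS x ≤ 0 := by
      rw [hS]
      have := mul_nonneg hu hW.le
      linarith
    rcases le_or_gt x (-6) with h | h
    · linarith [SS_pos_left x h]
    rcases le_or_gt x (-9 / 4) with h' | h'
    · linarith [RR_neg x h.le h']
    rcases le_or_gt x 0 with h'' | h''
    · linarith [SS_pos_mid x h'' h'.le]
    · linarith [SS_pos_right x h''.le]

/-- no non-real double root; `s = a - u` -/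
lemma no_complex_double (u α a b : ℝ) (hb : b ≠ 0) (h0 : 0 ≤ α) (h4 : α ≤ 4)
    (g0 g1 g2 g3 g4 : ℝ)
    (d0 : g0 = (a - u) * p1 a - α * p0 a)
    (d1 : g1 = p1 a + 2 * (a - u) * p2 a - α * p1 a)
    (d2 : g2 = 2 * p2 a + 3 * (a - u) * p3 a - α * p2 a)
    (d3 : g3 = 3 * p3 a + 4 * (a - u) - α * p3 a)
    (d4 : g4 = 4 - α)
    (e1 : g0 - g2 * b ^ 2 + g4 * b ^ 4 = 0)
    (e2 : b * (g1 - g3 * b ^ 2) = 0)
    (e3 : g1 - 3 * g3 * b ^ 2 = 0)
    (e4 : b * (2 * g2 - 4 * g4 * b ^ 2) = 0) : False := by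
  have hb2 : 0 < b ^ 2 := by positivity
  have f2 : g1 - g3 * b ^ 2 = 0 := (mul_eq_zero.mp e2).resolve_left hb
  have f4 : 2 * g2 - 4 * g4 * b ^ 2 = 0 := (mul_eq_zero.mp e4).resolve_left hb
  have f3 : g3 = 0 := by
    have : g3 * b ^ 2 = 0 := by linarith
    exact (mul_eq_zero.mp this).resolve_right hb2.ne'
  have f1 : g1 = 0 := by rw [f3] at f2; linarith
  have f5 : g2 = 2 * g4 * b ^ 2 := by linarith
  have f6 : g0 = g4 * b ^ 4 := by rw [f5] at e1; linarith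
  have key : g4 * ((u - a) ^ 2 + b ^ 2) ^ 2 = -α * p0 u := by
    have : g0 + g1 * (u - a) + g2 * (u - a) ^ 2 + g3 * (u - a) ^ 3 + g4 * (u - a) ^ 4 =
        -α * p0 u := by
      rw [d0, d1, d2, d3, d4]
      unfold p0 p1 p2 p3
      ring
    rw [← this, f1, f3, f5, f6]
    ring
  have hp := p0_pos u
  have hq : 0 < ((u - a) ^ 2 + b ^ 2) ^ 2 := by positivity
  have hg4 : 0 ≤ g4 := by rw [d4]; linarith
  have k1 : 0 ≤ g4 * ((u - a) ^ 2 + b ^ 2) ^ 2 := by positivity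
  have k2 : 0 ≤ α * p0 u := by positivity
  have k3 : g4 * ((u - a) ^ 2 + b ^ 2) ^ 2 = 0 := by linarith
  have k4 : α * p0 u = 0 := by linarith
  have k5 : g4 = 0 := (mul_eq_zero.mp k3).resolve_right hq.ne'
  have k6 : α = 0 := (mul_eq_zero.mp k4).resolve_right hp.ne'
  rw [k6] at d4
  linarith

end Pool.Agent.H53.Shadow
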