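import Mathlib

/-!
Facts on the zeros of the quartic `PP = X^4+3X^3-5X^2+7X+126` and of the derivatives of its powers.
-/

set_option autoImplicit false

open Polynomial

namespace Pool.Agent.H53.Shadow

/-- the quartic over the reals -/
noncomputable def pR : ℝ[X] := X ^ 4 + 3 * X ^ 3 - 5 * X ^ 2 + 7 * X + 126

/-- the quartic -/
noncomputable def PP : ℂ[X] := X ^ 4 + 3 * X ^ 3 - 5 * X ^ 2 + 7 * X + 126

lemma PP_eval (z : ℂ) : PP.eval z = z ^ 4 + 3 * z ^ 3 - 5 * z ^ 2 + 7 * z + 126 := by
  simp [PP]

lemma PP_deriv_eval (z : ℂ) : (derivative PP).eval z = 4 * z ^ 3 + 9 * z ^ 2 - 10 * z + 7 := by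
  simp [PP]; ring

lemma pR_eval (z : ℝ) : pR.eval z = z ^ 4 + 3 * z ^ 3 - 5 * z ^ 2 + 7 * z + 126 := by
  simp [pR]

lemma PP_eq_map : PP = pR.map Complex.ofRealHom := by
  simp [PP, pR]

lemma PP_natDegree : PP.natDegree = 4 := by
  unfold PP; compute_degree!

lemma PP_monic : PP.Monic := by
  unfold PP; monicity!

/-- the four roots -/
noncomputable def z1 : ℂ := ⟨2, √5⟩
/-- the four roots -/
noncomputable def z2 : ℂ := ⟨2, -√5⟩
/-- the four roots -/
noncomputable def z3 : ℂ := ⟨-7 / 2, √7 / 2⟩
/-- the four roots -/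
noncomputable def z4 : ℂ := ⟨-7 / 2, -(√7 / 2)⟩

lemma z12 (z : ℂ) : (z - z1) * (z - z2) = z ^ 2 - 4 * z + 9 := by
  have h : (√5 : ℝ) ^ 2 = 5 := Real.sq_sqrt (by norm_num)
  have e1 : z1 = 2 + √5 * Complex.I := by
    apply Complex.ext <;> simp [z1]
  have e2 : z2 = 2 - √5 * Complex.I := by
    apply Complex.ext <;> simp [z2]
  have h' : ((√5 : ℝ) : ℂ) ^ 2 = 5 := by exact_mod_cast h
  rw [e1, e2]
  have hI : Complex.I ^ 2 = -1 := Complex.I_sq
  linear_combination (-((√5 : ℝ) : ℂ) ^ 2) * hI + h'

lemma z34 (z : ℂ) : (z - z3) * (z - z4) = z ^ 2 + 7 * z + 14 := by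
  have h : (√7 : ℝ) ^ 2 = 7 := Real.sq_sqrt (by norm_num)
  have e1 : z3 = -7 / 2 + √7 / 2 * Complex.I := by
    apply Complex.ext <;> simp [z3]
  have e2 : z4 = -7 / 2 - √7 / 2 * Complex.I := by
    apply Complex.ext <;> simp [z4]
  have h' : ((√7 : ℝ) : ℂ) ^ 2 = 7 := by exact_mod_cast h
  rw [e1, e2]
  have hI : Complex.I ^ 2 = -1 := Complex.I_sq
  linear_combination (-((√7 : ℝ) : ℂ) ^ 2 / 4) * hI + h' / 4

lemma PP_factor (z : ℂ) : PP.eval z = (z - z1) * (z - z2) * ((z - z3) * (z - z4)) := by
  rw [PP_eval, z12, z34]; ring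

lemma PP_zero_iff (z : ℂ) : PP.eval z = 0 ↔ z = z1 ∨ z = z2 ∨ z = z3 ∨ z = z4 := by
  rw [PP_factor]
  simp only [mul_eq_zero, sub_eq_zero]
  tauto

lemma s5 : (2 : ℝ) < √5 := by
  rw [Real.lt_sqrt (by norm_num)]; norm_num
lemma s7 : √7 < (3 : ℝ) := by
  rw [Real.sqrt_lt' (by norm_num)]; norm_num
lemma s7' : 0 < √7 := by positivity
lemma s5' : √5 < (3 : ℝ) := by
  rw [Real.sqrt_lt' (by norm_num)]; norm_num

lemma ne12 : z1 ≠ z2 := by
  intro h
  have := congrArg Complex.im h
  simp only [z1, z2] at this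
  linarith [s5]
lemma ne13 : z1 ≠ z3 := by
  intro h
  have := congrArg Complex.re h
  norm_num [z1, z3] at this
lemma ne14 : z1 ≠ z4 := by
  intro h
  have := congrArg Complex.re h
  norm_num [z1, z4] at this
lemma ne23 : z2 ≠ z3 := by
  intro h
  have := congrArg Complex.re h
  norm_num [z2, z3] at this
lemma ne24 : z2 ≠ z4 := by
  intro h
  have := congrArg Complex.re h
  norm_num [z2, z4] at this
lemma ne34 : z3 ≠ z4 := by
  intro h
  have := congrArg Complex.im h
  simp only [z3, z4] at this
  linarith [s7']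

lemma zeros_eq : {z : ℂ | PP.eval z = 0} = (({z1, z2, z3, z4} : Finset ℂ) : Set ℂ) := by
  ext z
  simp [PP_zero_iff]

lemma zeros_card : ({z1, z2, z3, z4} : Finset ℂ).card = 4 := by
  have h1 := ne12
  have h2 := ne13
  have h3 := ne14
  have h4 := ne23
  have h5 := ne24
  have h6 := ne34
  rw [Finset.card_insert_of_notMem (by simp [h1, h2, h3]),
    Finset.card_insert_of_notMem (by simp [h4, h5]),
    Finset.card_insert_of_notMem (by simp [h6]), Finset.card_singleton]

lemma zeros_ncard : {z : ℂ | PP.eval z = 0}.ncard = 4 := by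
  rw [zeros_eq, Set.ncard_coe_finset, zeros_card]

/-! ### convex position -/

lemma extreme_of_functional (S : Set ℂ) (z0 : ℂ) (hz0 : z0 ∈ S) (a b : ℝ)
    (h : ∀ z ∈ S, z ≠ z0 → a * z.re + b * z.im < a * z0.re + b * z0.im) :
    z0 ∈ (convexHull ℝ S).extremePoints ℝ := by
  have key : convexHull ℝ S ⊆ {z | z = z0 ∨ a * z.re + b * z.im < a * z0.re + b * z0.im} := by
    apply convexHull_min
    · intro z hz
      by_cases hzz : z = z0
      · exact Or.inl hzz
      · exact Or.inr (h z hz hzz)
    · intro x hx y hy s t hs ht hst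
      have hre : (s • x + t • y).re = s * x.re + t * y.re := by simp
      have him : (s • x + t • y).im = s * x.im + t * y.im := by simp
      have hsl : s = 1 - t := by linarith
      rcases hx with rfl | hx
      · rcases hy with rfl | hy
        · left
          rw [← add_smul, hst, one_smul]
        · rcases eq_or_lt_of_le ht with h0 | h0
          · left
            rw [hsl, ← h0]; simp
          · right
            rw [hre, him, hsl]
            nlinarith
      · rcases hy with rfl | hy
        · rcases eq_or_lt_of_le hs with h0 | h0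
          · left
            have : t = 1 := by linarith
            rw [this, ← h0]; simp
          · right
            have : t = 1 - s := by linarith
            rw [hre, him, this]
            nlinarith
        · right
          rw [hre, him, hsl]
          rcases eq_or_lt_of_le ht with h0 | h0
          · rw [← h0]; linarith
          · have h1 : t ≤ 1 := by linarith
            nlinarith
  rw [mem_extremePoints_iff_left]
  refine ⟨subset_convexHull ℝ S hz0, ?_⟩
  intro x1 hx1 x2 hx2 hx
  obtain ⟨s, t, hs, ht, hst, hxx⟩ := hx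
  rcases key hx1 with h1 | h1
  · exact h1
  · exfalso
    have hre : s * x1.re + t * x2.re = z0.re := by rw [← hxx]; simp
    have him : s * x1.im + t * x2.im = z0.im := by rw [← hxx]; simp
    have h2 : a * x2.re + b * x2.im ≤ a * z0.re + b * z0.im := by
      rcases key hx2 with h2 | h2
      · rw [h2]
      · exact h2.le
    have h3 : a * z0.re + b * z0.im =
        s * (a * x1.re + b * x1.im) + t * (a * x2.re + b * x2.im) := by
      rw [← hre, ← him]; ring
    have h4 : s * (a * x1.re + b * x1.im) < s * (a * z0.re + b * z0.im) :=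
      mul_lt_mul_of_pos_left h1 hs
    have h5 : t * (a * x2.re + b * x2.im) ≤ t * (a * z0.re + b * z0.im) :=
      mul_le_mul_of_nonneg_left h2 ht.le
    have h6 : s * (a * z0.re + b * z0.im) + t * (a * z0.re + b * z0.im) =
      a * z0.re + b * z0.im := by rw [← add_mul, hst, one_mul]
    linarith

lemma zeros_extreme : ∀ z ∈ {z : ℂ | PP.eval z = 0},
    z ∈ (convexHull ℝ {z : ℂ | PP.eval z = 0}).extremePoints ℝ := by
  intro z hz
  have a5 := s5
  have a7 := s7
  have a7' := s7'
  have a5' := s5'
  have hz' := hz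
  simp only [Set.mem_ofPred_eq] at hz
  rw [PP_zero_iff] at hz
  rcases hz with h | h | h | h
  · subst h
    apply extreme_of_functional _ _ hz' 0 1
    intro w hw hne
    simp only [Set.mem_ofPred_eq] at hw
    rw [PP_zero_iff] at hw
    rcases hw with h | h | h | h
    · exact absurd h hne
    all_goals subst h; simp only [z1, z2, z3, z4]; linarith
  · subst h
    apply extreme_of_functional _ _ hz' 0 (-1)
    intro w hw hne
    simp only [Set.mem_ofPred_eq] at hw
    rw [PP_zero_iff] at hw
    rcases hw with h | h | h | h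
    · subst h; simp only [z1, z2]; linarith
    · exact absurd h hne
    all_goals subst h; simp only [z2, z3, z4]; linarith
  · subst h
    apply extreme_of_functional _ _ hz' (-1) 1
    intro w hw hne
    simp only [Set.mem_ofPred_eq] at hw
    rw [PP_zero_iff] at hw
    rcases hw with h | h | h | h
    · subst h; simp only [z1, z3]; linarith
    · subst h; simp only [z2, z3]; linarith
    · exact absurd h hne
    · subst h; simp only [z3, z4]; linarith
  · subst h
    apply extreme_of_functional _ _ hz' (-1) (-1)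
    intro w hw hne
    simp only [Set.mem_ofPred_eq] at hw
    rw [PP_zero_iff] at hw
    rcases hw with h | h | h | h
    · subst h; simp only [z1, z4]; linarith
    · subst h; simp only [z2, z4]; linarith
    · subst h; simp only [z3, z4]; linarith
    · exact absurd h hne

/-! ### not a square -/

lemma not_square (c ρ : ℂ) (h : ∀ z : ℂ, PP.eval z = 0 → (z - c) ^ 4 = ρ ^ 4) : False := by
  have key : ((X - C c) ^ 4 - C (ρ ^ 4) : ℂ[X]) = PP := by
    apply Polynomial.eq_of_degree_sub_lt_of_eval_finset_eq ({z1, z2, z3, z4} : Finset ℂ)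
    · rw [zeros_card]
      have e : ((X - C c) ^ 4 - C (ρ ^ 4) : ℂ[X]) - PP =
          C (-4 * c - 3) * X ^ 3 + C (6 * c ^ 2 + 5) * X ^ 2 + C (-4 * c ^ 3 - 7) * X +
            C (c ^ 4 - ρ ^ 4 - 126) := by
        unfold PP
        simp only [map_sub, map_add, map_mul, map_pow, map_neg, map_ofNat]
        ring
      rw [e]
      have : (C (-4 * c - 3) * X ^ 3 + C (6 * c ^ 2 + 5) * X ^ 2 + C (-4 * c ^ 3 - 7) * X +
            C (c ^ 4 - ρ ^ 4 - 126) : ℂ[X]).degree ≤ 3 := by
        compute_degree
      refine lt_of_le_of_lt this ?_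
      norm_num
    · intro z hz
      have hz' : PP.eval z = 0 := by
        rw [PP_zero_iff]; simpa using hz
      rw [hz']
      simp [h z hz']
  have h3 := congrArg (fun p => p.coeff 3) key
  have h2 := congrArg (fun p => p.coeff 2) key
  have e : ((X - C c) ^ 4 - C (ρ ^ 4) : ℂ[X]) =
      X ^ 4 + C (-4 * c) * X ^ 3 + C (6 * c ^ 2) * X ^ 2 + C (-4 * c ^ 3) * X +
            C (c ^ 4 - ρ ^ 4) := by
    simp only [map_sub, map_mul, map_pow, map_neg, map_ofNat]
    ring
  have eP : PP = X ^ 4 + C 3 * X ^ 3 + C (-5) * X ^ 2 + C 7 * X + C 126 := by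
    unfold PP
    simp only [map_neg, map_ofNat]
    ring
  rw [e, eP] at h3 h2
  simp only [coeff_add, coeff_C_mul, coeff_X_pow, coeff_X, coeff_C] at h3 h2
  norm_num at h3 h2
  have hc : c = -3 / 4 := by linear_combination (-1 / 4) * h3
  rw [hc] at h2
  norm_num at h2

end Pool.Agent.H53.Shadow
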