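import Mathlib
import Pool.Agent.H53.ShadowPoly
import Pool.Agent.H53.ShadowAlg

/-!
Zeros of the derivatives of the powers of the quartic `PP`.
-/

set_option autoImplicit false

open Polynomial

namespace Pool.Agent.H53.Shadow

lemma coeff_top (n m : ℕ) (hm : m ≤ n * 4) :
    (derivative^[m] (PP ^ n)).coeff (n * 4 - m) ≠ 0 := by
  rw [coeff_iterate_derivative]
  have e : n * 4 - m + m = n * 4 := by omega
  rw [e]
  have hmon : (PP ^ n).Monic := PP_monic.pow n
  have hdeg : (PP ^ n).natDegree = n * 4 := by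
    rw [PP_monic.natDegree_pow, PP_natDegree]
  have h1 : (PP ^ n).coeff (n * 4) = 1 := by
    have := hmon.coeff_natDegree
    rwa [hdeg] at this
  rw [h1]
  have h2 : (n * 4).descFactorial m ≠ 0 := by
    rw [Ne, Nat.descFactorial_eq_zero_iff_lt]; omega
  simpa using h2

lemma roots_re_le (n m : ℕ) (hn : 1 ≤ n) (hm : m ≤ n * 4) :
    ∀ z : ℂ, (derivative^[m] (PP ^ n)).eval z = 0 → z.re ≤ 2 := by
  induction m with
  | zero =>
    intro z hz
    simp only [Function.iterate_zero, id_eq, eval_pow] at hz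
    have hz' : PP.eval z = 0 := by
      exact pow_eq_zero_iff (by omega) |>.mp hz
    rw [PP_zero_iff] at hz'
    rcases hz' with h | h | h | h <;> subst h <;> norm_num [z1, z2, z3, z4]
  | succ m ih =>
    intro z hz
    have ih' := ih (by omega)
    have hdeg : 0 < (derivative^[m] (PP ^ n)).degree := by
      rw [← natDegree_pos_iff_degree_pos]
      have := le_natDegree_of_ne_zero (coeff_top n m (by omega))
      omega
    rw [Function.iterate_succ_apply'] at hz
    have hne : derivative (derivative^[m] (PP ^ n)) ≠ 0 := by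
      intro h
      have := coeff_top n (m + 1) hm
      rw [Function.iterate_succ_apply', h] at this
      simp at this
    have hmem : z ∈ (derivative (derivative^[m] (PP ^ n))).rootSet ℂ := by
      rw [mem_rootSet]
      exact ⟨hne, by simpa using hz⟩
    have h1 := rootSet_derivative_subset_convexHull_rootSet hdeg hmem
    have h2 : convexHull ℝ ((derivative^[m] (PP ^ n)).rootSet ℂ) ⊆ {z : ℂ | z.re ≤ 2} := by
      apply convexHull_min
      · intro w hw
        rw [mem_rootSet] at hw
        apply ih'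
        simpa using hw.2
      · exact convex_halfSpace_re_le 2
    exact h2 h1

/-! ### the real zero -/

/-- all coefficients nonnegative -/
def NN (q : ℝ[X]) : Prop := ∀ k, 0 ≤ q.coeff k

lemma NN.mul {p q : ℝ[X]} (hp : NN p) (hq : NN q) : NN (p * q) := by
  intro k
  rw [coeff_mul]
  exact Finset.sum_nonneg fun x _ => mul_nonneg (hp _) (hq _)

lemma NN.pow {p : ℝ[X]} (hp : NN p) (n : ℕ) : NN (p ^ n) := by
  induction n with
  | zero =>
    intro k
    rw [pow_zero, coeff_one]
    split_ifs <;> norm_num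
  | succ n ih => rw [pow_succ]; exact ih.mul hp

lemma taylor_pR : taylor (1 / 2 : ℝ) pR =
    X ^ 4 + C 5 * X ^ 3 + C 1 * X ^ 2 + C (19 / 4) * X + C (2059 / 16) := by
  apply Polynomial.funext
  intro x
  rw [taylor_eval, pR_eval]
  simp only [eval_add, eval_mul, eval_pow, eval_X, eval_C]
  ring

lemma NN_taylor : NN (taylor (1 / 2 : ℝ) pR) := by
  rw [taylor_pR]
  intro k
  simp only [coeff_add, coeff_C_mul, coeff_X_pow, coeff_X, coeff_C]
  have : ∀ (p : Prop) [Decidable p] (a : ℝ), 0 ≤ a → 0 ≤ (if p then a else 0) := by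
    intro p _ a ha
    split_ifs <;> linarith
  have h1 := this (k = 4) 1 (by norm_num)
  have h2 := this (k = 3) 1 (by norm_num)
  have h3 := this (k = 2) 1 (by norm_num)
  have h4 := this (1 = k) 1 (by norm_num)
  have h5 := this (k = 0) (2059 / 16) (by norm_num)
  linarith

lemma eval_half_nonneg (n m : ℕ) : 0 ≤ (derivative^[m] (pR ^ n)).eval (1 / 2) := by
  have h1 : (taylor (1 / 2 : ℝ) (pR ^ n)).coeff m = (hasseDeriv m (pR ^ n)).eval (1 / 2) :=
    taylor_coeff _ _ _
  have h2 : 0 ≤ (taylor (1 / 2 : ℝ) (pR ^ n)).coeff m := by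
    rw [taylor_pow]
    exact NN_taylor.pow n m
  have h3 : derivative^[m] (pR ^ n) = (m.factorial) • hasseDeriv m (pR ^ n) := by
    rw [← factorial_smul_hasseDeriv]
    rfl
  rw [h3, eval_smul, ← h1]
  positivity

lemma neg_coeff (n : ℕ) (hn : 1 ≤ n) : ∃ m, (pR ^ n).coeff m < 0 := by
  by_contra hcon
  push Not at hcon
  set h : ℂ := ⟨-7 / 12, 2⟩ with hh
  have hnorm : ‖h‖ = 25 / 12 := by
    rw [Complex.norm_def, Complex.normSq_apply]
    rw [show (h.re * h.re + h.im * h.im) = (25 / 12) ^ 2 by rw [hh]; norm_num]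
    exact Real.sqrt_sq (by norm_num)
  have h1 : ‖(PP ^ n).eval h‖ ≤ (pR ^ n).eval (25 / 12) := by
    rw [PP_eq_map, ← Polynomial.map_pow, eval_map, eval₂_eq_sum_range, eval_eq_sum_range]
    refine le_trans (norm_sum_le _ _) ?_
    apply Finset.sum_le_sum
    intro i _
    rw [norm_mul, norm_pow, hnorm]
    have : ‖Complex.ofRealHom ((pR ^ n).coeff i)‖ = (pR ^ n).coeff i := by
      simp [abs_of_nonneg (hcon i)]
    rw [this]
  have h2 : pR.eval (25 / 12) < ‖PP.eval h‖ := by
    have e1 : (PP.eval h).re = 3495445 / 20736 := by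
      rw [PP_eval]
      simp only [hh, pow_succ, pow_zero, one_mul, Complex.add_re, Complex.sub_re, Complex.mul_re,
        Complex.mul_im, Complex.re_ofNat, Complex.im_ofNat]
      norm_num
    have e2 : pR.eval (25 / 12) < 3495445 / 20736 := by
      rw [pR_eval]; norm_num
    calc pR.eval (25 / 12) < (PP.eval h).re := by rw [e1]; exact e2
      _ ≤ ‖PP.eval h‖ := Complex.re_le_norm _
  rw [eval_pow, eval_pow, norm_pow] at h1
  have h3 : 0 ≤ pR.eval (25 / 12) := by
    rw [pR_eval]; norm_num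
  have h4 : (pR.eval (25 / 12)) ^ n < ‖PP.eval h‖ ^ n := by
    apply pow_lt_pow_left₀ h2 h3 (by omega)
  linarith

lemma exists_real_zero (n : ℕ) (hn : 1 ≤ n) :
    ∃ m ≤ n * 4, ∃ x : ℝ, 0 ≤ x ∧ x ≤ 1 / 2 ∧ (derivative^[m] (PP ^ n)).eval (x : ℂ) = 0 := by
  obtain ⟨m, hm⟩ := neg_coeff n hn
  have hdeg : (pR ^ n).natDegree ≤ n * 4 := by
    refine le_trans natDegree_pow_le ?_
    have : pR.natDegree ≤ 4 := by unfold pR; compute_degree
    nlinarith
  have hm4 : m ≤ n * 4 := le_trans (le_natDegree_of_ne_zero hm.ne) hdeg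
  refine ⟨m, hm4, ?_⟩
  have h0 : (derivative^[m] (pR ^ n)).eval 0 < 0 := by
    rw [← coeff_zero_eq_eval_zero, coeff_iterate_derivative, zero_add]
    have : 0 < m.descFactorial m := by rw [Nat.descFactorial_self]; positivity
    rw [nsmul_eq_mul]
    have h2 : (0 : ℝ) < (m.descFactorial m : ℝ) := by exact_mod_cast this
    nlinarith
  have h1 := eval_half_nonneg n m
  have hc : ContinuousOn (fun x : ℝ => (derivative^[m] (pR ^ n)).eval x) (Set.Icc 0 (1 / 2)) :=
    (Polynomial.continuous _).continuousOn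
  have := intermediate_value_Icc (by norm_num : (0 : ℝ) ≤ 1 / 2) hc
  obtain ⟨x, hx, hx2⟩ := this ⟨h0.le, h1⟩
  refine ⟨x, hx.1, hx.2, ?_⟩
  have e : derivative^[m] (PP ^ n) = (derivative^[m] (pR ^ n)).map Complex.ofRealHom := by
    rw [PP_eq_map, ← Polynomial.map_pow, iterate_derivative_map]
  rw [e, eval_map]
  have e2 : ((x : ℂ)) = Complex.ofRealHom x := rfl
  rw [e2, eval₂_at_apply]
  simp only at hx2
  rw [hx2]; simp

end Pool.Agent.H53.Shadow
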