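import Mathlib

/-!
Third-order dispersive shock profile: kernel, integral identities, a priori bounds.
-/

namespace H53Shock

open MeasureTheory intervalIntegral Set Filter Topology

noncomputable section

/-- The kernel of the integral equation. -/
def mk (t : ℝ) : ℝ := (1 - t) * (1/3 - t) * t

/-- `T j k z = ∫₀¹ t^j k(tz) dt`. -/
def T (j : ℕ) (k : ℝ → ℝ) (z : ℝ) : ℝ := ∫ t in (0:ℝ)..1, t^j * k (t * z)

/-- `S j k z = ∫₀^z s^j k(s) ds`. -/
def S (j : ℕ) (k : ℝ → ℝ) (z : ℝ) : ℝ := ∫ s in (0:ℝ)..z, s^j * k s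

/-- `Tm k z = ∫₀¹ m(t) k(tz) dt`. -/
def Tm (k : ℝ → ℝ) (z : ℝ) : ℝ := ∫ t in (0:ℝ)..1, mk t * k (t * z)

def FF (k : ℝ → ℝ) (z : ℝ) : ℝ := 1 + z^2 * Tm k z

lemma mk_continuous : Continuous mk := by unfold mk; fun_prop

lemma T_continuous (j : ℕ) {k : ℝ → ℝ} (hk : Continuous k) : Continuous (T j k) := by
  unfold T
  apply intervalIntegral.continuous_parametric_intervalIntegral_of_continuous'
  fun_prop

lemma Tm_continuous {k : ℝ → ℝ} (hk : Continuous k) : Continuous (Tm k) := by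
  unfold Tm
  apply intervalIntegral.continuous_parametric_intervalIntegral_of_continuous'
  have := mk_continuous
  fun_prop

lemma FF_continuous {k : ℝ → ℝ} (hk : Continuous k) : Continuous (FF k) := by
  unfold FF
  have := Tm_continuous hk
  fun_prop

lemma abs_mk_le {t : ℝ} (ht : t ∈ Icc (0:ℝ) 1) : |mk t| ≤ 1/6 := by
  obtain ⟨h0, h1⟩ := ht
  unfold mk
  have h2 : (1 - t) * t ≤ 1/4 := by nlinarith [sq_nonneg (t - 1/2)]
  have h3 : 0 ≤ (1 - t) * t := mul_nonneg (by linarith) h0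
  rw [abs_le]
  constructor
  · nlinarith
  · nlinarith

lemma Tm_eq {k : ℝ → ℝ} (hk : Continuous k) (z : ℝ) :
    Tm k z = T 1 k z / 3 - 4/3 * T 2 k z + T 3 k z := by
  unfold Tm T
  have h : ∀ j : ℕ, IntervalIntegrable (fun t : ℝ => t^j * k (t*z)) volume 0 1 := by
    intro j
    apply Continuous.intervalIntegrable
    fun_prop
  rw [show (fun t : ℝ => mk t * k (t*z)) = fun t : ℝ =>
    (1/3) * (t^1 * k (t*z)) - (4/3) * (t^2 * k (t*z)) + t^3 * k (t*z) by
      funext t; unfold mk; ring]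
  rw [intervalIntegral.integral_add, intervalIntegral.integral_sub,
    intervalIntegral.integral_const_mul, intervalIntegral.integral_const_mul]
  · ring
  · exact (h 1).const_mul _
  · exact (h 2).const_mul _
  · exact ((h 1).const_mul _).sub ((h 2).const_mul _)
  · exact h 3

lemma S_eq (j : ℕ) (k : ℝ → ℝ) (z : ℝ) : S j k z = z^(j+1) * T j k z := by
  unfold S T
  have h := intervalIntegral.mul_integral_comp_mul_right (a := 0) (b := 1)
    (f := fun s : ℝ => s^j * k s) z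
  simp only [zero_mul, one_mul] at h
  rw [← h]
  rw [show (fun x : ℝ => (x*z)^j * k (x*z)) = fun x : ℝ => z^j * (x^j * k (x*z)) by
    funext x; rw [mul_pow]; ring]
  rw [intervalIntegral.integral_const_mul]
  ring

lemma S_hasDerivAt (j : ℕ) {k : ℝ → ℝ} (hk : Continuous k) (z : ℝ) :
    HasDerivAt (S j k) (z^j * k z) z := by
  unfold S
  have hc : Continuous (fun s : ℝ => s^j * k s) := by fun_prop
  exact (hc.integral_hasStrictDerivAt 0 z).hasDerivAt

lemma S_zero (j : ℕ) (k : ℝ → ℝ) : S j k 0 = 0 := by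
  simp [S]

/-- `C = 1 + (1/3)∫₀^z h`, where `h = z k`. -/
def CC (k : ℝ → ℝ) (z : ℝ) : ℝ := 1 + S 1 k z / 3
/-- `w = h h'`. -/
def ww (k : ℝ → ℝ) (z : ℝ) : ℝ := z + (z * S 1 k z - 2 * S 2 k z) / 3
/-- `G = h²/2`. -/
def GG (k : ℝ → ℝ) (z : ℝ) : ℝ :=
  z^2/2 + (z^2 * S 1 k z - 4 * z * S 2 k z + 3 * S 3 k z) / 6

lemma CC_hasDerivAt {k : ℝ → ℝ} (hk : Continuous k) (z : ℝ) :
    HasDerivAt (CC k) (z * k z / 3) z := by
  have := ((S_hasDerivAt 1 hk z).div_const 3).const_add 1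
  rw [pow_one] at this
  exact this

lemma ww_hasDerivAt {k : ℝ → ℝ} (hk : Continuous k) (z : ℝ) :
    HasDerivAt (ww k) (CC k z - z * (z * k z) / 3) z := by
  have h1 := (hasDerivAt_id z).mul (S_hasDerivAt 1 hk z)
  have h2 := (S_hasDerivAt 2 hk z).const_mul 2
  have h3 := (hasDerivAt_id z).add ((h1.sub h2).div_const 3)
  refine h3.congr_deriv ?_
  simp only [id, CC]
  ring

lemma GG_hasDerivAt {k : ℝ → ℝ} (hk : Continuous k) (z : ℝ) :
    HasDerivAt (GG k) (ww k z) z := by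
  have h0 : HasDerivAt (fun z : ℝ => z^2) (2 * z) z := by
    simpa using hasDerivAt_pow 2 z
  have h1 := h0.mul (S_hasDerivAt 1 hk z)
  have h2 := ((hasDerivAt_id z).const_mul 4).mul (S_hasDerivAt 2 hk z)
  have h3 := (S_hasDerivAt 3 hk z).const_mul 3
  have h4 := (h0.div_const 2).add (((h1.sub h2).add h3).div_const 6)
  refine h4.congr_deriv ?_
  simp only [id, ww]
  ring

lemma two_GG_eq {k : ℝ → ℝ} (hk : Continuous k) (z : ℝ) :
    2 * GG k z = z^2 * FF k z := by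
  unfold GG FF
  rw [Tm_eq hk, S_eq, S_eq, S_eq]
  ring

lemma abs_Tm_le {k : ℝ → ℝ} {z M : ℝ}
    (hM : ∀ t ∈ Icc (0:ℝ) 1, |k (t * z)| ≤ M) : |Tm k z| ≤ M / 6 := by
  unfold Tm
  have h := intervalIntegral.norm_integral_le_of_norm_le_const (a := 0) (b := 1)
    (f := fun t : ℝ => mk t * k (t*z)) (C := M/6) (by
      intro t ht
      rw [uIoc_of_le zero_le_one] at ht
      have ht' : t ∈ Icc (0:ℝ) 1 := ⟨ht.1.le, ht.2⟩
      rw [Real.norm_eq_abs, abs_mul]
      have h1 := abs_mk_le ht'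
      have h2 := hM t ht'
      have h3 := abs_nonneg (mk t)
      have h4 := abs_nonneg (k (t*z))
      nlinarith)
  simpa using h

/-- A priori upper bound. -/
lemma apriori_upper {k : ℝ → ℝ} (hk : Continuous k) {Z : ℝ} (hZ : 0 ≤ Z)
    (hpos : ∀ z ∈ Icc 0 Z, 0 < k z) (heq : ∀ z ∈ Icc 0 Z, k z ^ 2 = FF k z) :
    k Z ≤ 1 + Z^2 := by
  obtain ⟨s, hs, hmax⟩ := isCompact_Icc.exists_isMaxOn (nonempty_Icc.2 hZ) hk.continuousOn
  have hmax' : ∀ y ∈ Icc 0 Z, k y ≤ k s := fun y hy => hmax hy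
  have h1 := heq s hs
  have h2 : |Tm k s| ≤ k s / 6 := by
    apply abs_Tm_le
    intro t ht
    have hts : t * s ∈ Icc 0 Z := ⟨mul_nonneg ht.1 hs.1, by nlinarith [ht.1, ht.2, hs.1, hs.2]⟩
    rw [abs_of_pos (hpos _ hts)]
    exact hmax' _ hts
  have h3 := hpos s hs
  have h4 : k s ^ 2 ≤ 1 + Z^2 * k s := by
    rw [h1]
    unfold FF
    have h5 : Tm k s ≤ k s / 6 := (abs_le.1 h2).2
    have h6 : s^2 ≤ Z^2 := by nlinarith [hs.1, hs.2]
    have h7 : s^2 * Tm k s ≤ s^2 * (k s / 6) := mul_le_mul_of_nonneg_left h5 (sq_nonneg _)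
    have h8 : s^2 * (k s / 6) ≤ Z^2 * (k s / 6) := mul_le_mul_of_nonneg_right h6 (by positivity)
    nlinarith [mul_nonneg (sq_nonneg Z) h3.le]
  have h5 : k s ≤ 1 + Z^2 := by
    by_contra hcon
    push Not at hcon
    nlinarith [sq_nonneg Z]
  exact (hmax' Z ⟨hZ, le_rfl⟩).trans h5

lemma apriori_lower_one {k : ℝ → ℝ} (hk : Continuous k) {Z : ℝ} (hZ : 0 ≤ Z) (hZ1 : Z ≤ 1)
    (hpos : ∀ z ∈ Icc 0 Z, 0 < k z) (heq : ∀ z ∈ Icc 0 Z, k z ^ 2 = FF k z) :
    1/2 ≤ k Z := by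
  have h2 : |Tm k Z| ≤ 2 / 6 := by
    apply abs_Tm_le
    intro t ht
    have hts : t * Z ∈ Icc 0 Z := ⟨mul_nonneg ht.1 hZ, by nlinarith [ht.1, ht.2]⟩
    rw [abs_of_pos (hpos _ hts)]
    have := apriori_upper hk (Z := t * Z) hts.1 (fun z hz => hpos z ⟨hz.1, hz.2.trans hts.2⟩)
      (fun z hz => heq z ⟨hz.1, hz.2.trans hts.2⟩)
    have h3 : t * Z ≤ 1 := hts.2.trans hZ1
    nlinarith [hts.1]
  have h1 := heq Z ⟨hZ, le_rfl⟩
  have h3 := hpos Z ⟨hZ, le_rfl⟩
  unfold FF at h1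
  have h5 : -(2/6) ≤ Tm k Z := (abs_le.1 h2).1
  have h6 : Z^2 ≤ 1 := by nlinarith
  nlinarith [sq_nonneg Z]

/-- energy -/
def EE (k : ℝ → ℝ) (z : ℝ) : ℝ :=
  (ww k z)^2/2 + z * (z * k z)^3/9 - CC k z * GG k z

lemma h_hasDerivAt {k : ℝ → ℝ} (hk : Continuous k) {Z z : ℝ} (hz : z ∈ Ioo 0 Z)
    (hpos : ∀ z ∈ Ioo 0 Z, 0 < k z) (heq : ∀ z ∈ Ioo 0 Z, k z ^ 2 = FF k z) :
    HasDerivAt (fun x => x * k x) (ww k z / (z * k z)) z := by
  have hev : (fun x => x * k x) =ᶠ[𝓝 z] fun x => Real.sqrt (2 * GG k x) := by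
    filter_upwards [isOpen_Ioo.mem_nhds hz] with x hx
    rw [two_GG_eq hk, ← heq x hx, ← mul_pow, Real.sqrt_sq]
    exact mul_nonneg hx.1.le (hpos x hx).le
  have h2G : 2 * GG k z = (z * k z)^2 := by
    rw [two_GG_eq hk, ← heq z hz, ← mul_pow]
  have hp : 0 < z * k z := mul_pos hz.1 (hpos z hz)
  have h1 := ((GG_hasDerivAt hk z).const_mul 2).sqrt (by rw [h2G]; positivity)
  refine (h1.congr_of_eventuallyEq hev).congr_deriv ?_
  rw [h2G, Real.sqrt_sq hp.le]
  field_simp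

lemma EE_hasDerivAt {k : ℝ → ℝ} (hk : Continuous k) {Z z : ℝ} (hz : z ∈ Ioo 0 Z)
    (hpos : ∀ z ∈ Ioo 0 Z, 0 < k z) (heq : ∀ z ∈ Ioo 0 Z, k z ^ 2 = FF k z) :
    HasDerivAt (EE k) (-(z * k z)^3/18) z := by
  have hp : 0 < z * k z := mul_pos hz.1 (hpos z hz)
  have h2G : 2 * GG k z = (z * k z)^2 := by
    rw [two_GG_eq hk, ← heq z hz, ← mul_pow]
  have h1 := h_hasDerivAt hk hz hpos heq
  have h2 := (((ww_hasDerivAt hk z).pow 2).div_const 2).add
    (((hasDerivAt_id z).mul (h1.pow 3)).div_const 9)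
  have h3 := h2.sub ((CC_hasDerivAt hk z).mul (GG_hasDerivAt hk z))
  refine h3.congr_deriv ?_
  have hG : GG k z = (z * k z)^2/2 := by linarith
  simp only [id, hG]
  have hz0 : z ≠ 0 := hz.1.ne'
  have hk0 : k z ≠ 0 := (hpos z hz).ne'
  simp
  field_simp
  ring

lemma GG_continuous {k : ℝ → ℝ} (hk : Continuous k) : Continuous (GG k) :=
  continuous_iff_continuousAt.2 fun z => (GG_hasDerivAt hk z).continuousAt
lemma ww_continuous {k : ℝ → ℝ} (hk : Continuous k) : Continuous (ww k) :=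
  continuous_iff_continuousAt.2 fun z => (ww_hasDerivAt hk z).continuousAt
lemma CC_continuous {k : ℝ → ℝ} (hk : Continuous k) : Continuous (CC k) :=
  continuous_iff_continuousAt.2 fun z => (CC_hasDerivAt hk z).continuousAt

lemma EE_continuous {k : ℝ → ℝ} (hk : Continuous k) : Continuous (EE k) := by
  have h1 := GG_continuous hk
  have h2 := ww_continuous hk
  have h3 := CC_continuous hk
  unfold EE
  fun_prop

lemma EE_zero (k : ℝ → ℝ) : EE k 0 = 0 := by
  simp [EE, ww, GG, S_zero]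

lemma CC_le {k : ℝ → ℝ} (hk : Continuous k) {Z : ℝ} (hZ : 0 ≤ Z)
    (hpos : ∀ z ∈ Icc 0 Z, 0 < k z) (heq : ∀ z ∈ Icc 0 Z, k z ^ 2 = FF k z) :
    CC k Z ≤ 1 + Z^2 + Z^4 := by
  have h1 : S 1 k Z ≤ ∫ s in (0:ℝ)..Z, (s + s^3) := by
    unfold S
    apply intervalIntegral.integral_mono_on hZ
    · apply Continuous.intervalIntegrable; fun_prop
    · apply Continuous.intervalIntegrable; fun_prop
    · intro s hs
      have := apriori_upper hk (Z := s) hs.1 (fun z hz => hpos z ⟨hz.1, hz.2.trans hs.2⟩)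
        (fun z hz => heq z ⟨hz.1, hz.2.trans hs.2⟩)
      rw [pow_one]
      nlinarith [hs.1]
  have h2 : ∫ s in (0:ℝ)..Z, (s + s^3) = Z^2/2 + Z^4/4 := by
    rw [intervalIntegral.integral_add (by apply Continuous.intervalIntegrable; fun_prop)
      (by apply Continuous.intervalIntegrable; fun_prop)]
    rw [integral_id, integral_pow]
    ring
  unfold CC
  have h3 : (0:ℝ) ≤ Z^2 := by positivity
  have h4 : (0:ℝ) ≤ Z^4 := by positivity
  rw [h2] at h1
  linarith

/-- the main a priori bound -/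
lemma apriori_lower {k : ℝ → ℝ} (hk : Continuous k) {Z : ℝ} (hZ : 0 ≤ Z)
    (hpos : ∀ z ∈ Icc 0 Z, 0 < k z) (heq : ∀ z ∈ Icc 0 Z, k z ^ 2 = FF k z) :
    (1 / (18 * (1 + Z^2)^2))^2 < k Z ^ 2 := by
  rcases le_total Z 1 with hZ1 | hZ1
  · have h1 := apriori_lower_one hk hZ hZ1 hpos heq
    have h2 : (1 / (18 * (1 + Z^2)^2)) ≤ 1/18 := by
      apply one_div_le_one_div_of_le (by norm_num)
      have : (1:ℝ) ≤ (1 + Z^2)^2 := by nlinarith [sq_nonneg Z]
      linarith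
    have h3 : 0 < (1 / (18 * (1 + Z^2)^2)) := by positivity
    nlinarith
  · -- energy
    have hE : AntitoneOn (fun z => EE k z + (∫ s in (0:ℝ)..z, (s * k s)^3)/18) (Icc 0 Z) := by
      have hc : Continuous (fun s : ℝ => (s * k s)^3) := by fun_prop
      have hd : ∀ z, HasDerivAt (fun z => (∫ s in (0:ℝ)..z, (s * k s)^3)/18) ((z * k z)^3/18) z :=
        fun z => ((hc.integral_hasStrictDerivAt 0 z).hasDerivAt).div_const 18
      have hd2 : ∀ z ∈ Ioo 0 Z, HasDerivAt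
          (fun z => EE k z + (∫ s in (0:ℝ)..z, (s * k s)^3)/18) 0 z := by
        intro z hz
        have := (EE_hasDerivAt hk hz (fun y hy => hpos y ⟨hy.1.le, hy.2.le⟩)
          (fun y hy => heq y ⟨hy.1.le, hy.2.le⟩)).add (hd z)
        refine this.congr_deriv ?_
        ring
      apply antitoneOn_of_deriv_nonpos (convex_Icc _ _)
      · apply ContinuousOn.add (EE_continuous hk).continuousOn
        exact (continuous_iff_continuousAt.2 fun z => (hd z).continuousAt).continuousOn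
      · rw [interior_Icc]
        exact fun z hz => (hd2 z hz).differentiableAt.differentiableWithinAt
      · rw [interior_Icc]
        exact fun z hz => (hd2 z hz).deriv.le
    have h1 := hE ⟨le_rfl, hZ⟩ ⟨hZ, le_rfl⟩ hZ
    simp only [EE_zero, intervalIntegral.integral_same, zero_div, add_zero] at h1
    have h2 : (1:ℝ)/32 ≤ ∫ s in (0:ℝ)..Z, (s * k s)^3 := by
      have hc : Continuous (fun s : ℝ => (s * k s)^3) := by fun_prop
      have h3 : ∫ s in (0:ℝ)..1, (s * k s)^3 ≤ ∫ s in (0:ℝ)..Z, (s * k s)^3 := by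
        rw [← intervalIntegral.integral_add_adjacent_intervals (hc.intervalIntegrable 0 1)
          (hc.intervalIntegrable 1 Z)]
        have : 0 ≤ ∫ s in (1:ℝ)..Z, (s * k s)^3 := by
          apply intervalIntegral.integral_nonneg hZ1
          intro s hs
          have := hpos s ⟨zero_le_one.trans hs.1, hs.2⟩
          have : 0 ≤ s := zero_le_one.trans hs.1
          positivity
        linarith
      have h4 : ∫ s in (0:ℝ)..1, (s^3/8) ≤ ∫ s in (0:ℝ)..1, (s * k s)^3 := by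
        apply intervalIntegral.integral_mono_on zero_le_one
        · apply Continuous.intervalIntegrable; fun_prop
        · exact hc.intervalIntegrable _ _
        · intro s hs
          have := apriori_lower_one hk hs.1 hs.2
            (fun z hz => hpos z ⟨hz.1, (hz.2.trans hs.2).trans hZ1⟩)
            (fun z hz => heq z ⟨hz.1, (hz.2.trans hs.2).trans hZ1⟩)
          have h5 : s/2 ≤ s * k s := by nlinarith [hs.1]
          have h6 : (s/2)^3 ≤ (s * k s)^3 := pow_le_pow_left₀ (by linarith [hs.1]) h5 3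
          have h7 : (s/2)^3 = s^3/8 := by ring
          linarith
      have h5 : ∫ s in (0:ℝ)..1, (s^3/8 : ℝ) = 1/32 := by
        rw [intervalIntegral.integral_div, integral_pow]
        norm_num
      linarith
    have hkZ := hpos Z ⟨hZ, le_rfl⟩
    have h2G : 2 * GG k Z = (Z * k Z)^2 := by
      rw [two_GG_eq hk, ← heq Z ⟨hZ, le_rfl⟩, ← mul_pow]
    have h3 : EE k Z ≤ -(1/576) := by linarith
    have h4 : 1/576 ≤ CC k Z * GG k Z := by
      have h5 : EE k Z = (ww k Z)^2/2 + Z * (Z * k Z)^3/9 - CC k Z * GG k Z := rfl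
      have h6 : 0 ≤ Z * (Z * k Z)^3/9 := by positivity
      nlinarith [sq_nonneg (ww k Z)]
    have h5 := CC_le hk hZ hpos heq
    have h6 : 1/288 ≤ (1 + Z^2 + Z^4) * (Z^2 * k Z^2) := by
      have h7 : GG k Z = Z^2 * k Z^2/2 := by linarith [mul_pow Z (k Z) 2]
      rw [h7] at h4
      have h8 : CC k Z * (Z^2 * k Z^2/2) ≤ (1 + Z^2 + Z^4) * (Z^2 * k Z^2/2) :=
        mul_le_mul_of_nonneg_right h5 (by positivity)
      linarith
    have h7 : (1 + Z^2 + Z^4) * Z^2 ≤ (1+Z^2)^4 := by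
      nlinarith [pow_nonneg hZ 2, pow_nonneg hZ 4, pow_nonneg hZ 6, pow_nonneg hZ 8]
    have h8 : 1/288 ≤ (1 + Z^2)^4 * k Z^2 := by
      have : (1 + Z^2 + Z^4) * (Z^2 * k Z^2) ≤ (1 + Z^2)^4 * k Z^2 := by
        rw [← mul_assoc]
        exact mul_le_mul_of_nonneg_right h7 (by positivity)
      linarith
    have h9 : (1 / (18 * (1 + Z^2)^2))^2 = (1/324) / (1+Z^2)^4 := by
      field_simp
      ring
    rw [h9, div_lt_iff₀ (by positivity)]
    linarith

end

end H53Shock
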