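import Pool.Agent.H53.ShockA

/-!
Third-order dispersive shock profile: the fixed point.
-/

namespace H53Shock

open MeasureTheory intervalIntegral Set Filter Topology

noncomputable section

def kap (z : ℝ) : ℝ := 1 / (18 * (1 + z^2)^2)
def LL (z : ℝ) : ℝ := 3 * z^2 * (1 + z^2)^2

def Phi (k : ℝ → ℝ) (z : ℝ) : ℝ := Real.sqrt (max (kap z ^ 2) (FF k z))

lemma kap_pos (z : ℝ) : 0 < kap z := by unfold kap; positivity

lemma kap_le_one (z : ℝ) : kap z ≤ 1 := by
  unfold kap
  rw [div_le_one (by positivity)]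
  nlinarith [sq_nonneg z, sq_nonneg (1 + z^2)]

lemma kap_continuous : Continuous kap := by
  unfold kap
  apply Continuous.div continuous_const (by fun_prop)
  intro z
  positivity

lemma LL_continuous : Continuous LL := by unfold LL; fun_prop

lemma LL_nonneg (z : ℝ) : 0 ≤ LL z := by unfold LL; positivity

lemma LL_mul_le {t : ℝ} (ht : t ∈ Icc (0:ℝ) 1) (z : ℝ) : LL (t * z) ≤ t * LL z := by
  obtain ⟨h0, h1⟩ := ht
  unfold LL
  have h2 : (1 + (t*z)^2)^2 ≤ (1 + z^2)^2 := by
    apply pow_le_pow_left₀ (by positivity)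
    rw [mul_pow]
    nlinarith [sq_nonneg z, mul_le_one₀ h1 h0 h1]
  have h3 : t^2 ≤ t := by nlinarith
  calc 3 * (t*z)^2 * (1 + (t*z)^2)^2 ≤ 3 * (t*z)^2 * (1+z^2)^2 :=
        mul_le_mul_of_nonneg_left h2 (by positivity)
    _ = t^2 * (3 * z^2 * (1+z^2)^2) := by ring
    _ ≤ t * (3 * z^2 * (1+z^2)^2) := mul_le_mul_of_nonneg_right h3 (by positivity)

lemma Phi_continuous {k : ℝ → ℝ} (hk : Continuous k) : Continuous (Phi k) := by
  unfold Phi
  exact ((kap_continuous.pow 2).max (FF_continuous hk)).sqrt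

lemma kap_le_Phi (k : ℝ → ℝ) (z : ℝ) : kap z ≤ Phi k z := by
  unfold Phi
  apply Real.le_sqrt_of_sq_le
  exact le_max_left _ _

lemma Phi_sq (k : ℝ → ℝ) (z : ℝ) : Phi k z ^ 2 = max (kap z ^ 2) (FF k z) := by
  unfold Phi
  rw [Real.sq_sqrt]
  exact le_max_of_le_left (sq_nonneg _)

lemma Tm_sub {k₁ k₂ : ℝ → ℝ} (h₁ : Continuous k₁) (h₂ : Continuous k₂) (z : ℝ) :
    Tm k₁ z - Tm k₂ z = Tm (fun y => k₁ y - k₂ y) z := by
  unfold Tm
  have := mk_continuous
  rw [← intervalIntegral.integral_sub]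
  · congr 1
    funext t
    ring
  · apply Continuous.intervalIntegrable; fun_prop
  · apply Continuous.intervalIntegrable; fun_prop

lemma Tm_exp_bound {q : ℝ → ℝ} {D : ℝ} (hD : ∀ y, |q y| ≤ D) (z : ℝ) :
    z^2 * |Tm (fun y => Real.exp (LL y) * q y) z| ≤ Real.exp (LL z) * kap z * D := by
  have hD0 : 0 ≤ D := (abs_nonneg _).trans (hD 0)
  have h1 : |Tm (fun y => Real.exp (LL y) * q y) z| ≤
      ∫ t in (0:ℝ)..1, (D/6) * Real.exp (t * LL z) := by
    unfold Tm
    rw [← Real.norm_eq_abs]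
    apply intervalIntegral.norm_integral_le_of_norm_le zero_le_one
    · apply Filter.Eventually.of_forall
      intro t ht
      have ht' : t ∈ Icc (0:ℝ) 1 := ⟨ht.1.le, ht.2⟩
      rw [Real.norm_eq_abs, abs_mul, abs_mul, abs_of_pos (Real.exp_pos _)]
      have h2 := abs_mk_le ht'
      have h3 := hD (t*z)
      have h4 := Real.exp_le_exp.2 (LL_mul_le ht' z)
      have h5 : Real.exp (LL (t*z)) * |q (t*z)| ≤ Real.exp (t * LL z) * D :=
        mul_le_mul h4 h3 (abs_nonneg _) (Real.exp_pos _).le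
      calc |mk t| * (Real.exp (LL (t*z)) * |q (t*z)|) ≤ (1/6) * (Real.exp (t * LL z) * D) :=
            mul_le_mul h2 h5 (by positivity) (by norm_num)
        _ = D/6 * Real.exp (t * LL z) := by ring
    · apply Continuous.intervalIntegrable
      fun_prop
  have h2 : LL z * ∫ t in (0:ℝ)..1, Real.exp (t * LL z) = Real.exp (LL z) - 1 := by
    rw [intervalIntegral.mul_integral_comp_mul_right, integral_exp]
    simp
  rw [intervalIntegral.integral_const_mul] at h1
  have h3 : z^2 * |Tm (fun y => Real.exp (LL y) * q y) z| ≤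
      z^2 * (D/6 * ∫ t in (0:ℝ)..1, Real.exp (t * LL z)) :=
    mul_le_mul_of_nonneg_left h1 (sq_nonneg z)
  refine h3.trans ?_
  have h4 : z^2 * (D/6 * ∫ t in (0:ℝ)..1, Real.exp (t * LL z)) =
      kap z * D * (LL z * ∫ t in (0:ℝ)..1, Real.exp (t * LL z)) := by
    unfold kap
    rw [show LL z = 3 * z^2 * (1 + z^2)^2 from rfl]
    generalize (∫ t in (0:ℝ)..1, Real.exp (t * (3 * z^2 * (1 + z^2)^2))) = I
    field_simp
    ring
  rw [h4, h2]
  have h5 : 0 ≤ kap z * D := mul_nonneg (kap_pos z).le hD0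
  nlinarith

lemma sqrt_lip {κ a b : ℝ} (hκ : 0 < κ) :
    |Real.sqrt (max (κ^2) a) - Real.sqrt (max (κ^2) b)| * (2 * κ) ≤ |a - b| := by
  set x := Real.sqrt (max (κ^2) a) with hx
  set y := Real.sqrt (max (κ^2) b) with hy
  have hxκ : κ ≤ x := Real.le_sqrt_of_sq_le (le_max_left _ _)
  have hyκ : κ ≤ y := Real.le_sqrt_of_sq_le (le_max_left _ _)
  have hx2 : x^2 = max (κ^2) a := Real.sq_sqrt (le_max_of_le_left (sq_nonneg _))
  have hy2 : y^2 = max (κ^2) b := Real.sq_sqrt (le_max_of_le_left (sq_nonneg _))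
  have h1 : |x^2 - y^2| ≤ |a - b| := by
    rw [hx2, hy2, max_comm _ a, max_comm _ b]
    exact abs_max_sub_max_le_abs _ _ _
  have h2 : |x^2 - y^2| = |x - y| * (x + y) := by
    rw [show x^2 - y^2 = (x - y) * (x + y) by ring, abs_mul, abs_of_pos (by linarith : 0 < x + y)]
  rw [h2] at h1
  have h3 := abs_nonneg (x - y)
  nlinarith

def Psi (q : ℝ → ℝ) (z : ℝ) : ℝ :=
  Real.exp (-LL z) * Phi (fun y => Real.exp (LL y) * q y) z

lemma expq_continuous {q : ℝ → ℝ} (hq : Continuous q) :
    Continuous (fun y => Real.exp (LL y) * q y) :=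
  (Real.continuous_exp.comp LL_continuous).mul hq

lemma Psi_continuous {q : ℝ → ℝ} (hq : Continuous q) : Continuous (Psi q) := by
  unfold Psi
  exact (Real.continuous_exp.comp LL_continuous.neg).mul (Phi_continuous (expq_continuous hq))

lemma Psi_bound {q : ℝ → ℝ} (hq : Continuous q) {D : ℝ} (hD : ∀ y, |q y| ≤ D) (z : ℝ) :
    |Psi q z| ≤ 2 + D := by
  have hD0 : 0 ≤ D := (abs_nonneg _).trans (hD 0)
  unfold Psi
  have h1 := Tm_exp_bound hD z
  rw [abs_mul, abs_of_pos (Real.exp_pos _)]
  have h2 : |Phi (fun y => Real.exp (LL y) * q y) z| ≤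
      1 + |FF (fun y => Real.exp (LL y) * q y) z| := by
    rw [abs_of_nonneg ((kap_pos z).le.trans (kap_le_Phi _ z))]
    unfold Phi
    apply Real.sqrt_le_iff.2
    constructor
    · positivity
    · apply max_le
      · have := kap_le_one z
        have := kap_pos z
        have := abs_nonneg (FF (fun y => Real.exp (LL y) * q y) z)
        nlinarith
      · have := abs_nonneg (FF (fun y => Real.exp (LL y) * q y) z)
        have := le_abs_self (FF (fun y => Real.exp (LL y) * q y) z)
        nlinarith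
  have h3 : |FF (fun y => Real.exp (LL y) * q y) z| ≤ 1 + Real.exp (LL z) * D := by
    unfold FF
    refine (abs_add_le _ _).trans ?_
    rw [abs_one, abs_mul, abs_of_nonneg (sq_nonneg z)]
    have := kap_le_one z
    have h5 : Real.exp (LL z) * kap z * D ≤ Real.exp (LL z) * D := by
      have : 0 ≤ Real.exp (LL z) * D := by positivity
      nlinarith
    linarith
  have h4 : Real.exp (-LL z) * |Phi (fun y => Real.exp (LL y) * q y) z| ≤
      Real.exp (-LL z) * (2 + Real.exp (LL z) * D) :=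
    mul_le_mul_of_nonneg_left (by linarith) (Real.exp_pos _).le
  refine h4.trans ?_
  have h5 : Real.exp (-LL z) * (2 + Real.exp (LL z) * D) = 2 * Real.exp (-LL z) + D := by
    rw [mul_add, ← mul_assoc, ← Real.exp_add]
    simp
    ring
  rw [h5]
  have h6 : Real.exp (-LL z) ≤ 1 := Real.exp_le_one_iff.2 (by have := LL_nonneg z; linarith)
  linarith

lemma Psi_lip {q₁ q₂ : ℝ → ℝ} (h₁ : Continuous q₁) (h₂ : Continuous q₂) {D : ℝ}
    (hD : ∀ y, |q₁ y - q₂ y| ≤ D) (z : ℝ) : |Psi q₁ z - Psi q₂ z| ≤ D / 2 := by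
  unfold Psi
  rw [← mul_sub, abs_mul, abs_of_pos (Real.exp_pos _)]
  have h3 := sqrt_lip (a := FF (fun y => Real.exp (LL y) * q₁ y) z)
    (b := FF (fun y => Real.exp (LL y) * q₂ y) z) (kap_pos z)
  have h4 : |FF (fun y => Real.exp (LL y) * q₁ y) z - FF (fun y => Real.exp (LL y) * q₂ y) z|
      ≤ Real.exp (LL z) * kap z * D := by
    have := Tm_exp_bound hD z
    unfold FF
    rw [show (1 + z^2 * Tm (fun y => Real.exp (LL y) * q₁ y) z -
      (1 + z^2 * Tm (fun y => Real.exp (LL y) * q₂ y) z)) =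
      z^2 * (Tm (fun y => Real.exp (LL y) * q₁ y) z - Tm (fun y => Real.exp (LL y) * q₂ y) z) by
        ring]
    rw [Tm_sub (expq_continuous h₁) (expq_continuous h₂), abs_mul, abs_of_nonneg (sq_nonneg z)]
    simpa [mul_sub] using this
  have h5 : |Phi (fun y => Real.exp (LL y) * q₁ y) z - Phi (fun y => Real.exp (LL y) * q₂ y) z|
      * (2 * kap z) ≤ Real.exp (LL z) * kap z * D := by
    unfold Phi
    exact h3.trans h4
  have h6 := kap_pos z
  have h7 : |Phi (fun y => Real.exp (LL y) * q₁ y) z - Phi (fun y => Real.exp (LL y) * q₂ y) z|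
      ≤ Real.exp (LL z) * D / 2 := by
    have : |Phi (fun y => Real.exp (LL y) * q₁ y) z - Phi (fun y => Real.exp (LL y) * q₂ y) z|
      * (2 * kap z) ≤ (Real.exp (LL z) * D / 2) * (2 * kap z) := by
        refine h5.trans (le_of_eq ?_)
        ring
    exact le_of_mul_le_mul_right this (by positivity)
  calc Real.exp (-LL z) * |Phi (fun y => Real.exp (LL y) * q₁ y) z -
        Phi (fun y => Real.exp (LL y) * q₂ y) z| ≤ Real.exp (-LL z) * (Real.exp (LL z) * D / 2) :=
        mul_le_mul_of_nonneg_left h7 (Real.exp_pos _).le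
    _ = (Real.exp (-LL z) * Real.exp (LL z)) * D / 2 := by ring
    _ = D / 2 := by rw [← Real.exp_add]; simp

open BoundedContinuousFunction in
def PsiB (q : ℝ →ᵇ ℝ) : ℝ →ᵇ ℝ :=
  BoundedContinuousFunction.ofNormedAddCommGroup (Psi q) (Psi_continuous q.continuous)
    (2 + ‖q‖) (fun z => by
      rw [Real.norm_eq_abs]
      exact Psi_bound q.continuous (fun y => by
        rw [← Real.norm_eq_abs]; exact q.norm_coe_le_norm y) z)

open BoundedContinuousFunction in
lemma PsiB_contracting : ContractingWith (1/2 : NNReal) PsiB := by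
  refine ⟨?_, ?_⟩
  · rw [← NNReal.coe_lt_coe]; norm_num
  · apply LipschitzWith.of_dist_le_mul
    intro p q
    rw [BoundedContinuousFunction.dist_le (by positivity)]
    intro z
    rw [Real.dist_eq]
    have := Psi_lip p.continuous q.continuous (D := dist p q) (fun y => by
      rw [← Real.dist_eq]; exact p.dist_coe_le_dist y) z
    refine this.trans (le_of_eq ?_)
    simp
    ring

/-- The fixed point function `k₀`. -/
def k0 (z : ℝ) : ℝ := Real.exp (LL z) * (ContractingWith.fixedPoint PsiB PsiB_contracting) z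

lemma k0_continuous : Continuous k0 :=
  (Real.continuous_exp.comp LL_continuous).mul (BoundedContinuousFunction.continuous _)

lemma k0_fixed (z : ℝ) : k0 z = Phi k0 z := by
  have h := PsiB_contracting.fixedPoint_isFixedPt
  have h1 : (PsiB (ContractingWith.fixedPoint PsiB PsiB_contracting)) z =
      (ContractingWith.fixedPoint PsiB PsiB_contracting) z := by
    rw [h]
  have h2 : (PsiB (ContractingWith.fixedPoint PsiB PsiB_contracting)) z =
    Real.exp (-LL z) * Phi k0 z := rfl
  rw [h2] at h1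
  conv_lhs => unfold k0
  rw [← h1, ← mul_assoc, ← Real.exp_add]
  simp

lemma k0_unique {k : ℝ → ℝ} (hk : Continuous k) (hfix : ∀ z, k z = Phi k z) {M : ℝ}
    (hb : ∀ z, |k z| ≤ M * Real.exp (LL z)) : k = k0 := by
  let q : BoundedContinuousFunction ℝ ℝ := BoundedContinuousFunction.ofNormedAddCommGroup
    (fun z => Real.exp (-LL z) * k z)
    ((Real.continuous_exp.comp LL_continuous.neg).mul hk) M (fun z => by
      rw [norm_mul, Real.norm_eq_abs, Real.norm_eq_abs, abs_of_pos (Real.exp_pos _)]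
      calc Real.exp (-LL z) * |k z| ≤ Real.exp (-LL z) * (M * Real.exp (LL z)) :=
            mul_le_mul_of_nonneg_left (hb z) (Real.exp_pos _).le
        _ = M * (Real.exp (-LL z) * Real.exp (LL z)) := by ring
        _ = M := by rw [← Real.exp_add]; simp)
  have hkq : ∀ z, Real.exp (LL z) * q z = k z := by
    intro z
    change Real.exp (LL z) * (Real.exp (-LL z) * k z) = k z
    rw [← mul_assoc, ← Real.exp_add]
    simp
  have hq : Function.IsFixedPt PsiB q := by
    ext z
    change Real.exp (-LL z) * Phi (fun y => Real.exp (LL y) * q y) z = Real.exp (-LL z) * k z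
    rw [funext hkq]
    rw [← hfix z]
  have := PsiB_contracting.fixedPoint_unique hq
  funext z
  rw [← hkq z, this]
  rfl

lemma k0_bound : ∃ M, ∀ z, |k0 z| ≤ M * Real.exp (LL z) := by
  refine ⟨‖ContractingWith.fixedPoint PsiB PsiB_contracting‖, fun z => ?_⟩
  unfold k0
  rw [abs_mul, abs_of_pos (Real.exp_pos _), mul_comm]
  apply mul_le_mul_of_nonneg_right _ (Real.exp_pos _).le
  rw [← Real.norm_eq_abs]
  exact BoundedContinuousFunction.norm_coe_le_norm _ _

lemma k0_even (z : ℝ) : k0 (-z) = k0 z := by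
  have h : (fun y => k0 (-y)) = k0 := by
    obtain ⟨M, hM⟩ := k0_bound
    apply k0_unique (k0_continuous.comp continuous_neg) (M := M)
    · intro z
      simp only [Function.comp]
      rw [k0_fixed (-z)]
      unfold Phi FF Tm kap
      simp
    · intro z
      have := hM (-z)
      simpa [LL] using this
  exact congrFun h z

lemma k0_pos (z : ℝ) : 0 < k0 z := by
  rw [k0_fixed]
  exact (kap_pos z).trans_le (kap_le_Phi _ _)

lemma k0_FF_gt {z : ℝ} (hz : 0 ≤ z) : kap z ^ 2 < FF k0 z := by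
  by_contra hcon
  push Not at hcon
  let A : Set ℝ := {y | 0 ≤ y ∧ FF k0 y ≤ kap y ^ 2}
  have hAne : A.Nonempty := ⟨z, hz, hcon⟩
  have hAc : IsClosed A := (isClosed_le continuous_const continuous_id).inter
    (isClosed_le (FF_continuous k0_continuous) (kap_continuous.pow 2))
  have hAb : BddBelow A := ⟨0, fun y hy => hy.1⟩
  have hmem := hAc.csInf_mem hAne hAb
  set z₁ := sInf A with hz₁
  have hlt : ∀ y, 0 ≤ y → y < z₁ → kap y ^ 2 < FF k0 y := by
    intro y hy0 hy1
    by_contra hc
    push Not at hc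
    exact absurd (csInf_le hAb (show y ∈ A from ⟨hy0, hc⟩)) (not_le.2 hy1)
  have hsq : ∀ y, kap y ^ 2 ≤ FF k0 y → k0 y ^ 2 = FF k0 y := by
    intro y hy
    conv_lhs => rw [k0_fixed y]
    rw [Phi_sq, max_eq_right hy]
  have hpos1 : 0 < z₁ := by
    rcases hmem.1.lt_or_eq with h | h
    · exact h
    · exfalso
      have h2 := hmem.2
      rw [← h] at h2
      unfold FF kap at h2
      norm_num at h2
  have heqIco : ∀ y ∈ Ico 0 z₁, k0 y ^ 2 = FF k0 y := fun y hy =>
    hsq y (hlt y hy.1 hy.2).le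
  have heq : ∀ y ∈ Icc 0 z₁, k0 y ^ 2 = FF k0 y := by
    have hcl : IsClosed {y : ℝ | k0 y ^ 2 = FF k0 y} :=
      isClosed_eq (k0_continuous.pow 2) (FF_continuous k0_continuous)
    have : closure (Ico 0 z₁) ⊆ {y : ℝ | k0 y ^ 2 = FF k0 y} :=
      hcl.closure_subset_iff.2 heqIco
    rw [closure_Ico hpos1.ne] at this
    exact this
  have := apriori_lower k0_continuous hmem.1 (fun y _ => k0_pos y) heq
  rw [heq z₁ ⟨hmem.1, le_rfl⟩] at this
  exact absurd hmem.2 (not_le.2 this)

lemma FF_k0_neg (z : ℝ) : FF k0 (-z) = FF k0 z := by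
  unfold FF Tm
  have : ∀ t, k0 (t * -z) = k0 (t * z) := fun t => by rw [mul_neg, k0_even]
  simp only [this]
  ring

/-- `k₀` solves the integral equation on all of `ℝ`. -/
lemma k0_sq (z : ℝ) : k0 z ^ 2 = FF k0 z := by
  have h : ∀ z, 0 ≤ z → k0 z ^ 2 = FF k0 z := by
    intro z hz
    conv_lhs => rw [k0_fixed z]
    rw [Phi_sq, max_eq_right (k0_FF_gt hz).le]
  rcases le_total 0 z with hz | hz
  · exact h z hz
  · have := h (-z) (by linarith)
    rw [k0_even, FF_k0_neg] at this
    exact this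

/-- Uniqueness for positive continuous even solutions of the integral equation. -/
lemma k0_unique' {k : ℝ → ℝ} (hk : Continuous k) (hpos : ∀ z, 0 < k z) (heven : ∀ z, k (-z) = k z)
    (heq : ∀ z, 0 ≤ z → k z ^ 2 = FF k z) : k = k0 := by
  have hFFneg : ∀ z, FF k (-z) = FF k z := by
    intro z
    unfold FF Tm
    have : ∀ t, k (t * -z) = k (t * z) := fun t => by rw [mul_neg, heven]
    simp only [this]
    ring
  have hnn : ∀ z, 0 ≤ z → k z = Phi k z := by
    intro z hz
    have h1 := apriori_lower hk hz (fun y _ => hpos y) (fun y hy => heq y hy.1)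
    have h2 : kap z ^ 2 ≤ FF k z := by
      rw [← heq z hz]
      exact h1.le
    unfold Phi
    rw [max_eq_right h2, ← heq z hz, Real.sqrt_sq (hpos z).le]
  have hbd : ∀ z, 0 ≤ z → |k z| ≤ 1 * Real.exp (LL z) := by
    intro z hz
    rw [abs_of_pos (hpos z), one_mul]
    have h1 := apriori_upper hk hz (fun y _ => hpos y) (fun y hy => heq y hy.1)
    have h2 : 1 + z^2 ≤ 1 + LL z := by
      unfold LL
      nlinarith [sq_nonneg z, sq_nonneg (z^2), mul_nonneg (sq_nonneg z) (sq_nonneg z),
        mul_nonneg (sq_nonneg z) (mul_nonneg (sq_nonneg z) (sq_nonneg z))]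
    have h3 := Real.add_one_le_exp (LL z)
    linarith
  apply k0_unique hk (M := 1)
  · intro z
    rcases le_total 0 z with hz | hz
    · exact hnn z hz
    · have := hnn (-z) (by linarith)
      rw [heven] at this
      rw [this]
      unfold Phi
      rw [hFFneg]
      simp [kap]
  · intro z
    rcases le_total 0 z with hz | hz
    · exact hbd z hz
    · have := hbd (-z) (by linarith)
      rw [heven] at this
      simpa [LL] using this

end

end H53Shock
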