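import Pool.Agent.H53.ShockB

/-!
Third-order dispersive shock profile: smoothness and the ODE.
-/

namespace H53Shock

open MeasureTheory intervalIntegral Set Filter Topology

noncomputable section

lemma T_hasDerivAt (j : ℕ) {k k' : ℝ → ℝ} (hk : ∀ x, HasDerivAt k (k' x) x)
    (hk' : Continuous k') (z : ℝ) : HasDerivAt (T j k) (T (j+1) k' z) z := by
  have hkc : Continuous k := continuous_iff_continuousAt.2 fun x => (hk x).continuousAt
  obtain ⟨M, hM⟩ := (isCompact_Icc (a := -(|z|+1)) (b := |z|+1)).exists_bound_of_continuousOn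
    hk'.continuousOn
  have := intervalIntegral.hasDerivAt_integral_of_dominated_loc_of_deriv_le
    (μ := volume) (a := 0) (b := 1)
    (F := fun z t : ℝ => t^j * k (t * z)) (F' := fun z t : ℝ => t^(j+1) * k' (t * z))
    (x₀ := z) (s := Metric.ball z 1) (bound := fun _ => M) (Metric.ball_mem_nhds z one_pos)
    (by
      apply Filter.Eventually.of_forall
      intro x
      apply Continuous.aestronglyMeasurable
      fun_prop)
    (by apply Continuous.intervalIntegrable; fun_prop)
    (by apply Continuous.aestronglyMeasurable; fun_prop)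
    (by
      apply Filter.Eventually.of_forall
      intro t ht x hx
      rw [uIoc_of_le zero_le_one] at ht
      rw [Metric.mem_ball, Real.dist_eq] at hx
      have h1 : |x| ≤ |z| + 1 := by
        have := abs_sub_abs_le_abs_sub x z
        linarith
      have h2 : |t * x| ≤ |z| + 1 := by
        rw [abs_mul, abs_of_pos ht.1]
        nlinarith [abs_nonneg x, ht.1, ht.2]
      have h3 := hM (t * x) (abs_le.1 h2)
      rw [norm_mul, Real.norm_eq_abs (t^(j+1)), abs_of_nonneg (pow_nonneg ht.1.le _)]
      have h4 : t^(j+1) ≤ 1 := pow_le_one₀ ht.1.le ht.2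
      have h5 := norm_nonneg (k' (t * x))
      have h6 : 0 ≤ t^(j+1) := pow_nonneg ht.1.le _
      nlinarith)
    (by apply Continuous.intervalIntegrable; fun_prop)
    (by
      apply Filter.Eventually.of_forall
      intro t ht x hx
      have h1 : HasDerivAt (fun x => k (t * x)) (k' (t * x) * t) x := by
        have h2 : HasDerivAt (fun x : ℝ => t * x) t x := by
          simpa using (hasDerivAt_id x).const_mul t
        exact (hk (t * x)).comp x h2
      refine (h1.const_mul (t^j)).congr_deriv ?_
      ring)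
  exact this.2

lemma T_contDiff (n : ℕ) : ∀ (j : ℕ) (k : ℝ → ℝ), ContDiff ℝ n k → ContDiff ℝ n (T j k) := by
  induction n with
  | zero =>
    intro j k hk
    rw [Nat.cast_zero, contDiff_zero] at hk ⊢
    exact T_continuous j hk
  | succ n ih =>
    intro j k hk
    have hd : ∀ x, HasDerivAt k (deriv k x) x := fun x =>
      ((hk.differentiable (by simp)) x).hasDerivAt
    have hk' : ContDiff ℝ n (deriv k) := by
      rw [Nat.cast_succ] at hk
      exact (contDiff_succ_iff_deriv.1 hk).2.2
    have hT := T_hasDerivAt j hd hk'.continuous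
    rw [Nat.cast_succ, contDiff_succ_iff_deriv]
    refine ⟨fun z => (hT z).differentiableAt, by simp, ?_⟩
    rw [show deriv (T j k) = T (j+1) (deriv k) from funext fun z => (hT z).deriv]
    exact ih (j+1) _ hk'

lemma T_at_zero (j : ℕ) (k : ℝ → ℝ) : T j k 0 = k 0 / (j + 1) := by
  unfold T
  simp only [mul_zero]
  rw [intervalIntegral.integral_mul_const, integral_pow]
  simp
  ring

lemma hasDerivAt_id_mul_zero {f : ℝ → ℝ} (hf : ContinuousAt f 0) :
    HasDerivAt (fun x => x * f x) (f 0) 0 := by
  rw [hasDerivAt_iff_tendsto_slope]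
  have : Tendsto f (𝓝[≠] 0) (𝓝 (f 0)) := hf.tendsto.mono_left nhdsWithin_le_nhds
  refine this.congr' ?_
  filter_upwards [self_mem_nhdsWithin] with x hx
  have hx0 : x ≠ 0 := hx
  rw [slope_def_field]
  field_simp
  ring

lemma zT_hasDerivAt (j : ℕ) {k : ℝ → ℝ} (hk : Continuous k) (z : ℝ) :
    HasDerivAt (fun x => x * T j k x) (k z - j * T j k z) z := by
  by_cases hz : z = 0
  · subst hz
    have h1 := hasDerivAt_id_mul_zero (T_continuous j hk).continuousAt
    refine h1.congr_deriv ?_
    rw [T_at_zero]
    field_simp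
    ring
  · have h1 : (fun x => x * T j k x) =ᶠ[𝓝 z] fun x => S j k x / x^j := by
      filter_upwards [isOpen_ne.mem_nhds hz] with x hx
      have hx0 : x ≠ 0 := hx
      rw [S_eq, pow_succ]
      field_simp
    have h2 := (S_hasDerivAt j hk z).div (hasDerivAt_pow j z) (pow_ne_zero j hz)
    refine (h2.congr_of_eventuallyEq h1).congr_deriv ?_
    rw [S_eq]
    rcases j with _ | j
    · simp
    · rw [Nat.add_sub_cancel]
      push_cast
      field_simp
      ring

lemma zT_contDiff (n : ℕ) (j : ℕ) {k : ℝ → ℝ} (hk : ContDiff ℝ n k) :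
    ContDiff ℝ (n+1 : ℕ) (fun x => x * T j k x) := by
  have hd := zT_hasDerivAt j hk.continuous
  rw [Nat.cast_succ, contDiff_succ_iff_deriv]
  refine ⟨fun z => (hd z).differentiableAt, by simp, ?_⟩
  rw [show deriv (fun x => x * T j k x) = fun z => k z - j * T j k z from
    funext fun z => (hd z).deriv]
  exact hk.sub (contDiff_const.mul (T_contDiff n j k hk))

lemma smooth_of_eq {k : ℝ → ℝ} (hk : Continuous k) (hpos : ∀ z, 0 < k z)
    (heq : ∀ z, k z ^ 2 = FF k z) : ContDiff ℝ (⊤ : ℕ∞) k := by
  rw [contDiff_infty]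
  intro n
  induction n with
  | zero => rw [Nat.cast_zero, contDiff_zero]; exact hk
  | succ n ih =>
    have h1 := zT_contDiff n 1 ih
    have h2 := zT_contDiff n 2 ih
    have h3 := zT_contDiff n 3 ih
    have h4 : k = fun z => Real.sqrt (1 + z * ((z * T 1 k z) / 3 - 4/3 * (z * T 2 k z)
        + z * T 3 k z)) := by
      funext z
      have h5 : FF k z = 1 + z * ((z * T 1 k z) / 3 - 4/3 * (z * T 2 k z) + z * T 3 k z) := by
        unfold FF
        rw [Tm_eq hk]
        ring
      rw [← h5, ← heq z, Real.sqrt_sq (hpos z).le]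
    have h6 : ContDiff ℝ (n+1 : ℕ) (fun z => 1 + z * ((z * T 1 k z) / 3 - 4/3 * (z * T 2 k z)
        + z * T 3 k z)) := by
      apply contDiff_const.add
      apply contDiff_id.mul
      exact ((h1.div_const 3).sub (contDiff_const.mul h2)).add h3
    rw [h4]
    apply h6.sqrt
    intro z
    have h5 : FF k z = 1 + z * ((z * T 1 k z) / 3 - 4/3 * (z * T 2 k z) + z * T 3 k z) := by
      unfold FF
      rw [Tm_eq hk]
      ring
    rw [← h5, ← heq z]
    exact pow_ne_zero 2 (hpos z).ne'

/-- The ODE for `h = z k`. -/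
lemma ode_of_eq {k : ℝ → ℝ} (hk : Continuous k) (hpos : ∀ z, 0 < k z)
    (heq : ∀ z, k z ^ 2 = FF k z) (z : ℝ) :
    iteratedDeriv 2 (fun x => (x * k x) * deriv (fun y => y * k y) x) z =
      -(z * deriv (fun y => y * k y) z) / 3 := by
  have hsm := smooth_of_eq hk hpos heq
  have hh : ContDiff ℝ (⊤ : ℕ∞) (fun y : ℝ => y * k y) := contDiff_id.mul hsm
  have hd : ∀ x, HasDerivAt (fun y : ℝ => y * k y) (deriv (fun y => y * k y) x) x := fun x =>
    ((hh.differentiable (by simp)) x).hasDerivAt
  have h1 : (fun x => (x * k x) * deriv (fun y => y * k y) x) = ww k := by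
    funext x
    have h2 : (fun x => (x * k x)^2) = fun x => 2 * GG k x := by
      funext x
      rw [two_GG_eq hk, ← heq x, mul_pow]
    have h3 : HasDerivAt (fun x => (x * k x)^2) (2 * ww k x) x := by
      rw [h2]
      exact (GG_hasDerivAt hk x).const_mul 2
    have h4 := (hd x).pow 2
    have h5 := h3.unique h4
    simp at h5
    linarith
  rw [h1, iteratedDeriv_succ, iteratedDeriv_one]
  rw [show deriv (ww k) = fun z => CC k z - z * (z * k z) / 3 from
    funext fun x => (ww_hasDerivAt hk x).deriv]
  have h6 : HasDerivAt (fun z => CC k z - z * (z * k z) / 3)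
      (z * k z / 3 - (1 * (z * k z) + z * deriv (fun y => y * k y) z) / 3) z :=
    (CC_hasDerivAt hk z).sub (((hasDerivAt_id z).mul (hd z)).div_const 3)
  rw [h6.deriv]
  ring

end

end H53Shock
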