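import Pool.Agent.H53.ShockC

/-!
Third-order dispersive shock profile: asymptotics at infinity.
-/

namespace H53Shock

open MeasureTheory intervalIntegral Set Filter Topology

noncomputable section

section

variable {k : ℝ → ℝ} (hk : Continuous k) (hpos : ∀ z, 0 < k z)
    (heq : ∀ z, k z ^ 2 = FF k z)

/-- `a = 3C/z`. -/
def aa (k : ℝ → ℝ) (z : ℝ) : ℝ := 3 * CC k z / z

/-- Lyapunov functional. -/
def Eh (k : ℝ → ℝ) (z : ℝ) : ℝ := EE k z + (3/2) * ((CC k z)^3 / z^2)

include hk hpos heq in
lemma Eh_hasDerivAt {z : ℝ} (hz : 0 < z) :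
    HasDerivAt (Eh k) (-(z * k z - aa k z)^2 * (z * k z + 2 * aa k z)/18) z := by
  have h1 := EE_hasDerivAt hk (Z := z + 1) (z := z) ⟨hz, by linarith⟩
    (fun y _ => hpos y) (fun y _ => heq y)
  have h2 := (((CC_hasDerivAt hk z).pow 3).div (hasDerivAt_pow 2 z) (by positivity)).const_mul
    (3/2 : ℝ)
  refine (h1.add h2).congr_deriv ?_
  unfold aa
  have hz0 : z ≠ 0 := hz.ne'
  simp
  field_simp
  ring

include hk heq in
lemma Eh_eq {z : ℝ} (hz : 0 < z) :
    Eh k z = (ww k z)^2/2 + (z/18) * ((z * k z - aa k z)^2 * (2 * (z * k z) + aa k z)) := by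
  have h2G : GG k z = (z * k z)^2 / 2 := by
    have := two_GG_eq hk z
    rw [← heq z, ← mul_pow] at this
    linarith
  unfold Eh EE aa
  rw [h2G]
  have hz0 : z ≠ 0 := hz.ne'
  field_simp
  ring

include hpos in
lemma CC_ge_one {z : ℝ} (hz : 0 ≤ z) : 1 ≤ CC k z := by
  unfold CC
  have : 0 ≤ S 1 k z := by
    unfold S
    apply intervalIntegral.integral_nonneg hz
    intro s hs
    have := hpos s
    have := hs.1
    positivity
  linarith

include hpos in
lemma aa_pos {z : ℝ} (hz : 0 < z) : 0 < aa k z := by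
  unfold aa
  have := CC_ge_one hpos hz.le
  positivity

include hk hpos heq in
lemma Eh_le {z : ℝ} (hz : 1 ≤ z) : Eh k z ≤ Eh k 1 := by
  have h : AntitoneOn (Eh k) (Ici 1) := by
    apply antitoneOn_of_deriv_nonpos (convex_Ici 1)
    · intro z hz
      have hz' : (1:ℝ) ≤ z := hz
      exact (Eh_hasDerivAt hk hpos heq (by linarith)).continuousAt.continuousWithinAt
    · rw [interior_Ici]
      intro z hz
      have hz' : (1:ℝ) < z := hz
      exact (Eh_hasDerivAt hk hpos heq (by linarith)).differentiableAt.differentiableWithinAt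
    · rw [interior_Ici]
      intro z hz
      have hz' : (1:ℝ) < z := hz
      have hz0 : 0 < z := by linarith
      rw [(Eh_hasDerivAt hk hpos heq hz0).deriv]
      have h1 := hpos z
      have h2 := aa_pos hpos hz0
      have : 0 ≤ (z * k z - aa k z)^2 * (z * k z + 2 * aa k z)/18 := by positivity
      linarith
  exact h (mem_Ici.2 le_rfl) (mem_Ici.2 hz) hz

/-- `b = 3C/z + 3w/z²` -/
def bb (k : ℝ → ℝ) (z : ℝ) : ℝ := 3 * CC k z / z + 3 * ww k z / z^2

include hk in
lemma bb_hasDerivAt {z : ℝ} (hz : 0 < z) :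
    HasDerivAt (bb k) (-6 * ww k z / z^3) z := by
  have h1 := ((CC_hasDerivAt hk z).const_mul 3).div (hasDerivAt_id z) hz.ne'
  have h2 := ((ww_hasDerivAt hk z).const_mul 3).div (hasDerivAt_pow 2 z) (by positivity)
  refine (h1.add h2).congr_deriv ?_
  have hz0 : z ≠ 0 := hz.ne'
  simp
  field_simp
  ring

include hk hpos heq in
/-- the limit at infinity exists and is positive -/
theorem exists_limit : ∃ a : ℝ, 0 < a ∧ Tendsto (fun z => z * k z) atTop (𝓝 a) := by
  set E1 := Eh k 1 with hE1
  have hE1nn : 0 ≤ E1 := by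
    rw [hE1, Eh_eq hk heq one_pos]
    have h1 := hpos 1
    have h2 := aa_pos hpos one_pos
    positivity
  set W := Real.sqrt (2 * E1) with hW
  have hW2 : W^2 = 2 * E1 := Real.sq_sqrt (by positivity)
  have hWnn : 0 ≤ W := Real.sqrt_nonneg _
  have hw : ∀ z, 1 ≤ z → |ww k z| ≤ W := by
    intro z hz
    have hz0 : 0 < z := by linarith
    apply abs_le_of_sq_le_sq _ hWnn
    have h1 := Eh_le hk hpos heq hz
    rw [Eh_eq hk heq hz0] at h1
    have h2 := hpos z
    have h3 := aa_pos hpos hz0
    have h4 : 0 ≤ (z/18) * ((z * k z - aa k z)^2 * (2 * (z * k z) + aa k z)) := by positivity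
    rw [hW2]
    linarith
  -- lower function
  let bl : ℝ → ℝ := fun z => bb k z - 3 * W / z^2
  let bu : ℝ → ℝ := fun z => bb k z + 3 * W / z^2
  have hbl : MonotoneOn bl (Ici 1) := by
    have hd : ∀ z, 0 < z → HasDerivAt bl (-6 * ww k z / z^3 + 6 * W / z^3) z := by
      intro z hz
      have h1 := (hasDerivAt_const z (3 * W)).div (hasDerivAt_pow 2 z) (by positivity)
      refine ((bb_hasDerivAt hk hz).sub h1).congr_deriv ?_
      have hz0 : z ≠ 0 := hz.ne'
      simp
      field_simp
      ring
    apply monotoneOn_of_deriv_nonneg (convex_Ici 1)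
    · intro z hz
      have hz' : (1:ℝ) ≤ z := hz
      exact (hd z (by linarith)).continuousAt.continuousWithinAt
    · rw [interior_Ici]
      intro z hz
      have hz' : (1:ℝ) < z := hz
      exact (hd z (by linarith)).differentiableAt.differentiableWithinAt
    · rw [interior_Ici]
      intro z hz
      have hz' : (1:ℝ) < z := hz
      have hz0 : 0 < z := by linarith
      rw [(hd z hz0).deriv, ← add_div]
      apply div_nonneg _ (by positivity)
      have := (abs_le.1 (hw z hz'.le)).2
      linarith
  have hbu : AntitoneOn bu (Ici 1) := by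
    have hd : ∀ z, 0 < z → HasDerivAt bu (-6 * ww k z / z^3 - 6 * W / z^3) z := by
      intro z hz
      have h1 := (hasDerivAt_const z (3 * W)).div (hasDerivAt_pow 2 z) (by positivity)
      refine ((bb_hasDerivAt hk hz).add h1).congr_deriv ?_
      have hz0 : z ≠ 0 := hz.ne'
      simp
      field_simp
      ring
    apply antitoneOn_of_deriv_nonpos (convex_Ici 1)
    · intro z hz
      have hz' : (1:ℝ) ≤ z := hz
      exact (hd z (by linarith)).continuousAt.continuousWithinAt
    · rw [interior_Ici]
      intro z hz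
      have hz' : (1:ℝ) < z := hz
      exact (hd z (by linarith)).differentiableAt.differentiableWithinAt
    · rw [interior_Ici]
      intro z hz
      have hz' : (1:ℝ) < z := hz
      have hz0 : 0 < z := by linarith
      rw [(hd z hz0).deriv, ← sub_div]
      apply div_nonpos_of_nonpos_of_nonneg _ (by positivity)
      have := (abs_le.1 (hw z hz'.le)).1
      linarith
  have hle : ∀ z, 1 ≤ z → bl z ≤ bu 1 := by
    intro z hz
    have h1 : bl z ≤ bu z := by
      change bb k z - 3 * W / z^2 ≤ bb k z + 3 * W / z^2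
      have : 0 ≤ 3 * W / z^2 := by positivity
      linarith
    exact h1.trans (hbu (mem_Ici.2 le_rfl) (mem_Ici.2 hz) hz)
  have hmono : Monotone (fun z => bl (max z 1)) := by
    intro x y hxy
    exact hbl (mem_Ici.2 (le_max_right _ _)) (mem_Ici.2 (le_max_right _ _))
      (max_le_max_right 1 hxy)
  have hbdd : BddAbove (range (fun z => bl (max z 1))) := by
    refine ⟨bu 1, ?_⟩
    rintro _ ⟨z, rfl⟩
    exact hle _ (le_max_right _ _)
  have hlim := tendsto_atTop_ciSup hmono hbdd
  set a := ⨆ z, bl (max z 1) with ha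
  have hble : ∀ z, 1 ≤ z → bl z ≤ a := by
    intro z hz
    have := le_ciSup hbdd z
    rwa [max_eq_left hz] at this
  have hlim' : Tendsto bl atTop (𝓝 a) := by
    refine hlim.congr' ?_
    filter_upwards [eventually_ge_atTop 1] with z hz
    rw [max_eq_left hz]
  have hdiff : Tendsto (fun z : ℝ => 6 * W / z^2) atTop (𝓝 0) := by
    apply Tendsto.div_atTop tendsto_const_nhds
    exact tendsto_pow_atTop (by norm_num)
  have haa : Tendsto (aa k) atTop (𝓝 a) := by
    have h1 : Tendsto (fun z => bl z + 6 * W / z^2) atTop (𝓝 a) := by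
      simpa using hlim'.add hdiff
    refine tendsto_of_tendsto_of_tendsto_of_le_of_le' hlim' h1 ?_ ?_
    · filter_upwards [eventually_ge_atTop 1] with z hz
      have hz0 : 0 < z := by linarith
      have := (abs_le.1 (hw z hz)).2
      change 3 * CC k z / z + 3 * ww k z / z^2 - 3 * W / z^2 ≤ 3 * CC k z / z
      have h2 : 3 * ww k z / z^2 ≤ 3 * W / z^2 := by
        apply div_le_div_of_nonneg_right _ (by positivity)
        linarith
      linarith
    · filter_upwards [eventually_ge_atTop 1] with z hz
      have hz0 : 0 < z := by linarith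
      have := (abs_le.1 (hw z hz)).1
      change 3 * CC k z / z ≤ 3 * CC k z / z + 3 * ww k z / z^2 - 3 * W / z^2 + 6 * W / z^2
      have h2 : -(3 * W) / z^2 ≤ 3 * ww k z / z^2 := by
        apply div_le_div_of_nonneg_right _ (by positivity)
        linarith
      have h3 : -(3 * W) / z^2 = -(3 * W / z^2) := by ring
      have h4 : 6 * W / z^2 = 2 * (3 * W / z^2) := by ring
      rw [h3] at h2
      rw [h4]
      linarith
  have hapos : 0 < a := by
    set z := 2 * W + 2 with hz
    have hz1 : 1 ≤ z := by linarith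
    have hz0 : 0 < z := by linarith
    have h1 := hble z hz1
    have h2 : 0 < bl z := by
      change 0 < 3 * CC k z / z + 3 * ww k z / z^2 - 3 * W / z^2
      have h3 : 3 * CC k z / z + 3 * ww k z / z^2 - 3 * W / z^2 =
          (3 * CC k z * z + 3 * ww k z - 3 * W) / z^2 := by
        field_simp
      rw [h3]
      apply div_pos _ (by positivity)
      have h4 := (abs_le.1 (hw z hz1)).1
      have h5 := CC_ge_one hpos hz0.le
      nlinarith
    linarith
  refine ⟨a, hapos, ?_⟩
  have hsub : Tendsto (fun z => z * k z - aa k z) atTop (𝓝 0) := by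
    have h1 : Tendsto (fun z : ℝ => Real.sqrt (36 * E1 / a / z)) atTop (𝓝 0) := by
      have h2 : Tendsto (fun z : ℝ => 36 * E1 / a / z) atTop (𝓝 0) :=
        Tendsto.div_atTop tendsto_const_nhds tendsto_id
      have := h2.sqrt
      simpa using this
    refine squeeze_zero_norm' ?_ h1
    filter_upwards [eventually_ge_atTop 1, haa.eventually (lt_mem_nhds (half_lt_self hapos))]
      with z hz haz
    have hz0 : 0 < z := by linarith
    rw [Real.norm_eq_abs]
    apply Real.abs_le_sqrt
    have h3 := Eh_le hk hpos heq hz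
    rw [Eh_eq hk heq hz0] at h3
    have h4 := hpos z
    have h5 : (z/18) * ((z * k z - aa k z)^2 * (2 * (z * k z) + aa k z)) ≤ E1 := by
      nlinarith [sq_nonneg (ww k z)]
    have h6 : (z/18) * ((z * k z - aa k z)^2 * (a/2)) ≤
        (z/18) * ((z * k z - aa k z)^2 * (2 * (z * k z) + aa k z)) := by
      apply mul_le_mul_of_nonneg_left _ (by positivity)
      apply mul_le_mul_of_nonneg_left _ (sq_nonneg _)
      have : 0 < z * k z := by positivity
      linarith
    rw [div_div, le_div_iff₀ (by positivity)]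
    nlinarith
  have := hsub.add haa
  simpa using this

end

end

end H53Shock
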