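import Pool.Agent.H53.ShockD

/-!
Third-order dispersive shock profile: uniqueness.
-/

namespace H53Shock

open MeasureTheory intervalIntegral Set Filter Topology

noncomputable section

/-- `h = -g` where `g` is a profile (with limit `-ℓ` at `+∞`). -/
structure HProf (h : ℝ → ℝ) (ℓ : ℝ) : Prop where
  smooth : ContDiff ℝ (⊤ : ℕ∞) h
  odd : ∀ z, h (-z) = - h z
  ode : ∀ z, deriv (deriv (fun x => h x * deriv h x)) z = -(z * deriv h z) / 3
  lim : Tendsto h atTop (𝓝 ℓ)

lemma eq_of_hasDerivAt {f g f' : ℝ → ℝ} (hf : ∀ z, HasDerivAt f (f' z) z)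
    (hg : ∀ z, HasDerivAt g (f' z) z) (h0 : f 0 = g 0) : f = g := by
  have h1 : ∀ z, HasDerivAt (fun x => f x - g x) 0 z := fun z =>
    ((hf z).sub (hg z)).congr_deriv (sub_self _)
  have h2 := is_const_of_deriv_eq_zero (f := fun x => f x - g x)
    (fun z => (h1 z).differentiableAt) (fun z => (h1 z).deriv)
  funext z
  have := h2 z 0
  simp only [h0, sub_self] at this
  linarith

section

variable {h : ℝ → ℝ} {ℓ : ℝ} (H : HProf h ℓ) (hℓ : 0 < ℓ)

include H in
lemma HProf.zero : h 0 = 0 := by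
  have := H.odd 0
  rw [neg_zero] at this
  linarith

include H in
lemma HProf.hd (z : ℝ) : HasDerivAt h (deriv h z) z :=
  ((H.smooth.differentiable (by simp)) z).hasDerivAt

include H in
lemma HProf.dsmooth : ContDiff ℝ (⊤ : ℕ∞) (deriv h) := by
  have := H.smooth
  exact (contDiff_infty_iff_deriv.1 this).2

def wf (h : ℝ → ℝ) : ℝ → ℝ := fun x => h x * deriv h x

include H in
lemma HProf.wsmooth : ContDiff ℝ (⊤ : ℕ∞) (wf h) := H.smooth.mul H.dsmooth

def Cf (h : ℝ → ℝ) : ℝ → ℝ := fun z => deriv (wf h) z + z * h z / 3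

include H in
lemma HProf.wd (z : ℝ) : HasDerivAt (wf h) (Cf h z - z * h z / 3) z := by
  have := ((H.wsmooth.differentiable (by simp)) z).hasDerivAt
  refine this.congr_deriv ?_
  unfold Cf
  ring

include H in
lemma HProf.Cd (z : ℝ) : HasDerivAt (Cf h) (h z / 3) z := by
  have h1 : ContDiff ℝ (⊤ : ℕ∞) (deriv (wf h)) := (contDiff_infty_iff_deriv.1 H.wsmooth).2
  have h2 : HasDerivAt (deriv (wf h)) (-(z * deriv h z) / 3) z := by
    rw [← H.ode z]
    exact ((h1.differentiable (by simp)) z).hasDerivAt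
  have h3 := h2.add (((hasDerivAt_id z).mul (H.hd z)).div_const 3)
  refine h3.congr_deriv ?_
  simp only [id]
  ring

def Ef (h : ℝ → ℝ) : ℝ → ℝ := fun z => (wf h z)^2/2 + z * (h z)^3/9 - Cf h z * (h z)^2/2

include H in
lemma HProf.Ed (z : ℝ) : HasDerivAt (Ef h) (-(h z)^3/18) z := by
  have h1 := (((H.wd z).pow 2).div_const 2).add
    (((hasDerivAt_id z).mul ((H.hd z).pow 3)).div_const 9)
  have h2 := h1.sub (((H.Cd z).mul ((H.hd z).pow 2)).div_const 2)
  refine h2.congr_deriv ?_
  simp [wf]
  ring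

lemma Ef_zero_of {z : ℝ} (hz : h z = 0) : Ef h z = 0 := by
  simp [Ef, wf, hz]

include H hℓ in
lemma HProf.pos_of_pos {z : ℝ} (hz : 0 < z) : 0 < h z := by
  have hc : Continuous h := H.smooth.continuous
  -- the set of zeros
  let A : Set ℝ := {y | 0 ≤ y ∧ h y = 0}
  have hAne : A.Nonempty := ⟨0, le_rfl, H.zero⟩
  have hAc : IsClosed A := (isClosed_le continuous_const continuous_id).inter
    (isClosed_eq hc continuous_const)
  obtain ⟨B, hB⟩ : ∃ B, ∀ y, B ≤ y → 0 < h y := by
    have := H.lim.eventually (lt_mem_nhds hℓ)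
    exact eventually_atTop.1 this
  have hAb : BddAbove A := ⟨B, fun y hy => by
    by_contra hcon
    push Not at hcon
    have := hB y hcon.le
    rw [hy.2] at this
    exact lt_irrefl _ this⟩
  have hmem := hAc.csSup_mem hAne hAb
  set zs := sSup A with hzs
  have hzs0 : 0 ≤ zs := hmem.1
  have hpos : ∀ y, zs < y → 0 < h y := by
    intro y hy
    by_contra hcon
    push Not at hcon
    -- zero in [y, max y B]
    have h1 : 0 < h (max y B) := hB _ (le_max_right _ _)
    have h2 : (0:ℝ) ∈ Icc (h y) (h (max y B)) := ⟨hcon, h1.le⟩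
    obtain ⟨x, hx, hx0⟩ := intermediate_value_Icc (le_max_left y B) hc.continuousOn h2
    have h3 : x ≤ zs := le_csSup hAb ⟨hzs0.trans (hy.le.trans hx.1), hx0⟩
    linarith [hx.1]
  have hEc : Continuous (Ef h) := continuous_iff_continuousAt.2 fun z => (H.Ed z).continuousAt
  have hE0 : Ef h 0 = 0 := Ef_zero_of H.zero
  have hEs : Ef h zs = 0 := Ef_zero_of hmem.2
  have hEle : ∀ y ∈ Icc 0 zs, Ef h y ≤ 0 := by
    obtain ⟨x, hx, hmax⟩ := isCompact_Icc.exists_isMaxOn (nonempty_Icc.2 hzs0) hEc.continuousOn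
    have hx0 : Ef h x ≤ 0 := by
      by_contra hcon
      push Not at hcon
      have h1 : x ≠ 0 := fun hh => by rw [hh, hE0] at hcon; exact lt_irrefl _ hcon
      have h2 : x ≠ zs := fun hh => by rw [hh, hEs] at hcon; exact lt_irrefl _ hcon
      have h3 : x ∈ Ioo 0 zs := ⟨lt_of_le_of_ne hx.1 (Ne.symm h1), lt_of_le_of_ne hx.2 h2⟩
      have h4 : IsLocalMax (Ef h) x := hmax.isLocalMax (Icc_mem_nhds h3.1 h3.2)
      have h5 := h4.hasDerivAt_eq_zero (H.Ed x)
      have h6 : h x = 0 := by
        have : (h x)^3 = 0 := by linarith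
        exact pow_eq_zero_iff (by norm_num) |>.1 this
      rw [Ef_zero_of h6] at hcon
      exact lt_irrefl _ hcon
    exact fun y hy => (hmax hy).trans hx0
  have hEge : ∀ y ∈ Icc 0 zs, 0 ≤ Ef h y := by
    obtain ⟨x, hx, hmin⟩ := isCompact_Icc.exists_isMinOn (nonempty_Icc.2 hzs0) hEc.continuousOn
    have hx0 : 0 ≤ Ef h x := by
      by_contra hcon
      push Not at hcon
      have h1 : x ≠ 0 := fun hh => by rw [hh, hE0] at hcon; exact lt_irrefl _ hcon
      have h2 : x ≠ zs := fun hh => by rw [hh, hEs] at hcon; exact lt_irrefl _ hcon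
      have h3 : x ∈ Ioo 0 zs := ⟨lt_of_le_of_ne hx.1 (Ne.symm h1), lt_of_le_of_ne hx.2 h2⟩
      have h4 : IsLocalMin (Ef h) x := hmin.isLocalMin (Icc_mem_nhds h3.1 h3.2)
      have h5 := h4.hasDerivAt_eq_zero (H.Ed x)
      have h6 : h x = 0 := by
        have : (h x)^3 = 0 := by linarith
        exact pow_eq_zero_iff (by norm_num) |>.1 this
      rw [Ef_zero_of h6] at hcon
      exact lt_irrefl _ hcon
    exact fun y hy => hx0.trans (hmin hy)
  have hh0 : ∀ y ∈ Ioo 0 zs, h y = 0 := by
    intro y hy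
    have h1 : Ef h =ᶠ[𝓝 y] fun _ => 0 := by
      filter_upwards [isOpen_Ioo.mem_nhds hy] with x hx
      exact le_antisymm (hEle x ⟨hx.1.le, hx.2.le⟩) (hEge x ⟨hx.1.le, hx.2.le⟩)
    have h2 := (H.Ed y).unique ((hasDerivAt_const y (0:ℝ)).congr_of_eventuallyEq h1)
    have : (h y)^3 = 0 := by linarith
    exact pow_eq_zero_iff (by norm_num) |>.1 this
  rcases hzs0.lt_or_eq with hzpos | hz0
  · exfalso
    -- C = 0 on (0, zs)
    have hC0 : ∀ y ∈ Ioo 0 zs, Cf h y = 0 := by
      intro y hy
      have h1 : wf h =ᶠ[𝓝 y] fun _ => 0 := by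
        filter_upwards [isOpen_Ioo.mem_nhds hy] with x hx
        simp [wf, hh0 x hx]
      have h2 := (H.wd y).unique ((hasDerivAt_const y (0:ℝ)).congr_of_eventuallyEq h1)
      rw [hh0 y hy] at h2
      simpa using h2
    have hCc : Continuous (Cf h) := continuous_iff_continuousAt.2 fun z => (H.Cd z).continuousAt
    have hCs : Cf h zs = 0 := by
      have hcl : IsClosed {y : ℝ | Cf h y = 0} := isClosed_eq hCc continuous_const
      have : closure (Ioo 0 zs) ⊆ {y : ℝ | Cf h y = 0} := hcl.closure_subset_iff.2 hC0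
      rw [closure_Ioo hzpos.ne] at this
      exact this ⟨hzs0, le_rfl⟩
    have hws : wf h zs = 0 := by simp [wf, hmem.2]
    have hnn : ∀ y, zs ≤ y → 0 ≤ h y := by
      intro y hy
      rcases hy.lt_or_eq with hy | hy
      · exact (hpos y hy).le
      · rw [← hy, hmem.2]
    have hwle : ∀ Z ∈ Icc zs (2 * zs), wf h Z ≤ 0 := by
      intro Z hZ
      have hR : ∀ s, HasDerivAt (fun s => wf h s + (Z - s) * Cf h s) ((Z - 2 * s) * h s / 3) s := by
        intro s
        have h1 := (H.wd s).add (((hasDerivAt_id s).const_sub Z).mul (H.Cd s))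
        refine h1.congr_deriv ?_
        simp only [id]
        ring
      have hanti : AntitoneOn (fun s => wf h s + (Z - s) * Cf h s) (Icc zs Z) := by
        apply antitoneOn_of_deriv_nonpos (convex_Icc _ _)
        · exact (continuous_iff_continuousAt.2 fun s => (hR s).continuousAt).continuousOn
        · exact fun s _ => (hR s).differentiableAt.differentiableWithinAt
        · rw [interior_Icc]
          intro s hs
          rw [(hR s).deriv]
          have h1 := hnn s hs.1.le
          have h2 : Z - 2 * s ≤ 0 := by linarith [hs.1, hZ.2]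
          have := mul_nonpos_of_nonpos_of_nonneg h2 h1
          linarith
      have := hanti ⟨le_rfl, hZ.1⟩ ⟨hZ.1, le_rfl⟩ hZ.1
      simp only [hws, hCs, sub_self, zero_mul, mul_zero, add_zero] at this
      exact this
    have hsq : AntitoneOn (fun s => (h s)^2) (Icc zs (2 * zs)) := by
      have hd2 : ∀ s, HasDerivAt (fun s => (h s)^2) (2 * wf h s) s := by
        intro s
        refine ((H.hd s).pow 2).congr_deriv ?_
        simp [wf]
        ring
      apply antitoneOn_of_deriv_nonpos (convex_Icc _ _)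
      · exact (continuous_iff_continuousAt.2 fun s => (hd2 s).continuousAt).continuousOn
      · exact fun s _ => (hd2 s).differentiableAt.differentiableWithinAt
      · rw [interior_Icc]
        intro s hs
        rw [(hd2 s).deriv]
        have := hwle s ⟨hs.1.le, hs.2.le⟩
        linarith
    have h1 := hsq ⟨le_rfl, by linarith⟩ ⟨by linarith, le_rfl⟩ (by linarith : zs ≤ 2 * zs)
    have h2 := hpos (2 * zs) (by linarith)
    simp only [hmem.2] at h1
    nlinarith
  · exact hpos z (by rw [← hz0]; exact hz)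

include H hℓ in
lemma HProf.deriv_pos : 0 < deriv h 0 := by
  have hc : Continuous h := H.smooth.continuous
  have hp : ∀ y, 0 < y → 0 < h y := fun y hy => H.pos_of_pos hℓ hy
  have h0 := H.zero
  -- nonneg
  have hnn : 0 ≤ deriv h 0 := by
    have h1 := (H.hd 0).tendsto_slope
    have h2 : Tendsto (slope h 0) (𝓝[>] 0) (𝓝 (deriv h 0)) :=
      h1.mono_left (nhdsWithin_mono _ (fun x (hx : 0 < x) => hx.ne'))
    apply ge_of_tendsto h2
    filter_upwards [self_mem_nhdsWithin] with x hx
    have hx' : 0 < x := hx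
    rw [slope_def_field, h0]
    have := hp x hx'
    simp only [sub_zero]
    positivity
  rcases hnn.lt_or_eq with hlt | heq
  · exact hlt
  exfalso
  have hd0 : deriv h 0 = 0 := heq.symm
  -- C(0) = 0
  have hC0 : Cf h 0 = 0 := by
    have h1 : HasDerivAt (wf h) (deriv h 0 * deriv h 0 + h 0 * deriv (deriv h) 0) 0 := by
      have h2 : HasDerivAt (deriv h) (deriv (deriv h) 0) 0 :=
        ((H.dsmooth.differentiable (by simp)) 0).hasDerivAt
      exact (H.hd 0).mul h2
    have h2 := (H.wd 0).unique h1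
    rw [h0, hd0] at h2
    simpa using h2
  have hEneg : ∀ z, 0 < z → Ef h z < 0 := by
    intro z hz
    have : StrictAntiOn (Ef h) (Icc 0 z) := by
      apply strictAntiOn_of_deriv_neg (convex_Icc _ _)
      · exact (continuous_iff_continuousAt.2 fun s => (H.Ed s).continuousAt).continuousOn
      · rw [interior_Icc]
        intro s hs
        rw [(H.Ed s).deriv]
        have := hp s hs.1
        have : 0 < (h s)^3 := by positivity
        linarith
    have h1 := this ⟨le_rfl, hz.le⟩ ⟨hz.le, le_rfl⟩ hz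
    rwa [Ef_zero_of h0] at h1
  have hCgt : ∀ z, 0 < z → 2 * z * h z / 9 < Cf h z := by
    intro z hz
    have h1 := hEneg z hz
    have h2 := hp z hz
    unfold Ef at h1
    by_contra hcon
    push Not at hcon
    have h3 : Cf h z * (h z)^2 ≤ (2 * z * h z / 9) * (h z)^2 :=
      mul_le_mul_of_nonneg_right hcon (sq_nonneg _)
    nlinarith [sq_nonneg (wf h z)]
  have hCpos : ∀ z, 0 < z → 0 < Cf h z := by
    intro z hz
    refine lt_trans ?_ (hCgt z hz)
    have := hp z hz
    positivity
  have hJ : AntitoneOn (fun z => (Cf h z)^2 / z^3) (Ioi 0) := by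
    have hJd : ∀ z, 0 < z → HasDerivAt (fun z => (Cf h z)^2 / z^3)
        (Cf h z * (2 * z * h z / 3 - 3 * Cf h z) / z^4) z := by
      intro z hz
      have h1 := ((H.Cd z).pow 2).div (hasDerivAt_pow 3 z) (by positivity)
      refine h1.congr_deriv ?_
      have hz0 : z ≠ 0 := hz.ne'
      simp
      field_simp
    apply antitoneOn_of_deriv_nonpos (convex_Ioi 0)
    · intro z hz
      exact (hJd z hz).continuousAt.continuousWithinAt
    · rw [interior_Ioi]
      intro z hz
      exact (hJd z hz).differentiableAt.differentiableWithinAt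
    · rw [interior_Ioi]
      intro z hz
      rw [(hJd z hz).deriv]
      apply div_nonpos_of_nonpos_of_nonneg _ (by positivity)
      have h1 := hCgt z hz
      have h2 := hCpos z hz
      apply mul_nonpos_of_nonneg_of_nonpos h2.le
      linarith
  -- upper bound
  obtain ⟨M, hM⟩ := (isCompact_Icc (a := (0:ℝ)) (b := 1)).exists_bound_of_continuousOn
    H.dsmooth.continuous.continuousOn
  have hM0 : 0 ≤ M := (norm_nonneg _).trans (hM 0 ⟨le_rfl, zero_le_one⟩)
  have hh : ∀ s ∈ Icc (0:ℝ) 1, h s ≤ M * s := by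
    intro s hs
    have : AntitoneOn (fun s => h s - M * s) (Icc 0 1) := by
      have hd : ∀ s, HasDerivAt (fun s => h s - M * s) (deriv h s - M) s := fun s =>
        ((H.hd s).sub ((hasDerivAt_id s).const_mul M)).congr_deriv (by ring)
      apply antitoneOn_of_deriv_nonpos (convex_Icc _ _)
      · exact (continuous_iff_continuousAt.2 fun s => (hd s).continuousAt).continuousOn
      · exact fun s _ => (hd s).differentiableAt.differentiableWithinAt
      · rw [interior_Icc]
        intro s hs
        rw [(hd s).deriv]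
        have := (le_abs_self _).trans (hM s ⟨hs.1.le, hs.2.le⟩)
        linarith
    have h1 := this ⟨le_rfl, zero_le_one⟩ hs hs.1
    simp only [h0] at h1
    linarith
  have hCle : ∀ s ∈ Icc (0:ℝ) 1, Cf h s ≤ M * s^2 / 6 := by
    intro s hs
    have : AntitoneOn (fun s => Cf h s - M * s^2/6) (Icc 0 1) := by
      have hd : ∀ s, HasDerivAt (fun s => Cf h s - M * s^2/6) (h s / 3 - M * s/3) s := fun s => by
        have h1 := (H.Cd s).sub (((hasDerivAt_pow 2 s).const_mul M).div_const 6)
        refine h1.congr_deriv ?_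
        simp
        ring
      apply antitoneOn_of_deriv_nonpos (convex_Icc _ _)
      · exact (continuous_iff_continuousAt.2 fun s => (hd s).continuousAt).continuousOn
      · exact fun s _ => (hd s).differentiableAt.differentiableWithinAt
      · rw [interior_Icc]
        intro s hs
        rw [(hd s).deriv]
        have := hh s ⟨hs.1.le, hs.2.le⟩
        linarith
    have h1 := this ⟨le_rfl, zero_le_one⟩ hs hs.1
    simp only [hC0] at h1
    linarith
  have hC1 := hCpos 1 one_pos
  have key : ∀ z ∈ Ioc (0:ℝ) 1, (Cf h 1)^2 ≤ M^2 / 36 * z := by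
    intro z hz
    have h1 := hJ (mem_Ioi.2 hz.1) (mem_Ioi.2 one_pos) hz.2
    simp only [one_pow, div_one] at h1
    have h2 := hCle z ⟨hz.1.le, hz.2⟩
    have h3 : (Cf h z)^2 ≤ (M * z^2/6)^2 := pow_le_pow_left₀ (hCpos z hz.1).le h2 2
    have h4 : (Cf h z)^2 / z^3 ≤ (M * z^2/6)^2 / z^3 :=
      div_le_div_of_nonneg_right h3 (by have := hz.1; positivity)
    have h5 : (M * z^2/6)^2 / z^3 = M^2/36 * z := by
      have hz0 : z ≠ 0 := hz.1.ne'
      field_simp
      ring
    rw [h5] at h4
    exact h1.trans h4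
  have hlim0 : Tendsto (fun z : ℝ => M^2/36 * z) (𝓝[>] 0) (𝓝 (M^2/36 * 0)) :=
    (tendsto_id.const_mul _).mono_left nhdsWithin_le_nhds
  rw [mul_zero] at hlim0
  have : (Cf h 1)^2 ≤ 0 := by
    apply ge_of_tendsto hlim0
    filter_upwards [Ioc_mem_nhdsGT (zero_lt_one' ℝ)] with z hz
    exact key z hz
  nlinarith

include H hℓ in
/-- normalised profiles are unique -/
lemma HProf.eq_h0 (hnorm : deriv h 0 = 1) : h = fun z => z * k0 z := by
  have h0 := H.zero
  set k : ℝ → ℝ := T 0 (deriv h) with hkdef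
  have hk : Continuous k := T_continuous 0 H.dsmooth.continuous
  have hzk : ∀ z, z * k z = h z := by
    intro z
    have h1 := S_eq 0 (deriv h) z
    have h2 : S 0 (deriv h) z = h z - h 0 := by
      unfold S
      simp only [pow_zero, one_mul]
      exact intervalIntegral.integral_deriv_eq_sub (fun x _ => (H.hd x).differentiableAt)
        (H.dsmooth.continuous.intervalIntegrable _ _)
    rw [h2, h0, sub_zero] at h1
    simpa using h1.symm
  have hk0 : k 0 = 1 := by
    rw [hkdef, T_at_zero, hnorm]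
    simp
  have hpos : ∀ z, 0 < k z := by
    intro z
    rcases lt_trichotomy z 0 with hz | hz | hz
    · have h1 := H.pos_of_pos hℓ (neg_pos.2 hz)
      rw [H.odd, ← hzk z] at h1
      nlinarith
    · rw [hz, hk0]; exact one_pos
    · have h1 := H.pos_of_pos hℓ hz
      rw [← hzk z] at h1
      exact (mul_pos_iff_of_pos_left hz).1 h1
  have heven : ∀ z, k (-z) = k z := by
    intro z
    by_cases hz : z = 0
    · simp [hz]
    · have h1 := hzk (-z)
      rw [H.odd, ← hzk z] at h1
      have h2 : z * k (-z) = z * k z := by linarith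
      exact mul_left_cancel₀ hz h2
  have hCeq : Cf h = CC k := by
    apply eq_of_hasDerivAt (f' := fun z => h z / 3) H.Cd
    · intro z
      have := CC_hasDerivAt hk z
      rwa [hzk] at this
    · have h1 : HasDerivAt (wf h) (deriv h 0 * deriv h 0 + h 0 * deriv (deriv h) 0) 0 := by
        have h2 : HasDerivAt (deriv h) (deriv (deriv h) 0) 0 :=
          ((H.dsmooth.differentiable (by simp)) 0).hasDerivAt
        exact (H.hd 0).mul h2
      have h2 := (H.wd 0).unique h1
      rw [h0, hnorm] at h2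
      simp at h2
      rw [h2]
      simp [CC, S_zero]
  have hweq : wf h = ww k := by
    apply eq_of_hasDerivAt (f' := fun z => Cf h z - z * h z / 3) H.wd
    · intro z
      have := ww_hasDerivAt hk z
      rw [hzk, ← hCeq] at this
      exact this
    · simp [wf, h0, ww, S_zero]
  have hGeq : (fun z => (h z)^2) = fun z => 2 * GG k z := by
    apply eq_of_hasDerivAt (f' := fun z => 2 * wf h z)
    · intro z
      refine ((H.hd z).pow 2).congr_deriv ?_
      simp [wf]
      ring
    · intro z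
      rw [hweq]
      exact (GG_hasDerivAt hk z).const_mul 2
    · simp [h0, GG, S_zero]
  have heq : ∀ z, k z ^ 2 = FF k z := by
    intro z
    by_cases hz : z = 0
    · rw [hz, hk0]
      simp [FF]
    · have h1 : (h z)^2 = 2 * GG k z := congrFun hGeq z
      rw [two_GG_eq hk, ← hzk z, mul_pow] at h1
      exact mul_left_cancel₀ (pow_ne_zero 2 hz) h1
  have hkk := k0_unique' hk hpos heven (fun z _ => heq z)
  funext z
  rw [← hzk z, hkk]

end

/-- scaling -/
lemma HProf.scale {h : ℝ → ℝ} {ℓ : ℝ} (H : HProf h ℓ) {ν : ℝ} (hν : 0 < ν) :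
    HProf (fun z => (ν^3)⁻¹ * h (ν * z)) ((ν^3)⁻¹ * ℓ) := by
  have hν0 : ν ≠ 0 := hν.ne'
  have hder : deriv (fun z => (ν^3)⁻¹ * h (ν * z)) = fun z => (ν^2)⁻¹ * deriv h (ν * z) := by
    funext z
    have h1 : HasDerivAt (fun z => h (ν * z)) (deriv h (ν * z) * ν) z := by
      have h2 : HasDerivAt (fun x : ℝ => ν * x) ν z := by
        simpa using (hasDerivAt_id z).const_mul ν
      exact (H.hd (ν * z)).comp z h2
    rw [(h1.const_mul _).deriv]
    field_simp
  refine ⟨?_, ?_, ?_, ?_⟩
  · exact contDiff_const.mul (H.smooth.comp (contDiff_const.mul contDiff_id))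
  · intro z
    rw [mul_neg, H.odd]
    ring
  · intro z
    rw [hder]
    have h1 : (fun x => (ν^3)⁻¹ * h (ν * x) * ((ν^2)⁻¹ * deriv h (ν * x))) =
        fun x => (ν^5)⁻¹ * wf h (ν * x) := by
      funext x
      unfold wf
      field_simp
    rw [h1]
    have hw1 : ContDiff ℝ (⊤ : ℕ∞) (deriv (wf h)) := (contDiff_infty_iff_deriv.1 H.wsmooth).2
    have h2 : deriv (fun x => (ν^5)⁻¹ * wf h (ν * x)) = fun x => (ν^4)⁻¹ * deriv (wf h) (ν * x) := by
      funext z
      have h1 : HasDerivAt (fun z => wf h (ν * z)) (deriv (wf h) (ν * z) * ν) z := by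
        have h2 : HasDerivAt (fun x : ℝ => ν * x) ν z := by
          simpa using (hasDerivAt_id z).const_mul ν
        exact (((H.wsmooth.differentiable (by simp)) (ν * z)).hasDerivAt).comp z h2
      rw [(h1.const_mul _).deriv]
      field_simp
    rw [h2]
    have h3 : HasDerivAt (fun z => deriv (wf h) (ν * z)) (deriv (deriv (wf h)) (ν * z) * ν) z := by
      have h2 : HasDerivAt (fun x : ℝ => ν * x) ν z := by
        simpa using (hasDerivAt_id z).const_mul ν
      exact (((hw1.differentiable (by simp)) (ν * z)).hasDerivAt).comp z h2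
    rw [(h3.const_mul _).deriv]
    have h4 := H.ode (ν * z)
    change deriv (deriv (wf h)) (ν * z) = _ at h4
    rw [h4]
    field_simp
  · apply Tendsto.const_mul
    exact H.lim.comp (tendsto_id.const_mul_atTop hν)

lemma HProf.scale_deriv {h : ℝ → ℝ} {ℓ : ℝ} (H : HProf h ℓ) {ν : ℝ} (hν : 0 < ν) :
    deriv (fun z => (ν^3)⁻¹ * h (ν * z)) 0 = (ν^2)⁻¹ * deriv h 0 := by
  have hν0 : ν ≠ 0 := hν.ne'
  have h1 : HasDerivAt (fun z => h (ν * z)) (deriv h (ν * 0) * ν) 0 := by
    have h2 : HasDerivAt (fun x : ℝ => ν * x) ν 0 := by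
      simpa using (hasDerivAt_id (0:ℝ)).const_mul ν
    exact (H.hd (ν * 0)).comp 0 h2
  rw [(h1.const_mul _).deriv, mul_zero]
  field_simp

/-- the basic solution -/
theorem exists_base : ∃ a : ℝ, 0 < a ∧ HProf (fun z => z * k0 z) a := by
  obtain ⟨a, ha, hlim⟩ := exists_limit k0_continuous k0_pos k0_sq
  refine ⟨a, ha, ⟨?_, ?_, ?_, hlim⟩⟩
  · exact contDiff_id.mul (smooth_of_eq k0_continuous k0_pos k0_sq)
  · intro z
    rw [k0_even]
    ring
  · intro z
    have := ode_of_eq k0_continuous k0_pos k0_sq z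
    rw [iteratedDeriv_succ, iteratedDeriv_one] at this
    exact this

theorem exists_unique_HProf : ∃! h : ℝ → ℝ, HProf h 1 := by
  obtain ⟨a, ha, Hb⟩ := exists_base
  obtain ⟨ν, hν, hν3⟩ : ∃ ν : ℝ, 0 < ν ∧ ν^3 = a := by
    refine ⟨a ^ (1/3 : ℝ), Real.rpow_pos_of_pos ha _, ?_⟩
    rw [← Real.rpow_natCast, ← Real.rpow_mul ha.le]
    norm_num
  refine ⟨fun z => (ν^3)⁻¹ * ((ν * z) * k0 (ν * z)), ?_, ?_⟩
  · have := Hb.scale hν
    rw [hν3, inv_mul_cancel₀ ha.ne'] at this
    rw [hν3]
    exact this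
  · intro h H
    have hc := H.deriv_pos one_pos
    set μ := Real.sqrt (deriv h 0) with hμ
    have hμpos : 0 < μ := Real.sqrt_pos.2 hc
    have hμ2 : μ^2 = deriv h 0 := Real.sq_sqrt hc.le
    have H1 := H.scale hμpos
    have hd1 := H.scale_deriv hμpos
    rw [← hμ2, inv_mul_cancel₀ (by positivity)] at hd1
    have h1 := H1.eq_h0 (by positivity) hd1
    have hlim : (μ^3)⁻¹ * 1 = a := by
      have h2 := H1.lim
      rw [h1] at h2
      exact tendsto_nhds_unique h2 Hb.lim
    rw [mul_one] at hlim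
    have hμν : μ = ν⁻¹ := by
      have h3 : (μ⁻¹)^3 = ν^3 := by rw [hν3, ← hlim, inv_pow]
      have h4 : μ⁻¹ = ν := (pow_left_inj₀ (by positivity) hν.le (by norm_num)).1 h3
      rw [← h4, inv_inv]
    funext z
    have h5 : (μ^3)⁻¹ * h (μ * (ν * z)) = (ν * z) * k0 (ν * z) := congrFun h1 (ν * z)
    rw [hμν, ← mul_assoc ν⁻¹, inv_mul_cancel₀ hν.ne', one_mul] at h5
    rw [← h5, ← mul_assoc, inv_pow, inv_inv, inv_mul_cancel₀ (by positivity), one_mul]

end

end H53Shock
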